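import Mathlib

/-!
# Triples with zero sum in groups of exponent three
-/

set_option autoImplicit false
set_option linter.unusedSectionVars false

namespace Pool.Agent.H61.F3

open Finset

section general

variable {G : Type*} [AddCommGroup G] [Fintype G] [DecidableEq G]

/-- the trilinear form counting triples with zero sum -/
def Lam (f g h : G → ℤ) : ℤ := ∑ a, ∑ b, f a * g b * h (-a - b)

/-- indicator function -/
def ind (S : Finset G) (x : G) : ℤ := if x ∈ S then 1 else 0

/-- number of triples in `S` with zero sum -/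
def T (S : Finset G) : ℤ := Lam (ind S) (ind S) (ind S)

theorem sum_ind (S : Finset G) : ∑ a, ind S a = S.card := by
  simp [ind]

theorem Lam_swap (f g h : G → ℤ) : Lam f g h = Lam g f h := by
  unfold Lam
  rw [Finset.sum_comm]
  refine Finset.sum_congr rfl fun a _ => Finset.sum_congr rfl fun b _ => ?_
  rw [show -b - a = -a - b by abel]
  ring

/-- the involution `a ↦ -a - b` -/
def flip (b : G) : G ≃ G where
  toFun a := -a - b
  invFun a := -a - b
  left_inv a := by
    change -(-a - b) - b = a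
    abel
  right_inv a := by
    change -(-a - b) - b = a
    abel

theorem Lam_rot (f g h : G → ℤ) : Lam f g h = Lam h g f := by
  unfold Lam
  rw [Finset.sum_comm]
  conv_rhs => rw [Finset.sum_comm]
  refine Finset.sum_congr rfl fun b _ => ?_
  rw [← Equiv.sum_comp (flip b)]
  refine Finset.sum_congr rfl fun a _ => ?_
  simp only [flip, Equiv.coe_fn_mk]
  rw [show -(-a - b) - b = a by abel]
  ring

theorem Lam_sub_left (f f' g h : G → ℤ) : Lam (f - f') g h = Lam f g h - Lam f' g h := by
  unfold Lam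
  simp only [Pi.sub_apply, sub_mul, Finset.sum_sub_distrib]

theorem Lam_sub_mid (f g g' h : G → ℤ) : Lam f (g - g') h = Lam f g h - Lam f g' h := by
  rw [Lam_swap, Lam_sub_left, Lam_swap, Lam_swap g']

theorem Lam_sub_right (f g h h' : G → ℤ) : Lam f g (h - h') = Lam f g h - Lam f g h' := by
  rw [Lam_rot, Lam_sub_left, Lam_rot, Lam_rot h']

theorem Lam_one (f g : G → ℤ) : Lam f g 1 = (∑ a, f a) * ∑ b, g b := by
  unfold Lam
  simp only [Pi.one_apply, mul_one]
  rw [Finset.sum_mul_sum]

theorem sum_one : ∑ _a : G, (1 : G → ℤ) _a = Fintype.card G := by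
  simp

theorem ind_compl (C : Finset G) : ind Cᶜ = 1 - ind C := by
  funext x
  simp only [ind, Finset.mem_compl, Pi.sub_apply, Pi.one_apply]
  by_cases h : x ∈ C <;> simp [h]

theorem T_compl (C : Finset G) : T Cᶜ = (Fintype.card G : ℤ) ^ 2 - 3 * Fintype.card G * C.card +
    3 * (C.card : ℤ) ^ 2 - T C := by
  have e1 : Lam (1 : G → ℤ) 1 1 = (Fintype.card G : ℤ) ^ 2 := by
    rw [Lam_one, sum_one]; ring
  have e2 : Lam (ind C) 1 1 = (C.card : ℤ) * Fintype.card G := by
    rw [Lam_one, sum_one, sum_ind]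
  have e2' : Lam 1 (ind C) 1 = (C.card : ℤ) * Fintype.card G := by rw [Lam_swap, e2]
  have e2'' : Lam 1 1 (ind C) = (C.card : ℤ) * Fintype.card G := by rw [Lam_rot, e2]
  have e3 : Lam (ind C) (ind C) 1 = (C.card : ℤ) ^ 2 := by
    rw [Lam_one, sum_ind]; ring
  have e3' : Lam 1 (ind C) (ind C) = (C.card : ℤ) ^ 2 := by rw [Lam_rot, e3]
  have e3'' : Lam (ind C) 1 (ind C) = (C.card : ℤ) ^ 2 := by rw [Lam_swap, e3']
  unfold T
  rw [ind_compl]
  simp only [Lam_sub_left, Lam_sub_mid, Lam_sub_right, e1, e2, e2', e2'', e3, e3', e3'']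
  ring

/-- the number of zero-sum triples in `C` with first element `x` -/
def R (C : Finset G) (x : G) : ℤ := ∑ b, ind C b * ind C (-x - b)

theorem sum_R (C : Finset G) : ∑ x ∈ C, R C x = T C := by
  unfold T Lam R
  rw [← Finset.sum_filter_add_sum_filter_not (s := univ) (p := fun x => x ∈ C)
    (f := fun a => ∑ b, ind C a * ind C b * ind C (-a - b))]
  have h1 : ∑ x ∈ univ.filter (fun x => ¬ x ∈ C), ∑ b, ind C x * ind C b * ind C (-x - b) = 0 := by
    refine Finset.sum_eq_zero fun x hx => Finset.sum_eq_zero fun b _ => ?_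
    simp [ind, (Finset.mem_filter.1 hx).2]
  rw [h1, add_zero]
  have h2 : univ.filter (fun x => x ∈ C) = C := by ext x; simp
  rw [h2]
  refine Finset.sum_congr rfl fun x hx => Finset.sum_congr rfl fun b _ => ?_
  simp [ind, hx]

theorem Lam_single (x : G) (g h : G → ℤ) :
    Lam (Pi.single x 1) g h = ∑ b, g b * h (-x - b) := by
  unfold Lam
  rw [Finset.sum_eq_single x]
  · refine Finset.sum_congr rfl fun b _ => ?_
    simp
  · intro a _ ha
    refine Finset.sum_eq_zero fun b _ => ?_
    simp [Pi.single_eq_of_ne ha]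
  · intro h
    exact absurd (Finset.mem_univ x) h

theorem Lam_single_single (x y : G) (h : G → ℤ) :
    Lam (Pi.single x 1) (Pi.single y 1) h = h (-x - y) := by
  rw [Lam_single, Finset.sum_eq_single y]
  · simp
  · intro a _ ha
    simp [Pi.single_eq_of_ne ha]
  · intro h
    exact absurd (Finset.mem_univ y) h

theorem T_erase (h3 : ∀ x : G, x + x + x = 0) (C : Finset G) {x : G} (hx : x ∈ C) :
    T (C.erase x) = T C - 3 * R C x + 2 := by
  have hneg : -x - x = x := by
    have := h3 x
    calc -x - x = -x - x + (x + x + x) := by rw [this, add_zero]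
      _ = x := by abel
  have e0 : ind (C.erase x) = ind C - Pi.single x 1 := by
    funext y
    simp only [ind, Finset.mem_erase, Pi.sub_apply]
    by_cases h : y = x
    · subst h; simp [hx]
    · simp [h]
  have e1 : Lam (Pi.single x 1) (ind C) (ind C) = R C x := Lam_single _ _ _
  have e1' : Lam (ind C) (Pi.single x 1) (ind C) = R C x := by rw [Lam_swap, e1]
  have e1'' : Lam (ind C) (ind C) (Pi.single x 1) = R C x := by rw [Lam_rot, e1]
  have e2 : Lam (Pi.single x 1) (Pi.single x 1) (ind C) = 1 := by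
    rw [Lam_single_single, hneg]; simp [ind, hx]
  have e2' : Lam (ind C) (Pi.single x 1) (Pi.single x 1) = 1 := by rw [Lam_rot, e2]
  have e2'' : Lam (Pi.single x 1) (ind C) (Pi.single x 1) = 1 := by rw [Lam_swap, e2']
  have e3 : Lam (Pi.single x 1) (Pi.single x 1) (Pi.single x 1) = 1 := by
    rw [Lam_single_single, hneg]; simp
  unfold T
  rw [e0]
  simp only [Lam_sub_left, Lam_sub_mid, Lam_sub_right, e1, e1', e1'', e2, e2', e2'', e3]
  ring

/-- number of zero-sum triples of distinct elements -/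
def t (S : Finset G) : ℤ := T S - S.card

theorem t_nonneg (h3 : ∀ x : G, x + x + x = 0) (S : Finset G) : 0 ≤ t S := by
  unfold t
  rw [sub_nonneg, ← sum_R, ← nsmul_one, ← Finset.sum_const]
  refine Finset.sum_le_sum fun x hx => ?_
  have hneg : -x - x = x := by
    have := h3 x
    calc -x - x = -x - x + (x + x + x) := by rw [this, add_zero]
      _ = x := by abel
  unfold R
  have h1 : ind S x * ind S (-x - x) ≤ ∑ b, ind S b * ind S (-x - b) :=
    Finset.single_le_sum (f := fun b => ind S b * ind S (-x - b)) (fun b _ => by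
      unfold ind; split_ifs <;> simp) (Finset.mem_univ x)
  rw [hneg] at h1
  simpa [ind, hx] using h1

theorem exists_erase (h3 : ∀ x : G, x + x + x = 0) (C : Finset G) (hC : C.Nonempty) :
    ∃ x ∈ C, (C.card : ℤ) * t (C.erase x) ≤ ((C.card : ℤ) - 3) * t C := by
  by_contra hcon
  push Not at hcon
  have h1 : ∑ x ∈ C, ((C.card : ℤ) - 3) * t C < ∑ x ∈ C, (C.card : ℤ) * t (C.erase x) :=
    Finset.sum_lt_sum_of_nonempty hC hcon
  have h2 : ∑ x ∈ C, (C.card : ℤ) * t (C.erase x) = C.card * ((C.card - 3) * t C) := by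
    rw [← Finset.mul_sum]
    congr 1
    have h3' : ∀ x ∈ C, t (C.erase x) = T C - 3 * R C x + 2 - (C.card - 1) := by
      intro x hx
      unfold t
      rw [T_erase h3 C hx, Finset.card_erase_of_mem hx, Nat.cast_sub (Finset.card_pos.2 hC)]
      simp
    rw [Finset.sum_congr rfl h3']
    simp only [Finset.sum_sub_distrib, Finset.sum_add_distrib, ← Finset.mul_sum, sum_R,
      Finset.sum_const, nsmul_eq_mul]
    unfold t
    ring
  rw [h2, Finset.sum_const, nsmul_eq_mul] at h1
  exact lt_irrefl _ h1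

theorem exists_subset (h3 : ∀ x : G, x + x + x = 0) (d : ℕ) : ∀ (C : Finset G) (g : ℕ), C.card = g + d →
    ∃ C' ⊆ C, C'.card = g ∧ t C' * (C.card : ℤ) ^ 3 ≤ t C * (g : ℤ) ^ 3 := by
  induction d with
  | zero =>
    intro C g h
    refine ⟨C, Subset.refl _, by omega, ?_⟩
    rw [h]; simp
  | succ d ih =>
    intro C g h
    have hC : C.Nonempty := by rw [← Finset.card_pos]; omega
    obtain ⟨x, hx, h1⟩ := exists_erase h3 C hC
    have hc : (C.erase x).card = g + d := by rw [Finset.card_erase_of_mem hx]; omega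
    obtain ⟨C', hC', hC'c, h2⟩ := ih (C.erase x) g hc
    refine ⟨C', hC'.trans (Finset.erase_subset _ _), hC'c, ?_⟩
    rw [hc] at h2
    rw [h] at h1 ⊢
    have hn1 := t_nonneg h3 (C.erase x)
    have hn2 := t_nonneg h3 C
    have hn3 := t_nonneg h3 C'
    rcases Nat.eq_zero_or_pos (g + d) with h0 | hpos
    · have hg : g = 0 := by omega
      have hd : d = 0 := by omega
      subst hg hd
      have : C' = ∅ := Finset.card_eq_zero.1 hC'c
      subst this
      have : t (∅ : Finset G) = 0 := by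
        unfold t
        rw [← sum_R]; simp
      rw [this]
      simp
    · set u : ℤ := ((g + d : ℕ) : ℤ) with hu
      have hu1 : 1 ≤ u := by rw [hu]; exact_mod_cast hpos
      have hu2 : ((g + (d + 1) : ℕ) : ℤ) = u + 1 := by rw [hu]; push_cast; ring
      rw [hu2] at h1 ⊢
      have hg0 : (0 : ℤ) ≤ (g : ℤ) ^ 3 := by positivity
      have k1 : (u + 1) ^ 3 * t (C.erase x) ≤ u ^ 3 * t C := by
        have : (u + 1) ^ 2 * ((u + 1) * t (C.erase x)) ≤ (u + 1) ^ 2 * ((u + 1 - 3) * t C) :=
          mul_le_mul_of_nonneg_left h1 (by positivity)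
        nlinarith
      have k2 : (u + 1) ^ 3 * (t C' * u ^ 3) ≤ (u + 1) ^ 3 * (t (C.erase x) * (g : ℤ) ^ 3) :=
        mul_le_mul_of_nonneg_left h2 (by positivity)
      have k3 : (u + 1) ^ 3 * t (C.erase x) * (g : ℤ) ^ 3 ≤ u ^ 3 * t C * (g : ℤ) ^ 3 :=
        mul_le_mul_of_nonneg_right k1 hg0
      have k4 : u ^ 3 * (t C' * (u + 1) ^ 3) ≤ u ^ 3 * (t C * (g : ℤ) ^ 3) := by linarith
      exact le_of_mul_le_mul_left k4 (by positivity)

/-! ### the least popular difference -/

/-- number of representations of `v` as a difference -/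
def rep (S : Finset G) (v : G) : ℤ := ∑ a, ind S a * ind S (a + v)

theorem ind_nonneg (S : Finset G) (x : G) : 0 ≤ ind S x := by
  unfold ind; split_ifs <;> simp

theorem ind_le_one (S : Finset G) (x : G) : ind S x ≤ 1 := by
  unfold ind; split_ifs <;> simp

theorem rep_le (S : Finset G) (v : G) : rep S v ≤ S.card := by
  rw [← sum_ind]
  unfold rep
  refine Finset.sum_le_sum fun a _ => ?_
  have h1 := ind_nonneg S a
  have h2 := ind_le_one S (a + v)
  nlinarith

theorem rep_zero (S : Finset G) : rep S 0 = S.card := by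
  rw [← sum_ind]
  unfold rep
  refine Finset.sum_congr rfl fun a _ => ?_
  rw [add_zero]
  unfold ind; split_ifs <;> simp

theorem sum_rep (S : Finset G) : ∑ v, rep S v = (S.card : ℤ) ^ 2 := by
  unfold rep
  rw [Finset.sum_comm]
  have : ∀ a, ∑ v, ind S a * ind S (a + v) = ind S a * S.card := by
    intro a
    rw [← Finset.mul_sum]
    congr 1
    rw [← sum_ind]
    exact Equiv.sum_comp (Equiv.addLeft a) (ind S)
  simp_rw [this]
  rw [← Finset.sum_mul, sum_ind]
  ring

theorem energy (S : Finset G) : ∑ x, R S x ^ 2 = ∑ v, rep S v ^ 2 := by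
  have h1 : ∀ x, R S x ^ 2 = ∑ b, ∑ v, ind S b * ind S (-x - b) * (ind S (b + v) * ind S (-x - (b + v))) := by
    intro x
    unfold R
    rw [sq, Finset.sum_mul_sum]
    refine Finset.sum_congr rfl fun b _ => ?_
    rw [← Equiv.sum_comp (Equiv.addLeft b)]
    rfl
  have h2 : ∀ v, rep S v ^ 2 = ∑ b, ∑ c, ind S b * ind S (b + v) * (ind S c * ind S (c + v)) := by
    intro v
    unfold rep
    rw [sq, Finset.sum_mul_sum]
  simp_rw [h1, h2]
  rw [Finset.sum_comm]
  conv_rhs => rw [Finset.sum_comm]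
  refine Finset.sum_congr rfl fun b _ => ?_
  rw [Finset.sum_comm]
  refine Finset.sum_congr rfl fun v _ => ?_
  rw [← Equiv.sum_comp (flip (b + v))]
  refine Finset.sum_congr rfl fun c _ => ?_
  simp only [flip, Equiv.coe_fn_mk]
  rw [show -(-c - (b + v)) - b = c + v by abel, show -(-c - (b + v)) - (b + v) = c by abel]
  ring

theorem R_nonneg (S : Finset G) (x : G) : 0 ≤ R S x := by
  unfold R
  exact Finset.sum_nonneg fun b _ => mul_nonneg (ind_nonneg _ _) (ind_nonneg _ _)

/-- Few zero-sum triples if all differences are popular. -/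
theorem claimA (S : Finset G) (hS : S.Nonempty) (ρ : ℤ) (hρ : ∀ v : G, v ≠ 0 → ρ ≤ rep S v) :
    2 * T S ≤ 2 * (S.card : ℤ) ^ 2 - ρ * (Fintype.card G - S.card) := by
  set m : ℤ := (S.card : ℤ) with hm
  have hm0 : 0 < m := by rw [hm]; exact_mod_cast Finset.card_pos.2 hS
  have h1 : ∑ x ∈ S, 2 * m * R S x ≤ ∑ x ∈ S, (R S x ^ 2 + m ^ 2) :=
    Finset.sum_le_sum fun x _ => by nlinarith [sq_nonneg (R S x - m)]
  rw [← Finset.mul_sum, sum_R, Finset.sum_add_distrib, Finset.sum_const, nsmul_eq_mul, ← hm] at h1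
  have h2 : ∑ x ∈ S, R S x ^ 2 ≤ ∑ x, R S x ^ 2 :=
    Finset.sum_le_sum_of_subset_of_nonneg (Finset.subset_univ _) fun x _ _ => sq_nonneg _
  rw [energy] at h2
  have h3 : 0 ≤ ∑ v, (rep S v - ρ) * (m - rep S v) := by
    refine Finset.sum_nonneg fun v _ => ?_
    by_cases hv : v = 0
    · subst hv
      rw [rep_zero, ← hm]; simp
    · exact mul_nonneg (sub_nonneg.2 (hρ v hv)) (sub_nonneg.2 (rep_le S v))
  have h4 : ∑ v, (rep S v - ρ) * (m - rep S v) =
      (m + ρ) * ∑ v, rep S v - ∑ v, rep S v ^ 2 - ρ * m * Fintype.card G := by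
    rw [Finset.mul_sum, ← Finset.sum_sub_distrib]
    have : ρ * m * (Fintype.card G : ℤ) = ∑ _v : G, ρ * m := by
      rw [Finset.sum_const, Finset.card_univ, nsmul_eq_mul]; ring
    rw [this, ← Finset.sum_sub_distrib]
    refine Finset.sum_congr rfl fun v _ => ?_
    ring
  rw [h4, sum_rep, ← hm] at h3
  have h5 : m * (2 * T S) ≤ m * (2 * m ^ 2 - ρ * (Fintype.card G - m)) := by nlinarith
  exact le_of_mul_le_mul_left h5 hm0

end general

end Pool.Agent.H61.F3
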