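import Pool.Agent.H61.F3a

/-!
# Projection along the least popular difference, and the reduction of the dimension by one
-/

set_option autoImplicit false
set_option linter.unusedSectionVars false

namespace Pool.Agent.H61.F3

open Finset

/-! ### subsets of `ℤ/3` -/

def kk (A : Finset (ZMod 3)) : ℤ := ((A.card - 1 : ℕ) : ℤ)

def nz (A : Finset (ZMod 3)) : ℤ := if A = ∅ then 0 else 1

theorem fib_ineq : ∀ A B C : Finset (ZMod 3), Lam (ind A) (ind B) (ind C) ≤
    nz A * nz B * nz C + kk A * kk B + kk A * kk C + kk B * kk C := by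
  decide +kernel

theorem fib_diag : ∀ A : Finset (ZMod 3), Lam (ind A) (ind A) (ind A) = nz A * nz A * nz A + 3 * (kk A * kk A) - 2 * kk A := by
  decide +kernel

theorem fib_rep : ∀ A : Finset (ZMod 3), kk A ≤ ∑ s, ind A s * ind A (s + 1) := by
  decide +kernel

theorem fib_card : ∀ A : Finset (ZMod 3), (A.card : ℤ) = nz A + kk A := by
  decide +kernel

variable {U : Type*} [AddCommGroup U] [Fintype U] [DecidableEq U]

def fib (S : Finset (U × ZMod 3)) (x : U) : Finset (ZMod 3) := univ.filter (fun s => (x, s) ∈ S)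

theorem ind_fib (S : Finset (U × ZMod 3)) (x : U) (s : ZMod 3) : ind S (x, s) = ind (fib S x) s := by
  unfold ind fib
  simp

def img (S : Finset (U × ZMod 3)) : Finset U := univ.filter (fun x => fib S x ≠ ∅)

theorem ind_img (S : Finset (U × ZMod 3)) (x : U) : ind (img S) x = nz (fib S x) := by
  unfold ind img nz
  by_cases h : fib S x = ∅ <;> simp [h]

def kap (S : Finset (U × ZMod 3)) : ℤ := ∑ x, kk (fib S x)

theorem card_eq (S : Finset (U × ZMod 3)) : (S.card : ℤ) = (img S).card + kap S := by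
  rw [← sum_ind, ← sum_ind, Fintype.sum_prod_type]
  unfold kap
  rw [← Finset.sum_add_distrib]
  refine Finset.sum_congr rfl fun x _ => ?_
  simp_rw [ind_fib]
  rw [sum_ind, fib_card, ind_img]

theorem T_fib (S : Finset (U × ZMod 3)) :
    T S = ∑ x, ∑ y, Lam (ind (fib S x)) (ind (fib S y)) (ind (fib S (-x - y))) := by
  unfold T Lam
  rw [Fintype.sum_prod_type]
  refine Finset.sum_congr rfl fun x _ => ?_
  have : ∀ s : ZMod 3, ∑ b : U × ZMod 3, ind S (x, s) * ind S b * ind S (-(x, s) - b) =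
      ∑ y, ∑ u, ind (fib S x) s * ind (fib S y) u * ind (fib S (-x - y)) (-s - u) := by
    intro s
    rw [Fintype.sum_prod_type]
    refine Finset.sum_congr rfl fun y _ => Finset.sum_congr rfl fun u _ => ?_
    rw [ind_fib, ind_fib]
    have : -(x, s) - (y, u) = (-x - y, -s - u) := rfl
    rw [this, ind_fib]
  simp_rw [this]
  rw [Finset.sum_comm]

theorem T_le (h3 : ∀ x : U, x + x + x = 0) (S : Finset (U × ZMod 3)) :
    T S ≤ T (img S) + 3 * kap S ^ 2 - 2 * kap S := by
  have hneg : ∀ x : U, -x - x = x := by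
    intro x
    have := h3 x
    calc -x - x = -x - x + (x + x + x) := by rw [this, add_zero]
      _ = x := by abel
  have key : ∀ x y : U, Lam (ind (fib S x)) (ind (fib S y)) (ind (fib S (-x - y))) ≤
      nz (fib S x) * nz (fib S y) * nz (fib S (-x - y)) + kk (fib S x) * kk (fib S y) +
      kk (fib S x) * kk (fib S (-x - y)) + kk (fib S y) * kk (fib S (-x - y)) -
      (if x = y then 2 * kk (fib S x) else 0) := by
    intro x y
    by_cases hxy : x = y
    · subst hxy
      rw [hneg, fib_diag, if_pos rfl]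
      linarith
    · rw [if_neg hxy, sub_zero]
      exact fib_ineq _ _ _
  have e0 : ∑ x, ∑ y, nz (fib S x) * nz (fib S y) * nz (fib S (-x - y)) = T (img S) := by
    unfold T Lam
    simp_rw [ind_img]
  have e1 : ∑ x : U, ∑ y : U, kk (fib S x) * kk (fib S y) = kap S ^ 2 := by
    unfold kap
    rw [sq, Finset.sum_mul_sum]
  have e2 : ∑ x : U, ∑ y : U, kk (fib S x) * kk (fib S (-x - y)) = kap S ^ 2 := by
    rw [← e1]
    refine Finset.sum_congr rfl fun x _ => ?_
    rw [← Equiv.sum_comp (flip x) (fun y => kk (fib S x) * kk (fib S y))]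
    refine Finset.sum_congr rfl fun y _ => ?_
    simp only [flip, Equiv.coe_fn_mk]
    rw [show -x - y = -y - x by abel]
  have e3 : ∑ x : U, ∑ y : U, kk (fib S y) * kk (fib S (-x - y)) = kap S ^ 2 := by
    rw [Finset.sum_comm, ← e2]
    refine Finset.sum_congr rfl fun x _ => Finset.sum_congr rfl fun y _ => ?_
    rw [show -x - y = -y - x by abel]
  have e4 : ∑ x : U, ∑ y : U, (if x = y then 2 * kk (fib S x) else 0) = 2 * kap S := by
    unfold kap
    simp [Finset.mul_sum]
  rw [T_fib]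
  calc ∑ x, ∑ y, Lam (ind (fib S x)) (ind (fib S y)) (ind (fib S (-x - y)))
      ≤ ∑ x : U, ∑ y : U, (nz (fib S x) * nz (fib S y) * nz (fib S (-x - y)) + kk (fib S x) * kk (fib S y) +
      kk (fib S x) * kk (fib S (-x - y)) + kk (fib S y) * kk (fib S (-x - y)) -
      (if x = y then 2 * kk (fib S x) else 0)) :=
        Finset.sum_le_sum fun x _ => Finset.sum_le_sum fun y _ => key x y
    _ = T (img S) + kap S ^ 2 + kap S ^ 2 + kap S ^ 2 - 2 * kap S := by
        simp only [Finset.sum_sub_distrib, Finset.sum_add_distrib, e0, e1, e2, e3, e4]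
    _ = T (img S) + 3 * kap S ^ 2 - 2 * kap S := by ring

theorem kap_le_rep (S : Finset (U × ZMod 3)) : kap S ≤ rep S (0, 1) := by
  unfold kap rep
  rw [Fintype.sum_prod_type]
  refine Finset.sum_le_sum fun x _ => ?_
  refine (fib_rep (fib S x)).trans (le_of_eq ?_)
  refine Finset.sum_congr rfl fun s _ => ?_
  have : ((x, s) : U × ZMod 3) + (0, 1) = (x, s + 1) := by
    ext <;> simp
  rw [this, ind_fib, ind_fib]

theorem kap_nonneg (S : Finset (U × ZMod 3)) : 0 ≤ kap S :=
  Finset.sum_nonneg fun x _ => by unfold kk; positivity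

/-- The arithmetic at the end. -/
theorem final_ineq (N m i h g κ c c' τ : ℤ) (hm : i + κ = m) (hN : i + h = N) (hg : g + κ = h)
    (hκ : 0 ≤ κ) (hi : 0 ≤ i) (hg0 : 0 ≤ g) (hc : 0 ≤ c)
    (hzero : h = 0 → c' ≤ c)
    (h1 : τ ≤ N ^ 2 - 3 * N * h + 3 * h ^ 2 - (c + h) + 3 * κ ^ 2 - 2 * κ)
    (h2 : τ ≤ m ^ 2 - κ * N) (h3 : c' * h ^ 3 ≤ c * g ^ 3) :
    τ ≤ N ^ 2 - 3 * N * g + 3 * g ^ 2 - (c' + g) := by
  have hh0 : 0 ≤ h := by linarith
  -- rewrite everything by i, h, κ
  subst hm hN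
  have hgh : g = h - κ := by linarith
  have hκh : κ ≤ h := by linarith
  have hcc : c' ≤ c := by
    rcases eq_or_lt_of_le hh0 with h0 | hpos
    · exact hzero h0.symm
    · have hgle : g ^ 3 ≤ h ^ 3 := pow_le_pow_left₀ hg0 (by linarith) 3
      have : c' * h ^ 3 ≤ c * h ^ 3 := h3.trans (mul_le_mul_of_nonneg_left hgle hc)
      exact le_of_mul_le_mul_right this (by positivity)
  set w : ℤ := h - 1 - i with hw
  -- the goal is `τ ≤ A - 3 κ w - c'`
  have goal_eq : (i + h) ^ 2 - 3 * (i + h) * g + 3 * g ^ 2 - (c' + g) =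
      (i ^ 2 - i * h + h ^ 2 - h + 3 * κ ^ 2 - 2 * κ) - 3 * κ * w - c' := by
    rw [hgh, hw]; ring
  have h1' : τ ≤ (i ^ 2 - i * h + h ^ 2 - h + 3 * κ ^ 2 - 2 * κ) - c := by
    have : (i + h) ^ 2 - 3 * (i + h) * h + 3 * h ^ 2 - (c + h) + 3 * κ ^ 2 - 2 * κ =
      (i ^ 2 - i * h + h ^ 2 - h + 3 * κ ^ 2 - 2 * κ) - c := by ring
    linarith
  rw [goal_eq]
  rcases le_or_gt w 0 with hw0 | hw0
  · have : κ * w ≤ 0 := mul_nonpos_of_nonneg_of_nonpos hκ hw0
    linarith
  · set X : ℤ := (i ^ 2 - i * h + h ^ 2 - h + 3 * κ ^ 2 - 2 * κ) - τ with hX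
    have hcX : c ≤ X := by linarith
    have hXlow : (h + κ) * w + κ * (2 * κ - 1) ≤ X := by
      have : (i ^ 2 - i * h + h ^ 2 - h + 3 * κ ^ 2 - 2 * κ) - ((i + κ) ^ 2 - κ * (i + h)) =
          (h + κ) * w + κ * (2 * κ - 1) := by rw [hw]; ring
      linarith
    suffices hs : c' ≤ X - 3 * κ * w by linarith
    rcases eq_or_lt_of_le hκ with hk0 | hkpos
    · rw [← hk0]
      linarith
    · have hk1 : 1 ≤ κ := hkpos
      have hhpos : 0 < h := by linarith
      have hwh : w ≤ h := by rw [hw]; linarith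
      have hB : 0 ≤ 3 * h ^ 2 - 3 * h * κ + κ ^ 2 := by nlinarith [sq_nonneg (2 * κ - 3 * h), sq_nonneg h]
      have hdiff : h ^ 3 - g ^ 3 = κ * (3 * h ^ 2 - 3 * h * κ + κ ^ 2) := by rw [hgh]; ring
      have hdiff0 : 0 ≤ h ^ 3 - g ^ 3 := by rw [hdiff]; exact mul_nonneg hκ hB
      -- main polynomial inequality
      have q1 : w * (2 * h - κ) ≤ h * (2 * h - κ) := mul_le_mul_of_nonneg_right hwh (by linarith)
      have q2 : h * (2 * h - κ) ≤ 3 * h ^ 2 - 3 * h * κ + κ ^ 2 := by nlinarith [sq_nonneg (h - κ)]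
      have q3 : κ * (w * (2 * h - κ)) ≤ κ * (3 * h ^ 2 - 3 * h * κ + κ ^ 2) :=
        mul_le_mul_of_nonneg_left (q1.trans q2) hκ
      have q4 : κ * (3 * h ^ 2 - 3 * h * κ + κ ^ 2) ≤ (2 * κ - 1) * (3 * h ^ 2 - 3 * h * κ + κ ^ 2) :=
        mul_le_mul_of_nonneg_right (by linarith) hB
      have q5 : 0 ≤ κ ^ 2 * ((2 * κ - 1) * (3 * h ^ 2 - 3 * h * κ + κ ^ 2) - κ * (w * (2 * h - κ))) :=
        mul_nonneg (sq_nonneg _) (by linarith)
      have q6 : (h ^ 3 - g ^ 3) * ((h + κ) * w + κ * (2 * κ - 1)) - 3 * κ * w * h ^ 3 =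
          κ ^ 2 * ((2 * κ - 1) * (3 * h ^ 2 - 3 * h * κ + κ ^ 2) - κ * (w * (2 * h - κ))) := by
        rw [hdiff]; ring
      have q7 : (h ^ 3 - g ^ 3) * ((h + κ) * w + κ * (2 * κ - 1)) ≤ (h ^ 3 - g ^ 3) * X :=
        mul_le_mul_of_nonneg_left hXlow hdiff0
      have q8 : c * g ^ 3 ≤ X * g ^ 3 := mul_le_mul_of_nonneg_right hcX (by positivity)
      have q9 : c' * h ^ 3 ≤ (X - 3 * κ * w) * h ^ 3 := by nlinarith
      exact le_of_mul_le_mul_right q9 (by positivity)

/-- Reduction of the dimension by one. -/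
theorem reduce (h3 : ∀ x : U, x + x + x = 0) (S : Finset (U × ZMod 3)) (hS : S.card ≤ Fintype.card U)
    (hmin : ∀ v : U × ZMod 3, v ≠ 0 → rep S (0, 1) ≤ rep S v) :
    ∃ S' : Finset U, S'.card = S.card ∧ T S ≤ T S' := by
  rcases S.eq_empty_or_nonempty with rfl | hne
  · refine ⟨∅, by simp, ?_⟩
    rw [← sum_R, ← sum_R]; simp
  · have hA := claimA S hne (rep S (0, 1)) hmin
    have hcardG : (Fintype.card (U × ZMod 3) : ℤ) = 3 * Fintype.card U := by
      rw [Fintype.card_prod, ZMod.card]; push_cast; ring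
    rw [hcardG] at hA
    set N : ℤ := (Fintype.card U : ℤ) with hN
    set m : ℤ := (S.card : ℤ) with hm
    have hmN : m ≤ N := by rw [hm, hN]; exact_mod_cast hS
    have hκ0 := kap_nonneg S
    have hκρ := kap_le_rep S
    have hm0 : 0 ≤ m := by rw [hm]; positivity
    have h2 : T S ≤ m ^ 2 - kap S * N := by
      have h21 : kap S * (2 * N) ≤ rep S (0, 1) * (3 * N - m) :=
        mul_le_mul hκρ (by linarith) (by linarith) (hκ0.trans hκρ)
      linarith
    -- the image and the holes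
    set C : Finset U := (img S)ᶜ with hC
    have hIC : img S = Cᶜ := by rw [hC, compl_compl]
    have hicard : ((img S).card : ℤ) + C.card = N := by
      have := Finset.card_add_card_compl (img S)
      rw [hN, hC]
      exact_mod_cast this
    have hmk : ((img S).card : ℤ) + kap S = m := (card_eq S).symm
    obtain ⟨k, hk⟩ : ∃ k : ℕ, (k : ℤ) = kap S := ⟨(kap S).toNat, Int.toNat_of_nonneg hκ0⟩
    obtain ⟨g, hg⟩ : ∃ g : ℕ, (g : ℤ) = N - m := ⟨(N - m).toNat, Int.toNat_of_nonneg (by linarith)⟩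
    have hCg : C.card = g + k := by
      have : (C.card : ℤ) = g + k := by rw [hg, hk]; linarith
      exact_mod_cast this
    obtain ⟨C', hC', hC'g, hav⟩ := exists_subset h3 k C g hCg
    refine ⟨C'ᶜ, ?_, ?_⟩
    · have := Finset.card_add_card_compl C'
      have h' : (C'ᶜ.card : ℤ) = S.card := by
        have h'' : (C'.card : ℤ) + C'ᶜ.card = N := by rw [hN]; exact_mod_cast this
        rw [hC'g, hg] at h''
        linarith
      exact_mod_cast h'
    · rw [T_compl C', ← hN, hC'g]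
      have hT1 := T_le h3 S
      rw [hIC, T_compl C, ← hN] at hT1
      have tC : T C = t C + C.card := by unfold t; ring
      have tC' : T C' = t C' + g := by unfold t; rw [hC'g]; ring
      rw [tC] at hT1
      rw [tC']
      refine final_ineq N m (img S).card C.card g (kap S) (t C) (t C') (T S) hmk hicard ?_ hκ0
        (Int.natCast_nonneg _) (Int.natCast_nonneg _) (t_nonneg h3 C) ?_ hT1 h2 hav
      · rw [hCg, ← hk]; push_cast; ring
      · intro h0
        have hC0 : C = ∅ := Finset.card_eq_zero.1 (Int.ofNat_eq_zero.1 h0)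
        have : C' = C := by
          rw [hC0] at hC' ⊢
          exact Finset.subset_empty.1 hC'
        rw [this]

end Pool.Agent.H61.F3
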