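import Mathlib

/-!
# Finite Ramsey theorem for `n`-subsets and finitely many colours
-/

set_option autoImplicit false

namespace Pool.Agent.H61

open Finset

universe u

theorem exists_subset_card_eq' {s : Finset ℕ} {n : ℕ} (h : n ≤ s.card) : ∃ t ⊆ s, t.card = n :=
  Finset.exists_subset_card_eq h

/-- Finite Ramsey theorem, `Finset` version. -/
theorem ramsey_finset (C : Type u) [Finite C] (n : ℕ) : ∀ M : ℕ, ∃ N : ℕ, ∀ X : Finset ℕ, N ≤ X.card →
    ∀ f : Finset ℕ → C, ∃ Y ⊆ X, Y.card = M ∧ ∃ col : C, ∀ Z ⊆ Y, Z.card = n → f Z = col := by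
  induction n with
  | zero =>
    intro M
    refine ⟨M, fun X hX f => ?_⟩
    obtain ⟨Y, hY, hc⟩ := exists_subset_card_eq' hX
    refine ⟨Y, hY, hc, f ∅, fun Z _ hZ => ?_⟩
    rw [Finset.card_eq_zero.1 hZ]
  | succ n ih =>
    -- sets on which the colour depends only on the minimum
    have key : ∀ L : ℕ, ∃ N : ℕ, ∀ X : Finset ℕ, N ≤ X.card → ∀ f : Finset ℕ → C,
        ∃ Y ⊆ X, Y.card = L ∧ ∃ g : ℕ → C, ∀ Z ⊆ Y, Z.card = n + 1 → ∀ x ∈ Z, (∀ y ∈ Z, x ≤ y) →
          f Z = g x := by
      intro L
      induction L with
      | zero =>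
        refine ⟨0, fun X _ f => ⟨∅, Finset.empty_subset _, rfl, fun _ => f ∅, ?_⟩⟩
        intro Z hZ _ x hx _
        exact absurd (hZ hx) (Finset.notMem_empty x)
      | succ L ihL =>
        obtain ⟨N', hN'⟩ := ihL
        obtain ⟨N1, hN1⟩ := ih N'
        refine ⟨N1 + 1, fun X hX f => ?_⟩
        have hne : X.Nonempty := by
          rw [← Finset.card_pos]; omega
        set x0 := X.min' hne with hx0
        have hx0X : x0 ∈ X := Finset.min'_mem X hne
        have hcard : N1 ≤ (X.erase x0).card := by
          rw [Finset.card_erase_of_mem hx0X]; omega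
        obtain ⟨Y1, hY1, hY1c, c0, hc0⟩ := hN1 (X.erase x0) hcard (fun W => f (insert x0 W))
        obtain ⟨Y2, hY2, hY2c, g, hg⟩ := hN' Y1 hY1c.ge f
        have hlt : ∀ y ∈ Y1, x0 < y := by
          intro y hy
          have h1 := hY1 hy
          rw [Finset.mem_erase] at h1
          exact lt_of_le_of_ne (Finset.min'_le X y h1.2) (Ne.symm h1.1)
        have hx0Y2 : x0 ∉ Y2 := fun h => lt_irrefl _ (hlt _ (hY2 h))
        refine ⟨insert x0 Y2, ?_, ?_, Function.update g x0 c0, ?_⟩
        · intro y hy
          rcases Finset.mem_insert.1 hy with rfl | hy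
          · exact hx0X
          · exact Finset.mem_of_mem_erase (hY1 (hY2 hy))
        · rw [Finset.card_insert_of_notMem hx0Y2, hY2c]
        · intro Z hZ hZc x hx hmin
          by_cases hxx : x = x0
          · subst hxx
            rw [Function.update_self]
            have h1 : Z.erase x0 ⊆ Y1 := by
              intro y hy
              rw [Finset.mem_erase] at hy
              rcases Finset.mem_insert.1 (hZ hy.2) with h | h
              · exact absurd h hy.1
              · exact hY2 h
            have h2 := hc0 (Z.erase x0) h1 (by rw [Finset.card_erase_of_mem hx, hZc]; rfl)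
            rwa [Finset.insert_erase hx] at h2
          · rw [Function.update_of_ne hxx]
            have hx2 : x ∈ Y2 := by
              rcases Finset.mem_insert.1 (hZ hx) with h | h
              · exact absurd h hxx
              · exact h
            have hx0Z : x0 ∉ Z := by
              intro h
              have := hmin x0 h
              have := hlt x (hY2 hx2)
              omega
            refine hg Z ?_ hZc x hx hmin
            intro y hy
            rcases Finset.mem_insert.1 (hZ hy) with h | h
            · rw [h] at hy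
              exact absurd hy hx0Z
            · exact h
    intro M
    classical
    have := Fintype.ofFinite C
    obtain ⟨N, hN⟩ := key (Fintype.card C * M + 1)
    refine ⟨N, fun X hX f => ?_⟩
    obtain ⟨Y, hY, hYc, g, hg⟩ := hN X hX f
    have hpig : ∃ col ∈ (Finset.univ : Finset C), M < (Y.filter (fun x => g x = col)).card ∨
        M ≤ (Y.filter (fun x => g x = col)).card := by
      by_contra hcon
      push Not at hcon
      have h1 : Y.card = ∑ col : C, (Y.filter (fun x => g x = col)).card :=
        Finset.card_eq_sum_card_fiberwise (fun x _ => Finset.mem_coe.2 (Finset.mem_univ (g x)))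
      have h2 : ∑ col : C, (Y.filter (fun x => g x = col)).card ≤ ∑ _col : C, M :=
        Finset.sum_le_sum (fun col _ => (hcon col (Finset.mem_univ _)).1)
      rw [Finset.sum_const, Finset.card_univ, smul_eq_mul] at h2
      omega
    obtain ⟨col, _, hcol⟩ := hpig
    have hcol' : M ≤ (Y.filter (fun x => g x = col)).card := by
      rcases hcol with h | h
      · exact h.le
      · exact h
    obtain ⟨Y', hY', hY'c⟩ := exists_subset_card_eq' hcol'
    refine ⟨Y', fun y hy => hY (Finset.mem_of_mem_filter _ (hY' hy)), hY'c, col, ?_⟩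
    intro Z hZ hZc
    have hne : Z.Nonempty := by
      rw [← Finset.card_pos]; omega
    have h1 := hg Z (fun y hy => Finset.mem_of_mem_filter _ (hY' (hZ hy))) hZc (Z.min' hne)
      (Finset.min'_mem _ _) (fun y hy => Finset.min'_le _ _ hy)
    rw [h1]
    exact (Finset.mem_filter.1 (hY' (hZ (Finset.min'_mem Z hne)))).2

/-- Finite Ramsey theorem for increasing `n`-tuples. -/
theorem ramsey_tuple (C : Type u) [Finite C] (n M : ℕ) : ∃ N : ℕ, ∀ f : (Fin n → ℕ) → C,
    ∃ y : ℕ → ℕ, (∀ i j, i < j → j < M → y i < y j) ∧ (∀ i < M, y i < N) ∧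
      ∃ col : C, ∀ E : ℕ → ℕ, (∀ i j, i < j → j < n → E i < E j) → (∀ i < n, E i < M) →
        f (fun k : Fin n => y (E k)) = col := by
  classical
  obtain ⟨N, hN⟩ := ramsey_finset C n M
  refine ⟨N, fun f => ?_⟩
  obtain ⟨Y, hY, hYc, col, hcol⟩ := hN (Finset.range N) (by simp)
    (fun Z => if h : Z.card = n then f (fun k => Z.orderEmbOfFin h k) else f (fun _ => 0))
  let y : ℕ → ℕ := fun i => if h : i < M then Y.orderEmbOfFin hYc ⟨i, h⟩ else 0
  have hy : ∀ i (h : i < M), y i = Y.orderEmbOfFin hYc ⟨i, h⟩ := fun i h => dif_pos h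
  have hmono : ∀ i j, i < j → j < M → y i < y j := by
    intro i j hij hj
    rw [hy i (hij.trans hj), hy j hj]
    exact (Y.orderEmbOfFin hYc).strictMono (by simpa using hij)
  refine ⟨y, hmono, ?_, col, ?_⟩
  · intro i hi
    rw [hy i hi]
    exact Finset.mem_range.1 (hY (Finset.orderEmbOfFin_mem Y hYc _))
  · intro E hE hEM
    set s : Fin n → ℕ := fun k => y (E k) with hs
    have hsm : StrictMono s := by
      intro a b hab
      exact hmono _ _ (hE _ _ hab b.2) (hEM _ b.2)
    have hcard : (Finset.univ.image s).card = n := by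
      rw [Finset.card_image_of_injective _ hsm.injective, Finset.card_univ, Fintype.card_fin]
    have hsub : Finset.univ.image s ⊆ Y := by
      intro z hz
      obtain ⟨k, _, rfl⟩ := Finset.mem_image.1 hz
      rw [hs]
      simp only
      rw [hy _ (hEM _ k.2)]
      exact Finset.orderEmbOfFin_mem Y hYc _
    have h1 := hcol _ hsub hcard
    rw [dif_pos hcard] at h1
    have h2 : s = (Finset.univ.image s).orderEmbOfFin hcard :=
      Finset.orderEmbOfFin_unique hcard (fun x => Finset.mem_image_of_mem _ (Finset.mem_univ _)) hsm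
    rw [← h1]
    congr 1

end Pool.Agent.H61
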