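import Pool.Agent.H61.SFReal

/-!
The sharp entropy inequality, second part: reduction of the two-variable inequality to `V`.
-/

set_option autoImplicit false

open Real Set

namespace Pool.Agent.H61.SF

noncomputable def K (a : ℝ) : ℝ := exp a * negMulLog (1 - exp (-a))

noncomputable def K' (a : ℝ) : ℝ := -(exp a * log (1 - exp (-a))) - 1

noncomputable def K'' (a : ℝ) : ℝ := -(exp a * log (1 - exp (-a))) - (1 - exp (-a))⁻¹

lemma continuous_K : Continuous K := by
  unfold K
  fun_prop

lemma K_zero : K 0 = 0 := by simp [K]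

lemma exp_neg_mem {a : ℝ} (ha : 0 < a) : 0 < exp (-a) ∧ exp (-a) < 1 :=
  ⟨exp_pos _, by rw [exp_lt_one_iff]; linarith⟩

lemma hasDerivAt_g (a : ℝ) : HasDerivAt (fun t : ℝ => 1 - exp (-t)) (exp (-a)) a := by
  have h1 : HasDerivAt (fun t : ℝ => exp (-t)) (-exp (-a)) a := by
    have := (hasDerivAt_neg a).exp
    simpa using this
  simpa using h1.const_sub 1

lemma hasDerivAt_K {a : ℝ} (ha : 0 < a) : HasDerivAt K (K' a) a := by
  obtain ⟨h0, h1⟩ := exp_neg_mem ha
  have hne : 1 - exp (-a) ≠ 0 := by linarith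
  have e1 : HasDerivAt (fun t : ℝ => negMulLog (1 - exp (-t)))
      ((-log (1 - exp (-a)) - 1) * exp (-a)) a := by
    have := HasDerivAt.comp a (h₂ := negMulLog) (hasDerivAt_negMulLog hne) (hasDerivAt_g a)
    simpa [Function.comp_def] using this
  have e2 := (Real.hasDerivAt_exp a).mul e1
  refine e2.congr_deriv ?_
  unfold K' negMulLog
  have h3 : exp a * exp (-a) = 1 := by rw [← exp_add]; simp
  have h4 : exp a * ((-log (1 - exp (-a)) - 1) * exp (-a)) =
      (-log (1 - exp (-a)) - 1) * (exp a * exp (-a)) := by ring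
  rw [h4, h3]
  have h5 : exp a * (-(1 - exp (-a)) * log (1 - exp (-a))) =
      -(exp a * log (1 - exp (-a))) + (exp a * exp (-a)) * log (1 - exp (-a)) := by ring
  rw [h5, h3]
  ring

lemma hasDerivAt_K' {a : ℝ} (ha : 0 < a) : HasDerivAt K' (K'' a) a := by
  obtain ⟨h0, h1⟩ := exp_neg_mem ha
  have hne : 1 - exp (-a) ≠ 0 := by linarith
  have e1 : HasDerivAt (fun t : ℝ => log (1 - exp (-t)))
      (exp (-a) / (1 - exp (-a))) a := (hasDerivAt_g a).log hne
  have e2 := ((Real.hasDerivAt_exp a).mul e1).neg.sub_const 1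
  refine e2.congr_deriv ?_
  unfold K''
  have h3 : exp a * exp (-a) = 1 := by rw [← exp_add]; simp
  have h4 : exp a * (exp (-a) / (1 - exp (-a))) = (exp a * exp (-a)) / (1 - exp (-a)) := by ring
  rw [h4, h3, one_div]
  ring

lemma K''_nonpos {a : ℝ} (ha : 0 < a) : K'' a ≤ 0 := by
  obtain ⟨h0, h1⟩ := exp_neg_mem ha
  have hpos : 0 < 1 - exp (-a) := by linarith
  have h3 : exp a * exp (-a) = 1 := by rw [← exp_add]; simp
  have h4 : 1 - (1 - exp (-a))⁻¹ ≤ log (1 - exp (-a)) := one_sub_inv_le_log_of_pos hpos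
  have h5 : -log (1 - exp (-a)) ≤ exp (-a) * (1 - exp (-a))⁻¹ := by
    have : (1 - exp (-a))⁻¹ - 1 = exp (-a) * (1 - exp (-a))⁻¹ := by
      field_simp
      ring
    linarith
  unfold K''
  have h6 : exp a * (-log (1 - exp (-a))) ≤ exp a * (exp (-a) * (1 - exp (-a))⁻¹) :=
    mul_le_mul_of_nonneg_left h5 (exp_pos a).le
  have h7 : exp a * (exp (-a) * (1 - exp (-a))⁻¹) = (1 - exp (-a))⁻¹ := by
    rw [← mul_assoc, h3, one_mul]
  rw [h7] at h6
  linarith

lemma concaveOn_K : ConcaveOn ℝ (Ici 0) K := by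
  refine concaveOn_of_hasDerivWithinAt2_nonpos (f' := K') (f'' := K'') (convex_Ici 0)
    continuous_K.continuousOn (fun x hx => ?_) (fun x hx => ?_) ?_
  · rw [interior_Ici] at hx
    exact (hasDerivAt_K hx).hasDerivWithinAt
  · rw [interior_Ici] at hx
    exact (hasDerivAt_K' hx).hasDerivWithinAt
  · intro x hx
    rw [interior_Ici] at hx
    exact K''_nonpos hx

lemma K_add_le {a b : ℝ} (ha : 0 ≤ a) (hb : 0 ≤ b) : K a + K b ≤ 2 * K ((a + b) / 2) := by
  have := concaveOn_K.2 (mem_Ici.2 ha) (mem_Ici.2 hb) (by norm_num : (0:ℝ) ≤ 1/2)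
    (by norm_num : (0:ℝ) ≤ 1/2) (by norm_num)
  simp only [smul_eq_mul] at this
  have h2 : 1 / 2 * a + 1 / 2 * b = (a + b) / 2 := by ring
  rw [h2] at this
  linarith

noncomputable def D (a : ℝ) : ℝ := (2 - gr) * a + K (2 * a) - gr * K a

lemma hasDerivAt_D {a : ℝ} (ha : 0 < a) :
    HasDerivAt D (-(exp (2 * a) * V (exp (-a)))) a := by
  have h2 : HasDerivAt (fun t : ℝ => K (2 * t)) (K' (2 * a) * 2) a := by
    have h1 : HasDerivAt (fun t : ℝ => 2 * t) 2 a := by simpa using (hasDerivAt_id a).const_mul 2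
    have := HasDerivAt.comp a (h₂ := K) (hasDerivAt_K (by linarith : 0 < 2 * a)) h1
    simpa [Function.comp_def] using this
  have h3 : HasDerivAt (fun t : ℝ => (2 - gr) * t) (2 - gr) a := by
    simpa using (hasDerivAt_id a).const_mul (2 - gr)
  have h4 := (h3.add h2).sub ((hasDerivAt_K ha).const_mul gr)
  refine h4.congr_deriv ?_
  obtain ⟨h0, h1⟩ := exp_neg_mem ha
  have h5 : exp (-(2 * a)) = exp (-a) ^ 2 := by
    rw [← exp_nat_mul]; congr 1; push_cast; ring
  have h6 : exp (2 * a) * exp (-a) = exp a := by rw [← exp_add]; congr 1; ring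
  have h7 : log (1 - exp (-(2 * a))) = log (1 - exp (-a)) + log (1 + exp (-a)) := by
    rw [← log_mul (by linarith) (by linarith), h5]
    congr 1
    ring
  unfold K' V
  rw [h7]
  have h8 : exp (2 * a) * ((2 - gr * exp (-a)) * log (1 - exp (-a)) + 2 * log (1 + exp (-a))) =
    exp (2 * a) * 2 * (log (1 - exp (-a)) + log (1 + exp (-a)))
      - gr * (exp (2 * a) * exp (-a)) * log (1 - exp (-a)) := by ring
  rw [h8, h6]
  ring

lemma continuous_D : Continuous D := by
  unfold D
  have := continuous_K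
  fun_prop

lemma D_zero : D 0 = 0 := by simp [D, K_zero]

lemma exp_neg_log_gr : exp (-log gr) = tau := by
  have hg : (0:ℝ) < gr := by linarith [lt_gr]
  rw [exp_neg, exp_log hg]
  exact inv_eq_of_mul_eq_one_right gr_mul_tau

lemma D_log_gr : D (log gr) = 0 := by
  have hg : (0:ℝ) < gr := by linarith [lt_gr]
  have h0 : (0:ℝ) < tau := by linarith [lt_tau]
  have h1 : (1 - tau) = tau ^ 2 := by linarith [tau_sq]
  have h3 : log tau = - log gr := by
    have : log gr + log tau = 0 := by
      rw [← Real.log_mul hg.ne' h0.ne', gr_mul_tau, Real.log_one]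
    linarith
  unfold D K
  have e1 : exp (-(2 * log gr)) = tau ^ 2 := by
    rw [← exp_neg_log_gr, ← exp_nat_mul]; congr 1; push_cast; ring
  have e2 : exp (2 * log gr) = gr ^ 2 := by
    rw [← Real.exp_log hg, ← exp_nat_mul, Real.exp_log hg]; congr 1
  rw [e1, e2, exp_neg_log_gr, Real.exp_log hg, ← h1]
  have e3 : negMulLog (1 - (1 - tau)) = tau * log gr := by
    have : (1 - (1 - tau)) = tau := by ring
    rw [this, negMulLog, h3]; ring
  have e4 : negMulLog (1 - tau) = 2 * tau ^ 2 * log gr := by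
    rw [h1, negMulLog, Real.log_pow, h3]; push_cast; ring
  rw [e3, e4]
  have e5 : gr ^ 2 * (tau * log gr) = gr * log gr := by
    calc gr ^ 2 * (tau * log gr) = gr * (gr * tau) * log gr := by ring
      _ = _ := by rw [gr_mul_tau]; ring
  have e6 : gr * (gr * (2 * tau ^ 2 * log gr)) = 2 * log gr := by
    calc gr * (gr * (2 * tau ^ 2 * log gr)) = 2 * (gr * tau) * (gr * tau) * log gr := by ring
      _ = _ := by rw [gr_mul_tau]; ring
  rw [e5, e6]
  ring

lemma D_nonneg {a : ℝ} (ha : 0 ≤ a) : 0 ≤ D a := by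
  rcases ha.eq_or_lt with rfl | ha
  · exact D_zero.ge
  have hg : (0:ℝ) < gr := by linarith [lt_gr]
  have hlg : 0 < log gr := by linarith [log_gr_gt]
  by_cases h : log gr ≤ a
  · have hmono : MonotoneOn D (Icc (log gr) a) := by
      apply monotoneOn_of_deriv_nonneg (convex_Icc _ _) continuous_D.continuousOn
      · intro t ht
        rw [interior_Icc] at ht
        exact (hasDerivAt_D (by linarith [ht.1])).differentiableAt.differentiableWithinAt
      · intro t ht
        rw [interior_Icc] at ht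
        rw [(hasDerivAt_D (by linarith [ht.1])).deriv]
        have : V (exp (-t)) ≤ 0 := by
          apply V_nonpos (exp_pos _).le
          rw [← exp_neg_log_gr]
          exact exp_le_exp.2 (by linarith [ht.1])
        nlinarith [exp_pos (2 * t)]
    have := hmono ⟨le_rfl, h⟩ ⟨h, le_rfl⟩ h
    rwa [D_log_gr] at this
  push Not at h
  have hx : tau ≤ exp (-a) := by
    rw [← exp_neg_log_gr]
    exact exp_le_exp.2 (by linarith)
  by_cases hV : 0 ≤ V (exp (-a))
  · have hanti : AntitoneOn D (Icc a (log gr)) := by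
      apply antitoneOn_of_deriv_nonpos (convex_Icc _ _) continuous_D.continuousOn
      · intro t ht
        rw [interior_Icc] at ht
        exact (hasDerivAt_D (by linarith [ht.1])).differentiableAt.differentiableWithinAt
      · intro t ht
        rw [interior_Icc] at ht
        rw [(hasDerivAt_D (by linarith [ht.1])).deriv]
        have : 0 ≤ V (exp (-t)) := by
          apply V_nonneg_of (x := exp (-a))
          · rw [← exp_neg_log_gr]
            exact exp_le_exp.2 (by linarith [ht.2])
          · exact exp_le_exp.2 (by linarith [ht.1])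
          · exact (exp_neg_mem ha).2
          · exact hV
        nlinarith [exp_pos (2 * t)]
    have := hanti ⟨le_rfl, h.le⟩ ⟨h.le, le_rfl⟩ h.le
    rwa [D_log_gr] at this
  · push Not at hV
    have hmono : MonotoneOn D (Icc 0 a) := by
      apply monotoneOn_of_deriv_nonneg (convex_Icc _ _) continuous_D.continuousOn
      · intro t ht
        rw [interior_Icc] at ht
        exact (hasDerivAt_D (by linarith [ht.1])).differentiableAt.differentiableWithinAt
      · intro t ht
        rw [interior_Icc] at ht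
        rw [(hasDerivAt_D (by linarith [ht.1])).deriv]
        have : V (exp (-t)) ≤ 0 := by
          by_contra hcon
          push Not at hcon
          have := V_nonneg_of (x := exp (-t)) (y := exp (-a)) hx
            (exp_le_exp.2 (by linarith [ht.2])) (exp_neg_mem ht.1).2 hcon.le
          linarith
        nlinarith [exp_pos (2 * t)]
    have := hmono ⟨le_rfl, ha.le⟩ ⟨ha.le, le_rfl⟩ ha.le
    rwa [D_zero] at this

lemma binEntropy_eq {x : ℝ} (h0 : 0 < x) :
    binEntropy x = x * (-log x + K (-log x)) := by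
  rw [binEntropy_eq_negMulLog_add_negMulLog_one_sub, K, neg_neg, exp_log h0, exp_neg, exp_log h0,
    negMulLog]
  have : x * (-log x + x⁻¹ * negMulLog (1 - x)) = -x * log x + (x * x⁻¹) * negMulLog (1 - x) := by
    ring
  rw [this, mul_inv_cancel₀ h0.ne', one_mul]

/-- The sharp inequality `h(xy) >= (phi/2) (x h(y) + y h(x))`. -/
theorem entropy_mul {x y : ℝ} (hx0 : 0 ≤ x) (hx1 : x ≤ 1) (hy0 : 0 ≤ y) (hy1 : y ≤ 1) :
    gr / 2 * (x * binEntropy y + y * binEntropy x) ≤ binEntropy (x * y) := by
  rcases hx0.eq_or_lt with rfl | hx0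
  · simp
  rcases hy0.eq_or_lt with rfl | hy0
  · simp
  have ha : 0 ≤ -log x := by linarith [log_nonpos hx0.le hx1]
  have hb : 0 ≤ -log y := by linarith [log_nonpos hy0.le hy1]
  rw [binEntropy_eq hx0, binEntropy_eq hy0, binEntropy_eq (mul_pos hx0 hy0),
    log_mul hx0.ne' hy0.ne']
  set a := -log x with hadef
  set b := -log y with hbdef
  have h1 : -(log x + log y) = a + b := by rw [hadef, hbdef]; ring
  rw [h1]
  have h2 := K_add_le ha hb
  have h3 := D_nonneg (a := (a + b) / 2) (by positivity)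
  unfold D at h3
  have h4 : 2 * ((a + b) / 2) = a + b := by ring
  rw [h4] at h3
  have hg : (0:ℝ) < gr := by linarith [lt_gr]
  have h5 : gr / 2 * (a + b + K a + K b) ≤ a + b + K (a + b) := by
    have : gr * (K a + K b) ≤ gr * (2 * K ((a + b) / 2)) := mul_le_mul_of_nonneg_left h2 hg.le
    linarith
  have h6 := mul_le_mul_of_nonneg_left h5 (mul_pos hx0 hy0).le
  calc gr / 2 * (x * (y * (b + K b)) + y * (x * (a + K a)))
      = x * y * (gr / 2 * (a + b + K a + K b)) := by ring
    _ ≤ _ := h6

end Pool.Agent.H61.SF
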