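import Pool.Agent.H61.SFEnt

/-!
Entropy of unions: if `I` is a subfamily of a finite union-closed family `A` and every point is
missed by at least a proportion `q` of the members of `I`, then `phi * q * log |I| <= log |A|`.
-/

set_option autoImplicit false

open Real Finset

namespace Pool.Agent.H61.SF

/-- unnormalised binary entropy -/
noncomputable def E2 (s t : ℝ) : ℝ := (s + t) * log (s + t) - s * log s - t * log t

lemma E2_eq {s t : ℝ} (hs : 0 ≤ s) (ht : 0 ≤ t) : E2 s t = (s + t) * binEntropy (s / (s + t)) := by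
  rcases hs.eq_or_lt with rfl | hs
  · simp [E2]
  rcases ht.eq_or_lt with rfl | ht
  · simp [E2, div_self hs.ne']
  have hst : 0 < s + t := by positivity
  have h1 : 1 - s / (s + t) = t / (s + t) := by field_simp; ring
  rw [binEntropy_eq_negMulLog_add_negMulLog_one_sub, h1, negMulLog, negMulLog,
    log_div hs.ne' hst.ne', log_div ht.ne' hst.ne', E2]
  field_simp
  ring

lemma E2_nonneg {s t : ℝ} (hs : 0 ≤ s) (ht : 0 ≤ t) : 0 ≤ E2 s t := by
  rw [E2_eq hs ht]
  rcases (add_nonneg hs ht).eq_or_lt with h | h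
  · rw [← h]; simp
  · apply mul_nonneg h.le
    apply binEntropy_nonneg (by positivity)
    rw [div_le_one h]
    linarith

lemma E2_superadd {s t s' t' : ℝ} (hs : 0 ≤ s) (ht : 0 ≤ t) (hs' : 0 ≤ s') (ht' : 0 ≤ t') :
    E2 s t + E2 s' t' ≤ E2 (s + s') (t + t') := by
  rcases (add_nonneg hs ht).eq_or_lt with h | h
  · have h1 : s = 0 := by linarith
    have h2 : t = 0 := by linarith
    subst h1; subst h2
    simp [E2]
  rcases (add_nonneg hs' ht').eq_or_lt with h' | h'
  · have h1 : s' = 0 := by linarith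
    have h2 : t' = 0 := by linarith
    subst h1; subst h2
    simp [E2]
  rw [E2_eq hs ht, E2_eq hs' ht', E2_eq (add_nonneg hs hs') (add_nonneg ht ht')]
  have hN : 0 < (s + t) + (s' + t') := by positivity
  have hN' : (s + s') + (t + t') = (s + t) + (s' + t') := by ring
  rw [hN']
  have hm1 : s / (s + t) ∈ Set.Icc (0:ℝ) 1 := ⟨by positivity, by rw [div_le_one h]; linarith⟩
  have hm2 : s' / (s' + t') ∈ Set.Icc (0:ℝ) 1 := ⟨by positivity, by rw [div_le_one h']; linarith⟩
  have ha1 : 0 ≤ (s + t) / ((s + t) + (s' + t')) := by positivity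
  have ha2 : 0 ≤ (s' + t') / ((s + t) + (s' + t')) := by positivity
  have ha3 : (s + t) / ((s + t) + (s' + t')) + (s' + t') / ((s + t) + (s' + t')) = 1 := by
    field_simp
  have hc := strictConcave_binEntropy.concaveOn.2 hm1 hm2 ha1 ha2 ha3
  simp only [smul_eq_mul] at hc
  have e1 : (s + t) / ((s + t) + (s' + t')) * (s / (s + t)) +
      (s' + t') / ((s + t) + (s' + t')) * (s' / (s' + t')) = (s + s') / ((s + t) + (s' + t')) := by
    field_simp
  rw [e1] at hc
  have h3 := mul_le_mul_of_nonneg_left hc hN.le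
  have e2 : ((s + t) + (s' + t')) * ((s + t) / ((s + t) + (s' + t')) * binEntropy (s / (s + t)) +
      (s' + t') / ((s + t) + (s' + t')) * binEntropy (s' / (s' + t'))) =
      (s + t) * binEntropy (s / (s + t)) + (s' + t') * binEntropy (s' / (s' + t')) := by
    field_simp
  rw [e2] at h3
  exact h3

lemma E2_key {a a' b b' : ℝ} (ha : 0 ≤ a) (ha' : 0 ≤ a') (hb : 0 ≤ b) (hb' : 0 ≤ b') :
    gr / 2 * (a * E2 b b' + b * E2 a a') ≤ E2 (a * b) (a' * b + (a * b' + a' * b')) := by
  rw [E2_eq ha ha', E2_eq hb hb', E2_eq (mul_nonneg ha hb) (by positivity)]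
  rcases (add_nonneg ha ha').eq_or_lt with h | h
  · have h1 : a = 0 := by linarith
    have h2 : a' = 0 := by linarith
    subst h1; subst h2
    simp
  rcases (add_nonneg hb hb').eq_or_lt with h' | h'
  · have h1 : b = 0 := by linarith
    have h2 : b' = 0 := by linarith
    subst h1; subst h2
    simp
  have hx := entropy_mul (x := a / (a + a')) (y := b / (b + b')) (by positivity)
    (by rw [div_le_one h]; linarith) (by positivity) (by rw [div_le_one h']; linarith)
  have e0 : a * b + (a' * b + (a * b' + a' * b')) = (a + a') * (b + b') := by ring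
  rw [e0]
  have e1 : a * b / ((a + a') * (b + b')) = a / (a + a') * (b / (b + b')) := by
    field_simp
  rw [e1]
  have h3 := mul_le_mul_of_nonneg_left hx (mul_pos h h').le
  calc gr / 2 * (a * ((b + b') * binEntropy (b / (b + b'))) +
        b * ((a + a') * binEntropy (a / (a + a'))))
      = (a + a') * (b + b') * (gr / 2 * (a / (a + a') * binEntropy (b / (b + b')) +
          b / (b + b') * binEntropy (a / (a + a')))) := by
        field_simp
    _ ≤ _ := h3

variable {α : Type*} [DecidableEq α]

/-- `t log t` -/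
noncomputable def eta (t : ℝ) : ℝ := t * log t

lemma eta_add (s t : ℝ) : eta (s + t) = E2 s t + eta s + eta t := by
  unfold E2 eta
  ring

lemma eta_zero : eta 0 = 0 := by simp [eta]
lemma eta_one : eta 1 = 0 := by simp [eta]

/-- number of pairs of `S` with union `Z` -/
def fib (S : Finset (Finset α × Finset α)) (Z : Finset α) : ℕ :=
  (S.filter (fun p => p.1 ∪ p.2 = Z)).card

/-- unnormalised entropy of the union of a random pair of `S` -/
noncomputable def Ent (A : Finset (Finset α)) (S : Finset (Finset α × Finset α)) : ℝ :=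
  eta S.card - ∑ Z ∈ A, eta (fib S Z)

lemma sum_fib {A : Finset (Finset α)} {S : Finset (Finset α × Finset α)}
    (hS : ∀ p ∈ S, p.1 ∪ p.2 ∈ A) : ∑ Z ∈ A, fib S Z = S.card :=
  (Finset.card_eq_sum_card_fiberwise (f := fun p : Finset α × Finset α => p.1 ∪ p.2)
    (fun p hp => hS p hp)).symm

lemma fib_union {S T : Finset (Finset α × Finset α)} (h : Disjoint S T) (Z : Finset α) :
    fib (S ∪ T) Z = fib S Z + fib T Z := by
  unfold fib
  rw [filter_union, card_union_of_disjoint (disjoint_filter_filter h)]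

lemma Ent_union (A : Finset (Finset α)) {S T : Finset (Finset α × Finset α)} (h : Disjoint S T) :
    Ent A (S ∪ T) = Ent A S + Ent A T + E2 S.card T.card - ∑ Z ∈ A, E2 (fib S Z) (fib T Z) := by
  unfold Ent
  rw [card_union_of_disjoint h]
  push_cast
  rw [eta_add]
  have : ∀ Z ∈ A, eta ((fib (S ∪ T) Z : ℕ) : ℝ) =
      E2 (fib S Z) (fib T Z) + eta (fib S Z) + eta (fib T Z) := by
    intro Z _
    rw [fib_union h]
    push_cast
    exact eta_add _ _
  rw [Finset.sum_congr rfl this, Finset.sum_add_distrib, Finset.sum_add_distrib]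
  ring

lemma E2_sum_le (A : Finset (Finset α)) (f g : Finset α → ℝ) (hf : ∀ Z, 0 ≤ f Z)
    (hg : ∀ Z, 0 ≤ g Z) :
    ∑ Z ∈ A, E2 (f Z) (g Z) ≤ E2 (∑ Z ∈ A, f Z) (∑ Z ∈ A, g Z) := by
  classical
  induction A using Finset.induction_on with
  | empty => simp [E2]
  | insert a s ha ih =>
    rw [Finset.sum_insert ha, Finset.sum_insert ha, Finset.sum_insert ha]
    have := E2_superadd (hf a) (hg a) (Finset.sum_nonneg (fun Z _ => hf Z) : 0 ≤ ∑ Z ∈ s, f Z)
      (Finset.sum_nonneg (fun Z _ => hg Z) : 0 ≤ ∑ Z ∈ s, g Z)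
    linarith

lemma Ent_superadd {A : Finset (Finset α)} {S T : Finset (Finset α × Finset α)}
    (h : Disjoint S T) (hS : ∀ p ∈ S, p.1 ∪ p.2 ∈ A) (hT : ∀ p ∈ T, p.1 ∪ p.2 ∈ A) :
    Ent A S + Ent A T ≤ Ent A (S ∪ T) := by
  rw [Ent_union A h]
  have := E2_sum_le A (fun Z => (fib S Z : ℝ)) (fun Z => (fib T Z : ℝ))
    (fun _ => Nat.cast_nonneg _) (fun _ => Nat.cast_nonneg _)
  rw [← Nat.cast_sum, ← Nat.cast_sum, sum_fib hS, sum_fib hT] at this
  linarith

/-- splitting along a point -/
lemma Ent_split {A : Finset (Finset α)} {S T : Finset (Finset α × Finset α)} (x : α)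
    (hS : ∀ p ∈ S, x ∉ p.1 ∪ p.2) (hT : ∀ p ∈ T, x ∈ p.1 ∪ p.2) :
    Ent A (S ∪ T) = Ent A S + Ent A T + E2 S.card T.card := by
  have hd : Disjoint S T := by
    rw [Finset.disjoint_left]
    intro p hp hp'
    exact hS p hp (hT p hp')
  rw [Ent_union A hd]
  have : ∑ Z ∈ A, E2 (fib S Z) (fib T Z) = 0 := by
    apply Finset.sum_eq_zero
    intro Z _
    by_cases hx : x ∈ Z
    · have : fib S Z = 0 := by
        unfold fib
        rw [card_eq_zero, filter_eq_empty_iff]
        rintro p hp rfl
        exact hS p hp hx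
      rw [this]
      simp [E2]
    · have : fib T Z = 0 := by
        unfold fib
        rw [card_eq_zero, filter_eq_empty_iff]
        rintro p hp rfl
        exact hx (hT p hp)
      rw [this]
      simp [E2]
  rw [this]
  ring

lemma Ent_nonneg {A : Finset (Finset α)} {S : Finset (Finset α × Finset α)}
    (hS : ∀ p ∈ S, p.1 ∪ p.2 ∈ A) : 0 ≤ Ent A S := by
  unfold Ent
  have h1 : ∀ Z ∈ A, eta (fib S Z) ≤ (fib S Z) * log S.card := by
    intro Z _
    unfold eta
    rcases Nat.eq_zero_or_pos (fib S Z) with h | h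
    · rw [h]; simp
    · apply mul_le_mul_of_nonneg_left _ (Nat.cast_nonneg _)
      apply log_le_log (by exact_mod_cast h)
      exact_mod_cast card_le_card (filter_subset _ _)
  have h2 := Finset.sum_le_sum h1
  rw [← Finset.sum_mul, ← Nat.cast_sum, sum_fib hS] at h2
  unfold eta at *
  linarith

lemma Ent_le {A : Finset (Finset α)} {S : Finset (Finset α × Finset α)}
    (hS : ∀ p ∈ S, p.1 ∪ p.2 ∈ A) : Ent A S ≤ S.card * log A.card := by
  rcases A.eq_empty_or_nonempty with rfl | hA
  · have : S = ∅ := by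
      rw [Finset.eq_empty_iff_forall_notMem]
      intro p hp
      exact absurd (hS p hp) (Finset.notMem_empty _)
    subst this
    simp [Ent, eta]
  rcases S.eq_empty_or_nonempty with rfl | hSne
  · simp [Ent, eta, fib]
  have hm : (0:ℝ) < A.card := by exact_mod_cast hA.card_pos
  have hN : (0:ℝ) < S.card := by exact_mod_cast hSne.card_pos
  have hJ := Real.convexOn_mul_log.map_sum_le (t := A) (w := fun _ => (A.card : ℝ)⁻¹)
    (p := fun Z => (fib S Z : ℝ)) (fun _ _ => by positivity)
    (by rw [Finset.sum_const, nsmul_eq_mul, mul_inv_cancel₀ hm.ne'])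
    (fun _ _ => Set.mem_Ici.2 (Nat.cast_nonneg _))
  simp only [smul_eq_mul] at hJ
  rw [← Finset.mul_sum, ← Nat.cast_sum, sum_fib hS, ← Finset.mul_sum] at hJ
  rw [log_mul (by positivity) hN.ne', log_inv] at hJ
  have h3 := mul_le_mul_of_nonneg_left hJ hm.le
  rw [← mul_assoc, ← mul_assoc, mul_inv_cancel₀ hm.ne', one_mul, ← mul_assoc,
    mul_inv_cancel₀ hm.ne', one_mul] at h3
  unfold Ent eta
  linarith

/-- the linear functional of the weights appearing in the chain rule -/
noncomputable def L : List α → (α → ℝ) → Finset (Finset α) → ℝ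
  | [], _, _ => 0
  | (x :: l), w, J => w x * E2 (J.filter (fun X => x ∉ X)).card (J.filter (fun X => x ∈ X)).card
      + L l w (J.filter (fun X => x ∉ X)) + L l w (J.filter (fun X => x ∈ X))

lemma L_add (l : List α) (w w' : α → ℝ) (J : Finset (Finset α)) :
    L l (fun x => w x + w' x) J = L l w J + L l w' J := by
  induction l generalizing J with
  | nil => simp [L]
  | cons x l ih =>
    simp only [L]
    rw [ih, ih]
    ring

lemma L_nonneg (l : List α) (w : α → ℝ) (hw : ∀ x ∈ l, 0 ≤ w x) (J : Finset (Finset α)) :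
    0 ≤ L l w J := by
  induction l generalizing J with
  | nil => simp [L]
  | cons x l ih =>
    simp only [L]
    have h1 := ih (fun y hy => hw y (List.mem_cons_of_mem _ hy)) (J.filter (fun X => x ∉ X))
    have h2 := ih (fun y hy => hw y (List.mem_cons_of_mem _ hy)) (J.filter (fun X => x ∈ X))
    have h3 : 0 ≤ w x * E2 (J.filter (fun X => x ∉ X)).card (J.filter (fun X => x ∈ X)).card :=
      mul_nonneg (hw x (List.mem_cons_self)) (E2_nonneg (Nat.cast_nonneg _) (Nat.cast_nonneg _))
    linarith

lemma L_const_mul (l : List α) (c : ℝ) (w : α → ℝ) (J : Finset (Finset α)) :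
    L l (fun x => c * w x) J = c * L l w J := by
  induction l generalizing J with
  | nil => simp [L]
  | cons x l ih =>
    simp only [L]
    rw [ih, ih]
    ring

lemma L_mono (l : List α) (w w' : α → ℝ) (hw : ∀ x ∈ l, w x ≤ w' x) (J : Finset (Finset α)) :
    L l w J ≤ L l w' J := by
  have h := L_add l w (fun x => w' x - w x) J
  have h1 : (fun x => w x + (w' x - w x)) = w' := by funext x; ring
  rw [h1] at h
  have h2 := L_nonneg l (fun x => w' x - w x) (fun x hx => by linarith [hw x hx]) J
  linarith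

/-- the members of `J` agree outside `l` -/
def Agree (l : List α) (J : Finset (Finset α)) : Prop :=
  ∀ X ∈ J, ∀ Y ∈ J, ∀ x, x ∉ l → (x ∈ X ↔ x ∈ Y)

lemma Agree.filter_notMem {x : α} {l : List α} {J : Finset (Finset α)} (h : Agree (x :: l) J) :
    Agree l (J.filter (fun X => x ∉ X)) := by
  intro X hX Y hY y hy
  rw [mem_filter] at hX hY
  by_cases hyx : y = x
  · subst hyx
    exact iff_of_false hX.2 hY.2
  · exact h X hX.1 Y hY.1 y (by simp [hyx, hy])

lemma Agree.filter_mem {x : α} {l : List α} {J : Finset (Finset α)} (h : Agree (x :: l) J) :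
    Agree l (J.filter (fun X => x ∈ X)) := by
  intro X hX Y hY y hy
  rw [mem_filter] at hX hY
  by_cases hyx : y = x
  · subst hyx
    exact iff_of_true hX.2 hY.2
  · exact h X hX.1 Y hY.1 y (by simp [hyx, hy])

lemma Agree.card_le_one {J : Finset (Finset α)} (h : Agree ([] : List α) J) : J.card ≤ 1 := by
  rw [Finset.card_le_one]
  intro X hX Y hY
  ext x
  exact h X hX Y hY x (by simp)

lemma card_filter_add (J : Finset (Finset α)) (x : α) :
    ((J.filter (fun X => x ∉ X)).card : ℝ) + (J.filter (fun X => x ∈ X)).card = J.card := by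
  rw [← Nat.cast_add]
  congr 1
  rw [add_comm]
  exact Finset.card_filter_add_card_filter_not (fun X => x ∈ X)

/-- chain rule -/
lemma L_one (l : List α) (J : Finset (Finset α)) (h : Agree l J) :
    L l (fun _ => 1) J = eta J.card := by
  induction l generalizing J with
  | nil =>
    have h1 := h.card_le_one
    interval_cases hc : J.card
    · simp [L, eta]
    · simp [L, eta]
  | cons x l ih =>
    simp only [L]
    rw [ih _ h.filter_notMem, ih _ h.filter_mem, one_mul, ← eta_add, card_filter_add]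

/-- the number of members of `I` missing `x` -/
noncomputable def miss (I : Finset (Finset α)) (x : α) : ℝ := (I.filter (fun X => x ∉ X)).card

lemma miss_split (I : Finset (Finset α)) (x y : α) :
    miss I y = miss (I.filter (fun X => x ∉ X)) y + miss (I.filter (fun X => x ∈ X)) y := by
  unfold miss
  rw [filter_filter, filter_filter, ← Nat.cast_add]
  congr 1
  rw [add_comm, ← card_union_of_disjoint]
  · congr 1
    ext X
    simp only [mem_filter, mem_union]
    tauto
  · rw [Finset.disjoint_left]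
    intro X hX hX'
    rw [mem_filter] at hX hX'
    exact hX'.2.1 hX.2.1

theorem main_ineq {A : Finset (Finset α)} (hA : ∀ X ∈ A, ∀ Y ∈ A, X ∪ Y ∈ A) (l : List α) :
    ∀ I J : Finset (Finset α), I ⊆ A → J ⊆ A → Agree l I → Agree l J →
      gr / 2 * (L l (miss I) J + L l (miss J) I) ≤ Ent A (I ×ˢ J) := by
  induction l with
  | nil =>
    intro I J hI hJ _ _
    simp only [L, add_zero, mul_zero]
    apply Ent_nonneg
    intro p hp
    rw [mem_product] at hp
    exact hA _ (hI hp.1) _ (hJ hp.2)
  | cons x l ih =>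
    intro I J hI hJ aI aJ
    set I0 := I.filter (fun X => x ∉ X) with hI0
    set I1 := I.filter (fun X => x ∈ X) with hI1
    set J0 := J.filter (fun X => x ∉ X) with hJ0
    set J1 := J.filter (fun X => x ∈ X) with hJ1
    have sI0 : I0 ⊆ A := (filter_subset _ _).trans hI
    have sI1 : I1 ⊆ A := (filter_subset _ _).trans hI
    have sJ0 : J0 ⊆ A := (filter_subset _ _).trans hJ
    have sJ1 : J1 ⊆ A := (filter_subset _ _).trans hJ
    have hprod : ∀ P Q : Finset (Finset α), P ⊆ A → Q ⊆ A → ∀ p ∈ P ×ˢ Q, p.1 ∪ p.2 ∈ A := by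
      intro P Q hP hQ p hp
      rw [mem_product] at hp
      exact hA _ (hP hp.1) _ (hQ hp.2)
    have h00 := ih I0 J0 sI0 sJ0 aI.filter_notMem aJ.filter_notMem
    have h01 := ih I0 J1 sI0 sJ1 aI.filter_notMem aJ.filter_mem
    have h10 := ih I1 J0 sI1 sJ0 aI.filter_mem aJ.filter_notMem
    have h11 := ih I1 J1 sI1 sJ1 aI.filter_mem aJ.filter_mem
    -- decomposition of the product
    have hdec : I ×ˢ J = (I0 ×ˢ J0) ∪ ((I1 ×ˢ J0) ∪ ((I0 ×ˢ J1) ∪ (I1 ×ˢ J1))) := by
      ext ⟨X, Y⟩
      simp only [mem_product, mem_union, hI0, hI1, hJ0, hJ1, mem_filter]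
      tauto
    have hsplit : Ent A (I ×ˢ J) = Ent A (I0 ×ˢ J0) +
        Ent A ((I1 ×ˢ J0) ∪ ((I0 ×ˢ J1) ∪ (I1 ×ˢ J1))) +
        E2 ((I0 ×ˢ J0).card) (((I1 ×ˢ J0) ∪ ((I0 ×ˢ J1) ∪ (I1 ×ˢ J1))).card) := by
      rw [hdec]
      apply Ent_split x
      · rintro ⟨X, Y⟩ hp
        simp only [mem_product, hI0, hJ0, mem_filter] at hp
        simp only [mem_union, not_or]
        exact ⟨hp.1.2, hp.2.2⟩
      · rintro ⟨X, Y⟩ hp
        simp only [mem_product, mem_union, hI0, hI1, hJ0, hJ1, mem_filter] at hp
        simp only [mem_union]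
        tauto
    have hd1 : Disjoint (I0 ×ˢ J1) (I1 ×ˢ J1) := by
      rw [Finset.disjoint_left]
      rintro ⟨X, Y⟩ hp hp'
      simp only [mem_product, hI0, hI1, mem_filter] at hp hp'
      exact hp.1.2 hp'.1.2
    have hd2 : Disjoint (I1 ×ˢ J0) ((I0 ×ˢ J1) ∪ (I1 ×ˢ J1)) := by
      rw [Finset.disjoint_left]
      rintro ⟨X, Y⟩ hp hp'
      simp only [mem_product, mem_union, hI0, hI1, hJ0, hJ1, mem_filter] at hp hp'
      tauto
    have hs1 := Ent_superadd (A := A) hd1 (hprod _ _ sI0 sJ1) (hprod _ _ sI1 sJ1)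
    have hs2 := Ent_superadd (A := A) hd2 (hprod _ _ sI1 sJ0) (by
      intro p hp
      rw [mem_union] at hp
      rcases hp with hp | hp
      · exact hprod _ _ sI0 sJ1 p hp
      · exact hprod _ _ sI1 sJ1 p hp)
    have hkey := E2_key (a := I0.card) (a' := I1.card) (b := J0.card) (b' := J1.card)
      (Nat.cast_nonneg _) (Nat.cast_nonneg _) (Nat.cast_nonneg _) (Nat.cast_nonneg _)
    have hc1 : (((I0 ×ˢ J0).card : ℕ) : ℝ) = I0.card * J0.card := by
      rw [card_product]; push_cast; ring
    have hc2 : ((((I1 ×ˢ J0) ∪ ((I0 ×ˢ J1) ∪ (I1 ×ˢ J1))).card : ℕ) : ℝ) =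
        I1.card * J0.card + (I0.card * J1.card + I1.card * J1.card) := by
      rw [card_union_of_disjoint hd2, card_union_of_disjoint hd1, card_product, card_product,
        card_product]
      push_cast
      ring
    rw [hc1, hc2] at hsplit
    -- the left-hand side
    have mI : miss I = fun y => miss I0 y + miss I1 y := by
      funext y; exact miss_split I x y
    have mJ : miss J = fun y => miss J0 y + miss J1 y := by
      funext y; exact miss_split J x y
    have lI : L (x :: l) (miss I) J = I0.card * E2 J0.card J1.card +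
        (L l (miss I0) J0 + L l (miss I1) J0) + (L l (miss I0) J1 + L l (miss I1) J1) := by
      simp only [L]
      rw [← hJ0, ← hJ1, mI, L_add, L_add]
      beta_reduce
      have : miss I0 x + miss I1 x = I0.card := by
        have := miss_split I x x
        rw [← hI0, ← hI1] at this
        rw [← this]
        rfl
      rw [this]
    have lJ : L (x :: l) (miss J) I = J0.card * E2 I0.card I1.card +
        (L l (miss J0) I0 + L l (miss J1) I0) + (L l (miss J0) I1 + L l (miss J1) I1) := by
      simp only [L]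
      rw [← hI0, ← hI1, mJ, L_add, L_add]
      beta_reduce
      have : miss J0 x + miss J1 x = J0.card := by
        have := miss_split J x x
        rw [← hJ0, ← hJ1] at this
        rw [← this]
        rfl
      rw [this]
    rw [lI, lJ, hsplit]
    linarith

/-- Entropy bound. -/
theorem gilmer {A I : Finset (Finset α)} (hA : ∀ X ∈ A, ∀ Y ∈ A, X ∪ Y ∈ A) (hIA : I ⊆ A)
    (hI : I.Nonempty) {q : ℝ}
    (hq : ∀ x ∈ A.sup id, q * I.card ≤ (I.filter (fun X => x ∉ X)).card) :
    gr * q * log I.card ≤ log A.card := by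
  have hN : (0:ℝ) < I.card := by exact_mod_cast hI.card_pos
  have hag : Agree (A.sup id).toList I := by
    intro X hX Y hY x hx
    rw [Finset.mem_toList] at hx
    have h1 : x ∉ X := fun h => hx (Finset.mem_sup.2 ⟨X, hIA hX, h⟩)
    have h2 : x ∉ Y := fun h => hx (Finset.mem_sup.2 ⟨Y, hIA hY, h⟩)
    exact iff_of_false h1 h2
  have h1 := main_ineq hA (A.sup id).toList I I hIA hIA hag hag
  have h2 := Ent_le (A := A) (S := I ×ˢ I) (by
    intro p hp
    rw [mem_product] at hp
    exact hA _ (hIA hp.1) _ (hIA hp.2))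
  have h3 : q * I.card * eta I.card ≤ L (A.sup id).toList (miss I) I := by
    rw [← L_one _ _ hag, ← L_const_mul]
    apply L_mono
    intro x hx
    rw [Finset.mem_toList] at hx
    simpa [miss] using hq x hx
  rw [card_product] at h2
  push_cast at h2
  have hg : (0:ℝ) < gr := by linarith [lt_gr]
  have h4 : gr * (q * I.card * eta I.card) ≤ I.card * I.card * log A.card := by
    have := mul_le_mul_of_nonneg_left h3 hg.le
    linarith
  unfold eta at h4
  have h5 : (I.card : ℝ) * I.card * (gr * q * log I.card) ≤ I.card * I.card * log A.card := by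
    calc (I.card : ℝ) * I.card * (gr * q * log I.card)
        = gr * (q * I.card * (I.card * log I.card)) := by ring
      _ ≤ _ := h4
  exact le_of_mul_le_mul_left h5 (mul_pos hN hN)

end Pool.Agent.H61.SF
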