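import Mathlib

/-!
The sharp two-variable inequality for the binary entropy function
`h (x y) >= (phi / 2) (x h y + y h x)`, with `phi` the golden ratio.
-/

set_option autoImplicit false

open Real Set

namespace Pool.Agent.H61.SF

/-- golden ratio as a plain real -/
noncomputable def gr : ℝ := (1 + √5) / 2

lemma gr_sq : gr ^ 2 = gr + 1 := by
  unfold gr
  have h : √5 ^ 2 = 5 := Real.sq_sqrt (by norm_num)
  nlinarith

lemma gr_lt : gr < 1.619 := by
  unfold gr
  have h : √5 < 2.237 := by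
    rw [Real.sqrt_lt' (by norm_num)]
    norm_num
  linarith

lemma lt_gr : 1.618 < gr := by
  unfold gr
  have h : 2.236 < √5 := by
    apply Real.lt_sqrt_of_sq_lt
    norm_num
  linarith

/-- inverse of the golden ratio -/
noncomputable def tau : ℝ := gr - 1

lemma gr_mul_tau : gr * tau = 1 := by
  unfold tau
  nlinarith [gr_sq]

lemma tau_sq : tau ^ 2 = 1 - tau := by
  unfold tau
  nlinarith [gr_sq]

lemma lt_tau : 0.618 < tau := by unfold tau; linarith [lt_gr]
lemma tau_lt : tau < 0.619 := by unfold tau; linarith [gr_lt]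

/-! ### The auxiliary function `V` -/

noncomputable def V (x : ℝ) : ℝ := (2 - gr * x) * log (1 - x) + 2 * log (1 + x)

noncomputable def V' (x : ℝ) : ℝ :=
  -gr * log (1 - x) - (2 - gr * x) / (1 - x) + 2 / (1 + x)

noncomputable def W (x : ℝ) : ℝ := -gr * x ^ 3 - 4 * x ^ 2 + 3 * gr * x - (4 - 2 * gr)

noncomputable def V'' (x : ℝ) : ℝ := W x / ((1 - x) ^ 2 * (1 + x) ^ 2)

lemma hasDerivAt_V {x : ℝ} (h0 : -1 < x) (h1 : x < 1) : HasDerivAt V (V' x) x := by
  have e1 : HasDerivAt (fun t : ℝ => log (1 - t)) (-(1 - x)⁻¹) x := by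
    have := (((hasDerivAt_id x).const_sub 1)).log (by simpa using (by linarith : (1 - x) ≠ 0))
    simpa [neg_div, one_div] using this
  have e2 : HasDerivAt (fun t : ℝ => log (1 + t)) ((1 + x)⁻¹) x := by
    have := (((hasDerivAt_id x).const_add 1)).log (by simpa using (by linarith : (1 + x) ≠ 0))
    simpa [one_div] using this
  have e3 : HasDerivAt (fun t : ℝ => 2 - gr * t) (-gr) x := by
    have := ((hasDerivAt_id x).const_mul gr).const_sub 2
    simpa using this
  have e4 := (e3.mul e1).add (e2.const_mul 2)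
  refine e4.congr_deriv ?_
  unfold V'
  field_simp
  ring

lemma hasDerivAt_V' {x : ℝ} (h0 : -1 < x) (h1 : x < 1) : HasDerivAt V' (V'' x) x := by
  have hx1 : (1 - x) ≠ 0 := by linarith
  have hx2 : (1 + x) ≠ 0 := by linarith
  have e1 : HasDerivAt (fun t : ℝ => log (1 - t)) (-(1 - x)⁻¹) x := by
    have := (((hasDerivAt_id x).const_sub 1)).log (by simpa using hx1)
    simpa [neg_div, one_div] using this
  have e5 : HasDerivAt (fun t : ℝ => 1 - t) (-1) x := by
    simpa using (hasDerivAt_id x).const_sub 1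
  have e6 : HasDerivAt (fun t : ℝ => 1 + t) 1 x := by
    simpa using (hasDerivAt_id x).const_add 1
  have e3 : HasDerivAt (fun t : ℝ => 2 - gr * t) (-gr) x := by
    have := ((hasDerivAt_id x).const_mul gr).const_sub 2
    simpa using this
  have e7 := e3.div e5 hx1
  have e8 := (hasDerivAt_const x (2:ℝ)).div e6 hx2
  have e9 := ((e1.const_mul (-gr)).sub e7).add e8
  refine e9.congr_deriv ?_
  unfold V'' W
  field_simp
  ring

lemma concaveOn_W : ConcaveOn ℝ (Icc 0 1) W := by
  have d1 : ∀ x : ℝ, HasDerivAt W (-gr * (3 * x ^ 2) - 4 * (2 * x) + 3 * gr) x := by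
    intro x
    have h3 := ((hasDerivAt_pow 3 x).const_mul (-gr))
    have h2 := ((hasDerivAt_pow 2 x).const_mul (4:ℝ))
    have h1 := ((hasDerivAt_id x).const_mul (3 * gr))
    have := (((h3.sub h2).add h1).sub_const (4 - 2 * gr))
    refine this.congr_deriv ?_
    simp
  have d2 : ∀ x : ℝ, HasDerivAt (fun x => -gr * (3 * x ^ 2) - 4 * (2 * x) + 3 * gr)
      (-gr * (6 * x) - 8) x := by
    intro x
    have h2 := (((hasDerivAt_pow 2 x).const_mul (3:ℝ)).const_mul (-gr))
    have h1 := (((hasDerivAt_id x).const_mul (2:ℝ)).const_mul (4:ℝ))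
    have := ((h2.sub h1).add_const (3 * gr))
    refine this.congr_deriv ?_
    simp
    ring
  refine concaveOn_of_hasDerivWithinAt2_nonpos (convex_Icc 0 1)
    (fun x _ => (d1 x).continuousAt.continuousWithinAt)
    (fun x _ => (d1 x).hasDerivWithinAt) (fun x _ => (d2 x).hasDerivWithinAt) ?_
  intro x hx
  rw [interior_Icc] at hx
  have := lt_gr
  nlinarith [hx.1, hx.2]

lemma W_zero : W 0 < 0 := by
  unfold W
  have := gr_lt
  norm_num
  linarith

lemma W_tau : 0 < W tau := by
  -- reduce with tau^2 = 1 - tau and gr * tau = 1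
  have h1 := gr_mul_tau
  have h2 := tau_sq
  have h3 : gr * tau ^ 3 = 1 - tau := by
    calc gr * tau ^ 3 = (gr * tau) * tau ^ 2 := by ring
      _ = 1 - tau := by rw [h1, h2]; ring
  have h4 : gr = tau + 1 := by unfold tau; ring
  have h5 : W tau = -(1 - tau) - 4 * (1 - tau) + 3 - (4 - 2 * (tau + 1)) := by
    unfold W
    have : 3 * gr * tau = 3 := by linarith
    rw [← h4]
    have h6 : -gr * tau ^ 3 = -(1 - tau) := by linarith
    rw [h6, h2, this]
  rw [h5]
  linarith [lt_tau]

lemma W_min {p q r : ℝ} (h0 : 0 ≤ p) (hpq : p ≤ q) (hqr : q ≤ r) (h1 : r ≤ 1) :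
    min (W p) (W r) ≤ W q :=
  concaveOn_W.min_le_of_mem_Icc ⟨h0, by linarith⟩ ⟨by linarith, h1⟩ ⟨hpq, hqr⟩

lemma continuous_W : Continuous W := by
  unfold W
  fun_prop

lemma V_zero : V 0 = 0 := by simp [V]

lemma V'_zero : V' 0 = 0 := by simp [V']

lemma V_tau : V tau = 0 := by
  unfold V
  have h1 : (1 - tau) = tau ^ 2 := by linarith [tau_sq]
  have h2 : 1 + tau = gr := by unfold tau; ring
  have h0 : (0:ℝ) < tau := by linarith [lt_tau]
  have hg : (0:ℝ) < gr := by linarith [lt_gr]
  rw [h1, h2, gr_mul_tau, Real.log_pow]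
  have h3 : log gr + log tau = 0 := by
    rw [← Real.log_mul hg.ne' h0.ne', gr_mul_tau, Real.log_one]
  push_cast
  linarith

lemma log_gr_gt : 0.46 < log gr := by
  have hg : (0:ℝ) < gr := by linarith [lt_gr]
  have h1 : log (gr ^ 2) = 2 * log gr := by rw [Real.log_pow]; norm_num
  have h2 : (2:ℝ) * 1.309 < gr ^ 2 := by rw [gr_sq]; linarith [lt_gr]
  have h3 : log ((2:ℝ) * 1.309) < log (gr ^ 2) := Real.log_lt_log (by norm_num) h2
  rw [Real.log_mul (by norm_num) (by norm_num)] at h3
  have h4 := Real.log_two_gt_d9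
  have h5 : 1 - (1.309:ℝ)⁻¹ ≤ log 1.309 := Real.one_sub_inv_le_log_of_pos (by norm_num)
  have h6 : (0.236:ℝ) < 1 - (1.309:ℝ)⁻¹ := by norm_num
  linarith

lemma V'_tau : 0 ≤ V' tau := by
  unfold V'
  have h1 : (1 - tau) = tau ^ 2 := by linarith [tau_sq]
  have h2 : 1 + tau = gr := by unfold tau; ring
  have h0 : (0:ℝ) < tau := by linarith [lt_tau]
  have hg : (0:ℝ) < gr := by linarith [lt_gr]
  have h3 : log gr + log tau = 0 := by
    rw [← Real.log_mul hg.ne' h0.ne', gr_mul_tau, Real.log_one]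
  have h4 : log (tau ^ 2) = -(2 * log gr) := by
    rw [Real.log_pow]; push_cast; linarith
  have h5 : (2 - gr * tau) / tau ^ 2 = gr + 1 := by
    rw [gr_mul_tau, div_eq_iff (by positivity)]
    have : gr ^ 2 * tau ^ 2 = 1 := by
      rw [← mul_pow, gr_mul_tau]; norm_num
    rw [← gr_sq, this]; norm_num
  have h6 : 2 / gr = 2 * (gr - 1) := by
    rw [div_eq_iff hg.ne']
    nlinarith [gr_sq]
  rw [h2, h1, h4, h5, h6]
  have := log_gr_gt
  have := lt_gr
  nlinarith

lemma V''_nonpos {x : ℝ} (h : W x ≤ 0) : V'' x ≤ 0 :=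
  div_nonpos_of_nonpos_of_nonneg h (by positivity)

lemma V''_nonneg {x : ℝ} (h : 0 ≤ W x) : 0 ≤ V'' x :=
  div_nonneg h (by positivity)

/-- first case: `W` nonpositive at `x < tau` -/
lemma V_nonpos_aux {x : ℝ} (h0 : 0 ≤ x) (h1 : x < tau) (hW : W x ≤ 0) : V x ≤ 0 := by
  have htau := tau_lt
  have hWn : ∀ t ∈ Icc 0 x, W t ≤ 0 := by
    intro t ht
    by_contra hcon
    push Not at hcon
    have := W_min (p := t) (q := x) (r := tau) ht.1 ht.2 h1.le (by linarith)
    have h3 : 0 < min (W t) (W tau) := lt_min hcon W_tau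
    linarith
  have hanti' : AntitoneOn V' (Icc 0 x) := by
    apply antitoneOn_of_deriv_nonpos (convex_Icc 0 x)
    · intro t ht
      exact (hasDerivAt_V' (by linarith [ht.1]) (by linarith [ht.2])).continuousAt.continuousWithinAt
    · intro t ht
      rw [interior_Icc] at ht
      exact (hasDerivAt_V' (by linarith [ht.1]) (by linarith [ht.2])).differentiableAt.differentiableWithinAt
    · intro t ht
      rw [interior_Icc] at ht
      rw [(hasDerivAt_V' (by linarith [ht.1]) (by linarith [ht.2])).deriv]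
      exact V''_nonpos (hWn t ⟨ht.1.le, ht.2.le⟩)
  have hanti : AntitoneOn V (Icc 0 x) := by
    apply antitoneOn_of_deriv_nonpos (convex_Icc 0 x)
    · intro t ht
      exact (hasDerivAt_V (by linarith [ht.1]) (by linarith [ht.2])).continuousAt.continuousWithinAt
    · intro t ht
      rw [interior_Icc] at ht
      exact (hasDerivAt_V (by linarith [ht.1]) (by linarith [ht.2])).differentiableAt.differentiableWithinAt
    · intro t ht
      rw [interior_Icc] at ht
      rw [(hasDerivAt_V (by linarith [ht.1]) (by linarith [ht.2])).deriv]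
      have := hanti' ⟨le_rfl, h0⟩ ⟨ht.1.le, ht.2.le⟩ ht.1.le
      rwa [V'_zero] at this
  have := hanti ⟨le_rfl, h0⟩ ⟨h0, le_rfl⟩ h0
  rwa [V_zero] at this

lemma convexOn_V {p r : ℝ} (h0 : 0 ≤ p) (h1 : r < 1) (hW : ∀ t ∈ Icc p r, 0 ≤ W t) :
    ConvexOn ℝ (Icc p r) V := by
  refine convexOn_of_hasDerivWithinAt2_nonneg (f' := V') (f'' := V'') (convex_Icc p r)
    (fun x hx => (hasDerivAt_V (by linarith [hx.1]) (by linarith [hx.2])).continuousAt.continuousWithinAt)
    (fun x hx => ?_) (fun x hx => ?_) ?_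
  · rw [interior_Icc] at hx
    exact (hasDerivAt_V (by linarith [hx.1]) (by linarith [hx.2])).hasDerivWithinAt
  · rw [interior_Icc] at hx
    exact (hasDerivAt_V' (by linarith [hx.1]) (by linarith [hx.2])).hasDerivWithinAt
  · intro x hx
    rw [interior_Icc] at hx
    exact V''_nonneg (hW x ⟨hx.1.le, hx.2.le⟩)

lemma concaveOn_V {p r : ℝ} (h0 : 0 ≤ p) (h1 : r < 1) (hW : ∀ t ∈ Icc p r, W t ≤ 0) :
    ConcaveOn ℝ (Icc p r) V := by
  refine concaveOn_of_hasDerivWithinAt2_nonpos (f' := V') (f'' := V'') (convex_Icc p r)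
    (fun x hx => (hasDerivAt_V (by linarith [hx.1]) (by linarith [hx.2])).continuousAt.continuousWithinAt)
    (fun x hx => ?_) (fun x hx => ?_) ?_
  · rw [interior_Icc] at hx
    exact (hasDerivAt_V (by linarith [hx.1]) (by linarith [hx.2])).hasDerivWithinAt
  · rw [interior_Icc] at hx
    exact (hasDerivAt_V' (by linarith [hx.1]) (by linarith [hx.2])).hasDerivWithinAt
  · intro x hx
    rw [interior_Icc] at hx
    exact V''_nonpos (hW x ⟨hx.1.le, hx.2.le⟩)

lemma V_nonpos {x : ℝ} (h0 : 0 ≤ x) (h1 : x ≤ tau) : V x ≤ 0 := by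
  rcases h1.eq_or_lt with rfl | h1
  · exact V_tau.le
  have htau := tau_lt
  by_cases hW : W x ≤ 0
  · exact V_nonpos_aux h0 h1 hW
  push Not at hW
  -- a zero of W in [0, x]
  obtain ⟨α, hα, hWα⟩ : (0:ℝ) ∈ W '' Icc 0 x :=
    intermediate_value_Icc h0 continuous_W.continuousOn ⟨W_zero.le, hW.le⟩
  have hαlt : α < x := by
    rcases hα.2.eq_or_lt with h | h
    · rw [h] at hWα; linarith
    · exact h
  have hVα : V α ≤ 0 := V_nonpos_aux hα.1 (by linarith) hWα.le
  have hconv : ConvexOn ℝ (Icc α tau) V := by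
    apply convexOn_V hα.1 (by linarith)
    intro t ht
    have := W_min (p := α) (q := t) (r := tau) hα.1 ht.1 ht.2 (by linarith)
    rw [hWα] at this
    exact le_trans (le_min le_rfl W_tau.le) this
  have := hconv.le_max_of_mem_Icc ⟨le_rfl, by linarith⟩ ⟨by linarith, le_rfl⟩ ⟨hαlt.le, h1.le⟩
  rw [V_tau] at this
  exact le_trans this (max_le hVα le_rfl)

lemma V_nonneg_aux {x : ℝ} (h0 : tau ≤ x) (h1 : x < 1) (hW : 0 ≤ W x) : 0 ≤ V x := by
  have htau := lt_tau
  have hWn : ∀ t ∈ Icc tau x, 0 ≤ W t := by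
    intro t ht
    have := W_min (p := tau) (q := t) (r := x) (by linarith) ht.1 ht.2 h1.le
    exact le_trans (le_min W_tau.le hW) this
  have hmono' : MonotoneOn V' (Icc tau x) := by
    apply monotoneOn_of_deriv_nonneg (convex_Icc tau x)
    · intro t ht
      exact (hasDerivAt_V' (by linarith [ht.1]) (by linarith [ht.2])).continuousAt.continuousWithinAt
    · intro t ht
      rw [interior_Icc] at ht
      exact (hasDerivAt_V' (by linarith [ht.1]) (by linarith [ht.2])).differentiableAt.differentiableWithinAt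
    · intro t ht
      rw [interior_Icc] at ht
      rw [(hasDerivAt_V' (by linarith [ht.1]) (by linarith [ht.2])).deriv]
      exact V''_nonneg (hWn t ⟨ht.1.le, ht.2.le⟩)
  have hmono : MonotoneOn V (Icc tau x) := by
    apply monotoneOn_of_deriv_nonneg (convex_Icc tau x)
    · intro t ht
      exact (hasDerivAt_V (by linarith [ht.1]) (by linarith [ht.2])).continuousAt.continuousWithinAt
    · intro t ht
      rw [interior_Icc] at ht
      exact (hasDerivAt_V (by linarith [ht.1]) (by linarith [ht.2])).differentiableAt.differentiableWithinAt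
    · intro t ht
      rw [interior_Icc] at ht
      rw [(hasDerivAt_V (by linarith [ht.1]) (by linarith [ht.2])).deriv]
      have := hmono' ⟨le_rfl, h0⟩ ⟨ht.1.le, ht.2.le⟩ ht.1.le
      exact le_trans V'_tau this
  have := hmono ⟨le_rfl, h0⟩ ⟨h0, le_rfl⟩ h0
  rwa [V_tau] at this

lemma V_nonneg_of {x y : ℝ} (hy : tau ≤ y) (hyx : y ≤ x) (hx : x < 1) (hV : 0 ≤ V x) :
    0 ≤ V y := by
  have htau := lt_tau
  by_cases hW : 0 ≤ W x
  · apply V_nonneg_aux hy (by linarith)
    have := W_min (p := tau) (q := y) (r := x) (by linarith) hy hyx hx.le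
    exact le_trans (le_min W_tau.le hW) this
  push Not at hW
  have htx : tau ≤ x := hy.trans hyx
  obtain ⟨β, hβ, hWβ⟩ : (0:ℝ) ∈ W '' Icc tau x :=
    intermediate_value_Icc' htx continuous_W.continuousOn ⟨hW.le, W_tau.le⟩
  have hVβ : 0 ≤ V β := V_nonneg_aux hβ.1 (by linarith [hβ.2]) hWβ.ge
  by_cases hyβ : y ≤ β
  · apply V_nonneg_aux hy (by linarith)
    have := W_min (p := tau) (q := y) (r := β) (by linarith) hy hyβ (by linarith [hβ.2])
    rw [hWβ] at this
    exact le_trans (le_min W_tau.le le_rfl) this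
  push Not at hyβ
  have hconc : ConcaveOn ℝ (Icc β x) V := by
    apply concaveOn_V (by linarith [hβ.1]) hx
    intro t ht
    by_contra hcon
    push Not at hcon
    have hlt : β < t := by
      rcases ht.1.eq_or_lt with h | h
      · rw [← h, hWβ] at hcon; exact absurd hcon (lt_irrefl _)
      · exact h
    have := W_min (p := tau) (q := β) (r := t) (by linarith) hβ.1 hlt.le (by linarith [ht.2])
    rw [hWβ] at this
    have h3 : 0 < min (W tau) (W t) := lt_min W_tau hcon
    linarith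
  have := hconc.min_le_of_mem_Icc ⟨le_rfl, hβ.2⟩ ⟨hβ.2, le_rfl⟩ ⟨hyβ.le, hyx⟩
  exact le_trans (le_min hVβ hV) this

end Pool.Agent.H61.SF
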