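import Pool.Agent.H61.SFSmall

/-!
Small union-closed families: consequences for frequencies of elements.
-/

set_option autoImplicit false

open Real Finset

namespace Pool.Agent.H61.SF

variable {α : Type*} [DecidableEq α]

/-- union of the members avoiding `x` -/
def avoid (A : Finset (Finset α)) (x : α) : Finset α := (A.filter (fun X => x ∉ X)).sup id

lemma sup_mem_of_union {A B : Finset (Finset α)} (hA : ∀ X ∈ A, ∀ Y ∈ A, X ∪ Y ∈ A) (hBA : B ⊆ A)
    (hB : B.Nonempty) : B.sup id ∈ A := by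
  rw [← sup'_eq_sup hB]
  have := sup'_mem (s := (A : Set (Finset α))) (fun X hX Y hY => hA X hX Y hY) B hB id
    (fun X hX => hBA hX)
  exact this

lemma avoid_mem {A : Finset (Finset α)} (hA : ∀ X ∈ A, ∀ Y ∈ A, X ∪ Y ∈ A) {x : α}
    (h : ∃ X ∈ A, x ∉ X) : avoid A x ∈ A := by
  obtain ⟨X, hX, hx⟩ := h
  exact sup_mem_of_union hA (filter_subset _ _) ⟨X, by rw [mem_filter]; exact ⟨hX, hx⟩⟩

lemma subset_avoid_iff {A : Finset (Finset α)} {x : α} {X : Finset α} (hX : X ∈ A) :
    X ⊆ avoid A x ↔ x ∉ X := by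
  constructor
  · intro h hx
    obtain ⟨Y, hY, hxY⟩ := mem_sup.1 (h hx)
    exact (mem_filter.1 hY).2 hxY
  · intro h a ha
    exact mem_sup.2 ⟨X, by rw [mem_filter]; exact ⟨hX, h⟩, ha⟩

lemma notMem_avoid (A : Finset (Finset α)) (x : α) : x ∉ avoid A x := by
  intro hx
  obtain ⟨Y, hY, hxY⟩ := mem_sup.1 hx
  exact (mem_filter.1 hY).2 hxY

lemma filter_avoid (A : Finset (Finset α)) (x : α) :
    A.filter (fun X => ¬ X ⊆ avoid A x) = A.filter (fun X => x ∈ X) := by
  apply filter_congr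
  intro X hX
  rw [subset_avoid_iff hX, not_not]

/-- the separation property -/
def Sep (A : Finset (Finset α)) : Prop :=
  ∀ x ∈ A.sup id, ∀ y ∈ A.sup id, x ≠ y → ∃ S ∈ A, (x ∈ S ∧ y ∉ S) ∨ (y ∈ S ∧ x ∉ S)

lemma avoid_injOn {A : Finset (Finset α)} (hs : Sep A) :
    Set.InjOn (avoid A) (A.sup id : Finset α) := by
  intro x hx y hy hxy
  by_contra hne
  obtain ⟨S, hS, h | h⟩ := hs x hx y hy hne
  · exact ((subset_avoid_iff hS).1 (hxy ▸ (subset_avoid_iff hS).2 h.2)) h.1
  · exact ((subset_avoid_iff hS).1 (hxy ▸ (subset_avoid_iff hS).2 h.2)) h.1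

/-- the family used in the separating case -/
def sepFam (A : Finset (Finset α)) : Finset (Finset α) :=
  insert (A.sup id) ((A.sup id).image (avoid A))

lemma card_sepFam {A : Finset (Finset α)} (hs : Sep A) :
    (sepFam A).card = (A.sup id).card + 1 := by
  unfold sepFam
  rw [card_insert_of_notMem, card_image_of_injOn (avoid_injOn hs)]
  intro h
  obtain ⟨x, hx, hxe⟩ := mem_image.1 h
  have := notMem_avoid A x
  rw [hxe] at this
  exact this hx

lemma sepFam_subset {A : Finset (Finset α)} (hA : ∀ X ∈ A, ∀ Y ∈ A, X ∪ Y ∈ A)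
    (hU : (A.sup id).Nonempty) (h : ∀ x ∈ A.sup id, ∃ X ∈ A, x ∉ X) : sepFam A ⊆ A := by
  intro Z hZ
  unfold sepFam at hZ
  rw [mem_insert, mem_image] at hZ
  rcases hZ with rfl | ⟨x, hx, rfl⟩
  · apply sup_mem_of_union hA subset_rfl
    obtain ⟨x, hx⟩ := hU
    obtain ⟨X, hX, -⟩ := mem_sup.1 hx
    exact ⟨X, hX⟩
  · exact avoid_mem hA (h x hx)

lemma outer_sup (A : Finset (Finset α)) : A.filter (fun X => ¬ X ⊆ A.sup id) = ∅ := by
  rw [filter_eq_empty_iff]
  intro X hX
  rw [not_not]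
  intro a ha
  exact mem_sup.2 ⟨X, hX, ha⟩

lemma exists_elt_of_sepFam {A : Finset (Finset α)} (hU : (A.sup id).Nonempty) {Y : Finset α}
    (hY : Y ∈ sepFam A) : ∃ x ∈ A.sup id, (A.filter (fun X => ¬ X ⊆ Y)).card ≤
      (A.filter (fun X => x ∈ X)).card := by
  unfold sepFam at hY
  rw [mem_insert, mem_image] at hY
  rcases hY with rfl | ⟨x, hx, rfl⟩
  · obtain ⟨x, hx⟩ := hU
    refine ⟨x, hx, ?_⟩
    rw [outer_sup, card_empty]
    exact Nat.zero_le _
  · exact ⟨x, hx, by rw [filter_avoid]⟩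

/-- Separating families, logarithmic form. -/
theorem sep_log {A : Finset (Finset α)} (hA : ∀ X ∈ A, ∀ Y ∈ A, X ∪ Y ∈ A) (hs : Sep A)
    (h2 : (A.sup id).card + 3 ≤ A.card) :
    ∃ x ∈ A.sup id, (A.card : ℝ) - 1 - tau * (A.card - ((A.sup id).card + 1)) * log A.card /
      log (A.card - ((A.sup id).card + 1)) ≤ (A.filter (fun X => x ∈ X)).card := by
  have ht0 : (0:ℝ) < tau := by linarith [lt_tau]
  have hU : (A.sup id).Nonempty := by
    rw [nonempty_iff_ne_empty]
    intro h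
    have h1 : A ⊆ {∅} := by
      intro X hX
      rw [mem_singleton]
      have h2 : X ⊆ A.sup id := by
        intro a ha
        exact mem_sup.2 ⟨X, hX, ha⟩
      rw [h] at h2
      exact subset_empty.1 h2
    have h3 := card_le_card h1
    rw [card_singleton] at h3
    omega
  by_cases hall : ∀ x ∈ A.sup id, ∃ X ∈ A, x ∉ X
  · have hsub := sepFam_subset hA hU hall
    obtain ⟨Y, hY, hb⟩ := general_log hA hsub (by
      intro x hx
      exact ⟨avoid A x, mem_insert_of_mem (mem_image_of_mem _ hx), notMem_avoid A x⟩)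
      (by rw [card_sepFam hs]; omega)
    obtain ⟨x, hx, hle⟩ := exists_elt_of_sepFam hU hY
    refine ⟨x, hx, ?_⟩
    rw [card_sepFam hs] at hb
    push_cast at hb
    have : ((A.filter (fun X => ¬ X ⊆ Y)).card : ℝ) ≤ (A.filter (fun X => x ∈ X)).card := by
      exact_mod_cast hle
    linarith
  · push Not at hall
    obtain ⟨x, hx, hxA⟩ := hall
    refine ⟨x, hx, ?_⟩
    rw [filter_true_of_mem hxA]
    have h3 : (2:ℝ) ≤ A.card - ((A.sup id).card + 1) := by
      have : (((A.sup id).card + 3 : ℕ) : ℝ) ≤ A.card := by exact_mod_cast h2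
      push_cast at this
      linarith
    have h4 : 0 ≤ log ((A.card : ℝ) - ((A.sup id).card + 1)) := Real.log_nonneg (by linarith)
    have h5 : 0 ≤ log (A.card : ℝ) := Real.log_nonneg (by
      have : (0:ℝ) ≤ (A.sup id).card := Nat.cast_nonneg _
      linarith)
    have h6 : 0 ≤ tau * (A.card - ((A.sup id).card + 1)) * log A.card /
      log (A.card - ((A.sup id).card + 1)) := by
      apply div_nonneg _ h4
      apply mul_nonneg _ h5
      apply mul_nonneg ht0.le
      linarith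
    linarith

/-- Separating families, exact form. -/
theorem sep_half {A : Finset (Finset α)} (hA : ∀ X ∈ A, ∀ Y ∈ A, X ∪ Y ∈ A) (hs : Sep A)
    (hU : (A.sup id).Nonempty) :
    ∃ x ∈ A.sup id, (1 - tau) * (A.card : ℝ) + (A.sup id).card - 1 ≤
      (2 - tau) * (A.filter (fun X => x ∈ X)).card := by
  have ht1 : tau < 1 := by linarith [tau_lt]
  by_cases hall : ∀ x ∈ A.sup id, ∃ X ∈ A, x ∉ X
  · have hsub := sepFam_subset hA hU hall
    obtain ⟨Y, hY, hb⟩ := general_half hA hsub (by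
      intro x hx
      exact ⟨avoid A x, mem_insert_of_mem (mem_image_of_mem _ hx), notMem_avoid A x⟩)
      ⟨A.sup id, mem_insert_self _ _⟩
    obtain ⟨x, hx, hle⟩ := exists_elt_of_sepFam hU hY
    refine ⟨x, hx, ?_⟩
    rw [card_sepFam hs] at hb
    push_cast at hb
    have h1 : ((A.filter (fun X => ¬ X ⊆ Y)).card : ℝ) ≤ (A.filter (fun X => x ∈ X)).card := by
      exact_mod_cast hle
    have h2 := mul_le_mul_of_nonneg_left h1 (by linarith : (0:ℝ) ≤ 2 - tau)
    linarith
  · push Not at hall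
    obtain ⟨x, hx, hxA⟩ := hall
    refine ⟨x, hx, ?_⟩
    rw [filter_true_of_mem hxA]
    have h1 : ((A.sup id).erase x).card ≤ A.card := by
      apply card_le_card_of_injOn (avoid A)
      · intro y hy
        rw [coe_erase, Set.mem_sdiff, mem_coe] at hy
        apply avoid_mem hA
        obtain ⟨S, hS, h | h⟩ := hs x hx y hy.1 (fun h => hy.2 h.symm)
        · exact ⟨S, hS, h.2⟩
        · exact absurd (hxA S hS) h.2
      · exact (avoid_injOn hs).mono (by
          intro y hy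
          rw [coe_erase] at hy
          exact hy.1)
    have h2 : (A.sup id).card ≤ A.card + 1 := by
      rw [card_erase_of_mem hx] at h1
      omega
    have h3 : ((A.sup id).card : ℝ) ≤ A.card + 1 := by exact_mod_cast h2
    linarith

/-- Members containing at least half of the members. -/
def Big (A : Finset (Finset α)) : Finset (Finset α) :=
  A.filter (fun Z => A.card ≤ 2 * (A.filter (fun X => X ⊆ Z)).card)

lemma Big_subset (A : Finset (Finset α)) : Big A ⊆ A := filter_subset _ _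

lemma big_cap {A : Finset (Finset α)} (hA : ∀ X ∈ A, ∀ Y ∈ A, X ∪ Y ∈ A)
    (hcon : ∀ x ∈ A.sup id, 2 * (A.filter (fun X => x ∈ X)).card ≤ A.card) :
    ∀ x ∈ A.sup id, ∃ Y ∈ Big A, x ∉ Y := by
  intro x hx
  obtain ⟨X, hX, hxX⟩ := mem_sup.1 hx
  have hpos : 0 < A.card := card_pos.2 ⟨X, hX⟩
  have h1 := hcon x hx
  have h2 : (A.filter (fun X => x ∈ X)).card + (A.filter (fun X => x ∉ X)).card = A.card :=
    Finset.card_filter_add_card_filter_not (fun X => x ∈ X)
  have h3 : (A.filter (fun X => x ∉ X)).Nonempty := by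
    rw [← card_pos]
    omega
  obtain ⟨Y, hY⟩ := h3
  rw [mem_filter] at hY
  refine ⟨avoid A x, ?_, notMem_avoid A x⟩
  unfold Big
  rw [mem_filter]
  refine ⟨avoid_mem hA ⟨Y, hY.1, hY.2⟩, ?_⟩
  have h4 : A.filter (fun X => X ⊆ avoid A x) = A.filter (fun X => x ∉ X) := by
    apply filter_congr
    intro X hX
    exact subset_avoid_iff hX
  rw [h4]
  omega

lemma big_outer {A : Finset (Finset α)} {Y : Finset α} (hY : Y ∈ Big A) :
    2 * ((A.filter (fun X => ¬ X ⊆ Y)).card : ℝ) ≤ A.card := by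
  unfold Big at hY
  rw [mem_filter] at hY
  have h2 : (A.filter (fun X => X ⊆ Y)).card + (A.filter (fun X => ¬ X ⊆ Y)).card = A.card :=
    Finset.card_filter_add_card_filter_not (fun X => X ⊆ Y)
  have h3 : 2 * (A.filter (fun X => ¬ X ⊆ Y)).card ≤ A.card := by
    have := hY.2
    omega
  exact_mod_cast h3

lemma tau_eq : tau = (√5 - 1) / 2 := by unfold tau gr; ring

lemma sqrt5_sq : √5 * √5 = 5 := Real.mul_self_sqrt (by norm_num)

lemma tau_mul : tau * (1 + √5) = 2 := by
  rw [tau_eq]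
  nlinarith [sqrt5_sq]

/-- The numerical estimate behind the constant `3 + √5`. -/
lemma numeric {C : ℝ} (hC : C < 3 + √5) : ∃ N₀ : ℕ, ∀ N p : ℕ, N₀ ≤ N → (N : ℝ) ≤ C * p →
    3 * p ≤ N → 0 < p → (N : ℝ) / 2 < N - 1 - tau * (N - p) * log N / log (N - p) := by
  have ht0 : (0:ℝ) < tau := by linarith [lt_tau]
  set C' : ℝ := max C 1 with hC'
  have hC1 : 1 ≤ C' := le_max_right _ _
  have hs5 : 0 < √5 := Real.sqrt_pos.2 (by norm_num)
  have hC3 : C' < 3 + √5 := max_lt hC (by linarith)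
  have hC0 : 0 < C' := by linarith
  set κ : ℝ := 1 / 2 - tau * (1 - 1 / C') with hκ
  have hκ0 : 0 < κ := by
    have h1 : 1 / (3 + √5) < 1 / C' := one_div_lt_one_div_of_lt hC0 hC3
    have h2 : tau * (1 - 1 / (3 + √5)) = 1 / 2 := by
      rw [tau_eq]
      field_simp
      nlinarith [sqrt5_sq]
    have h3 : tau * (1 - 1 / C') < tau * (1 - 1 / (3 + √5)) := by
      apply mul_lt_mul_of_pos_left _ ht0
      linarith
    rw [hκ]
    linarith
  obtain ⟨N₀, hN₀⟩ := exists_nat_gt (Real.exp (1.25 / κ))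
  refine ⟨N₀ + 6, ?_⟩
  intro N p hN hNC h3 hp
  have hNr : (N₀ : ℝ) + 6 ≤ N := by exact_mod_cast hN
  have hN0r : (0:ℝ) ≤ N₀ := Nat.cast_nonneg _
  have hNpos : (0:ℝ) < N := by linarith
  have hpr : (0:ℝ) < p := by exact_mod_cast hp
  have h3r : 3 * (p:ℝ) ≤ N := by exact_mod_cast h3
  have hNC' : (N:ℝ) ≤ C' * p := hNC.trans (mul_le_mul_of_nonneg_right (le_max_left _ _) hpr.le)
  have hpN : (N:ℝ) / C' ≤ p := by
    rw [div_le_iff₀ hC0]
    linarith
  have hlogN : 1.25 / κ < log N := by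
    rw [← Real.log_exp (1.25 / κ)]
    apply Real.log_lt_log (Real.exp_pos _)
    linarith
  have hlogle : log (N:ℝ) ≤ N := (Real.log_le_sub_one_of_pos hNpos).trans (by linarith)
  have hlogpos : 0 < log (N:ℝ) := lt_trans (by positivity) hlogN
  have h23 : 2 / 3 * (N:ℝ) ≤ N - p := by linarith
  have hl32 : log (3 / 2 : ℝ) ≤ 1 / 2 := by
    have := Real.log_le_sub_one_of_pos (by norm_num : (0:ℝ) < 3 / 2)
    linarith
  have hlog2 : log N - 1 / 2 ≤ log ((N:ℝ) - p) := by
    have h4 : log (2 / 3 * (N:ℝ)) ≤ log ((N:ℝ) - p) := Real.log_le_log (by positivity) h23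
    have h5 : log (2 / 3 * (N:ℝ)) = log N - log (3 / 2) := by
      rw [show 2 / 3 * (N:ℝ) = N / (3 / 2) by ring, Real.log_div hNpos.ne' (by norm_num)]
    linarith
  have hlogNp : 0 < log ((N:ℝ) - p) := by
    apply Real.log_pos
    linarith
  have hmain : tau * ((N:ℝ) - p) * log N < (N / 2 - 1) * log ((N:ℝ) - p) := by
    have h6 : tau * ((N:ℝ) - p) * log N ≤ tau * (N - N / C') * log N := by
      apply mul_le_mul_of_nonneg_right _ hlogpos.le
      apply mul_le_mul_of_nonneg_left _ ht0.le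
      linarith
    have h7 : tau * ((N:ℝ) - N / C') * log N = (1 / 2 - κ) * N * log N := by
      rw [hκ]
      ring
    have h8 : (N / 2 - 1) * (log (N:ℝ) - 1 / 2) ≤ (N / 2 - 1) * log ((N:ℝ) - p) := by
      apply mul_le_mul_of_nonneg_left hlog2
      linarith
    have h9 : 1.25 < κ * log N := by
      rw [div_lt_iff₀ hκ0] at hlogN
      linarith
    have h10 : 1.25 * (N:ℝ) < κ * log N * N := mul_lt_mul_of_pos_right h9 hNpos
    nlinarith
  have h11 : tau * ((N:ℝ) - p) * log N / log ((N:ℝ) - p) < N / 2 - 1 := by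
    rw [div_lt_iff₀ hlogNp]
    exact hmain
  linarith

/-- all-`n` theorem, separating case -/
theorem poonen_sep {A : Finset (Finset α)} (hA : ∀ X ∈ A, ∀ Y ∈ A, X ∪ Y ∈ A) (hs : Sep A)
    (h : (A.card : ℝ) < (1 + √5) * ((A.sup id).card - 1)) :
    ∃ x ∈ A.sup id, A.card < 2 * (A.filter (fun X => x ∈ X)).card := by
  have ht0 : (0:ℝ) < tau := by linarith [lt_tau]
  have ht1 : tau < 1 := by linarith [tau_lt]
  have hs5 : 0 < √5 := Real.sqrt_pos.2 (by norm_num)
  have hU : (A.sup id).Nonempty := by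
    rw [nonempty_iff_ne_empty]
    intro he
    rw [he, card_empty] at h
    have : (0:ℝ) ≤ A.card := Nat.cast_nonneg _
    push_cast at h
    linarith
  obtain ⟨x, hx, hb⟩ := sep_half hA hs hU
  refine ⟨x, hx, ?_⟩
  have h1 : tau * (A.card : ℝ) < 2 * ((A.sup id).card - 1) := by
    have h2 := mul_lt_mul_of_pos_left h ht0
    calc tau * (A.card : ℝ) < tau * ((1 + √5) * ((A.sup id).card - 1)) := h2
      _ = tau * (1 + √5) * ((A.sup id).card - 1) := by ring
      _ = _ := by rw [tau_mul]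
  have h3 : (2 - tau) * (A.card : ℝ) < (2 - tau) * (2 * (A.filter (fun X => x ∈ X)).card) := by
    linarith
  have h4 := lt_of_mul_lt_mul_left h3 (by linarith)
  exact_mod_cast h4

/-- all-`n` theorem, general case -/
theorem poonen_big {A : Finset (Finset α)} (hA : ∀ X ∈ A, ∀ Y ∈ A, X ∪ Y ∈ A)
    (h : (A.card : ℝ) < (1 + √5) * ((Big A).card - 2)) :
    ∃ x ∈ A.sup id, A.card < 2 * (A.filter (fun X => x ∈ X)).card := by
  have ht0 : (0:ℝ) < tau := by linarith [lt_tau]
  have ht1 : tau < 1 := by linarith [tau_lt]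
  have hs5 : 0 < √5 := Real.sqrt_pos.2 (by norm_num)
  by_contra hcon
  push Not at hcon
  have hne : (Big A).Nonempty := by
    rw [nonempty_iff_ne_empty]
    intro he
    rw [he, card_empty] at h
    have : (0:ℝ) ≤ A.card := Nat.cast_nonneg _
    push_cast at h
    linarith
  obtain ⟨Y, hY, hb⟩ := general_half hA (Big_subset A) (big_cap hA hcon) hne
  have h0 := big_outer hY
  have h1 : tau * (A.card : ℝ) < 2 * ((Big A).card - 2) := by
    have h2 := mul_lt_mul_of_pos_left h ht0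
    calc tau * (A.card : ℝ) < tau * ((1 + √5) * ((Big A).card - 2)) := h2
      _ = tau * (1 + √5) * ((Big A).card - 2) := by ring
      _ = _ := by rw [tau_mul]
  have h3 := mul_le_mul_of_nonneg_left h0 (by linarith : (0:ℝ) ≤ 2 - tau)
  linarith

/-- asymptotic theorem, separating case -/
theorem poonen_sep_asymp {C : ℝ} (hC : C < 3 + √5) : ∃ n₀ : ℕ, ∀ (β : Type) [DecidableEq β]
    (A : Finset (Finset β)), (∀ X ∈ A, ∀ Y ∈ A, X ∪ Y ∈ A) → Sep A → n₀ ≤ (A.sup id).card →
    (A.card : ℝ) ≤ C * (A.sup id).card →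
    ∃ x ∈ A.sup id, A.card < 2 * (A.filter (fun X => x ∈ X)).card := by
  obtain ⟨N₀, hN₀⟩ := numeric (C := max C 1) (max_lt hC (by
    have hs5 : 0 < √5 := Real.sqrt_pos.2 (by norm_num)
    linarith))
  refine ⟨N₀ + 30, ?_⟩
  intro β _ A hA hs hn hAC
  by_cases hsmall : (A.card : ℝ) < (1 + √5) * ((A.sup id).card - 1)
  · exact poonen_sep hA hs hsmall
  · push Not at hsmall
    have hnr : (N₀ : ℝ) + 30 ≤ (A.sup id).card := by exact_mod_cast hn
    have hN0r : (0:ℝ) ≤ N₀ := Nat.cast_nonneg _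
    have hs5 : 2.236 < √5 := by
      apply Real.lt_sqrt_of_sq_lt
      norm_num
    have h1 : 3 * (((A.sup id).card : ℝ) + 1) ≤ A.card := by nlinarith
    have h2 : 3 * ((A.sup id).card + 1) ≤ A.card := by exact_mod_cast h1
    obtain ⟨x, hx, hb⟩ := sep_log hA hs (by omega)
    refine ⟨x, hx, ?_⟩
    have hC1 : (1:ℝ) ≤ max C 1 := le_max_right _ _
    have h3 := hN₀ A.card ((A.sup id).card + 1) (by omega) (by
      push_cast
      have h4 : C * (A.sup id).card ≤ max C 1 * (A.sup id).card :=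
        mul_le_mul_of_nonneg_right (le_max_left _ _) (Nat.cast_nonneg _)
      linarith) h2 (by omega)
    push_cast at h3
    have h5 : (A.card : ℝ) < 2 * (A.filter (fun X => x ∈ X)).card := by linarith
    exact_mod_cast h5

/-- asymptotic theorem, general case -/
theorem poonen_big_asymp {C : ℝ} (hC : C < 3 + √5) : ∃ n₀ : ℕ, ∀ (β : Type) [DecidableEq β]
    (A : Finset (Finset β)), (∀ X ∈ A, ∀ Y ∈ A, X ∪ Y ∈ A) → n₀ ≤ (Big A).card →
    (A.card : ℝ) ≤ C * (Big A).card →
    ∃ x ∈ A.sup id, A.card < 2 * (A.filter (fun X => x ∈ X)).card := by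
  obtain ⟨N₀, hN₀⟩ := numeric hC
  refine ⟨N₀ + 30, ?_⟩
  intro β _ A hA hn hAC
  by_cases hsmall : (A.card : ℝ) < (1 + √5) * ((Big A).card - 2)
  · exact poonen_big hA hsmall
  · push Not at hsmall
    by_contra hcon
    push Not at hcon
    have hnr : (N₀ : ℝ) + 30 ≤ (Big A).card := by exact_mod_cast hn
    have hN0r : (0:ℝ) ≤ N₀ := Nat.cast_nonneg _
    have hs5 : 2.236 < √5 := by
      apply Real.lt_sqrt_of_sq_lt
      norm_num
    have h1 : 3 * ((Big A).card : ℝ) ≤ A.card := by nlinarith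
    have h2 : 3 * (Big A).card ≤ A.card := by exact_mod_cast h1
    obtain ⟨Y, hY, hb⟩ := general_log hA (Big_subset A) (big_cap hA hcon)
      (by omega)
    have h0 := big_outer hY
    have h3 := hN₀ A.card (Big A).card (by omega) hAC h2 (by omega)
    linarith

end Pool.Agent.H61.SF
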