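import Pool.Agent.H61.SWGrowth

set_option autoImplicit false

/-! A vertex-transitive graph which is not unimodular has a height function: the logarithm of the
modular function. -/

namespace Pool.Agent.H61.SW

variable {V : Type*} {G : SimpleGraph V}

/-- the orbit of `v` under the automorphisms fixing `u` -/
def orb (G : SimpleGraph V) (u v : V) : Set V := {w | ∃ φ : G ≃g G, φ u = u ∧ φ v = w}

/-- unimodularity in terms of orbit sizes -/
def Unimod (G : SimpleGraph V) : Prop := ∀ u v, (orb G u v).ncard = (orb G v u).ncard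

/-- the automorphisms fixing `u` -/
def stb (G : SimpleGraph V) (u : V) : Subgroup (G ≃g G) where
  carrier := {φ | φ u = u}
  mul_mem' := by
    intro a b ha hb
    simp only [Set.mem_ofPred_eq] at *
    rw [RelIso.mul_apply, hb, ha]
  one_mem' := by simp
  inv_mem' := by
    intro a ha
    simp only [Set.mem_ofPred_eq] at *
    nth_rewrite 1 [← ha]
    exact RelIso.inv_apply_self a u

lemma mem_stb {u : V} {φ : G ≃g G} : φ ∈ stb G u ↔ φ u = u := Iff.rfl

lemma relIndex_stb (u v : V) : (stb G v).relIndex (stb G u) = (orb G u v).ncard := by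
  have h1 : (stb G v).subgroupOf (stb G u) = MulAction.stabilizer (stb G u) v := by
    ext ⟨φ, hφ⟩
    rw [Subgroup.mem_subgroupOf, MulAction.mem_stabilizer_iff]
    exact Iff.rfl
  have h2 : MulAction.orbit (stb G u) v = orb G u v := by
    ext w
    constructor
    · rintro ⟨⟨φ, hφ⟩, h⟩
      exact ⟨φ, hφ, h⟩
    · rintro ⟨φ, hφ, h⟩
      exact ⟨⟨φ, hφ⟩, h⟩
  rw [Subgroup.relIndex, h1, MulAction.index_stabilizer, h2]

lemma dist_le_map (φ : G ≃g G) (hc : G.Connected) (a b : V) :
    G.dist (φ a) (φ b) ≤ G.dist a b := by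
  obtain ⟨p, hp⟩ := hc.exists_walk_length_eq_dist a b
  rw [← hp]
  have := SimpleGraph.dist_le (p.map φ.toHom)
  simpa using this

lemma orb_finite (hlf : ∀ v, (G.neighborSet v).Finite) (hc : G.Connected) (u v : V) :
    (orb G u v).Finite := by
  have hfin : {w | G.dist u w ≤ G.dist u v}.Finite := by
    have h : {w | G.dist u w ≤ G.dist u v} ⊆ ⋃ n ∈ Finset.range (G.dist u v + 1),
        (fun s => en u s) '' {s : List V | s.length = n ∧ ch G u s} := by
      intro w hw
      obtain ⟨p, hp⟩ := hc.exists_walk_length_eq_dist u w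
      obtain ⟨s, -, h2, h3, h4⟩ := walk_ch p
      simp only [Set.mem_iUnion, Finset.mem_range]
      refine ⟨s.length, ?_, s, ⟨rfl, h2⟩, h3⟩
      have : G.dist u w ≤ G.dist u v := hw
      omega
    refine Set.Finite.subset ?_ h
    exact Set.Finite.biUnion (Finset.finite_toSet _) fun n _ => (fin_ch hlf n u).image _
  refine hfin.subset ?_
  rintro w ⟨φ, h1, rfl⟩
  show G.dist u (φ v) ≤ G.dist u v
  nth_rewrite 1 [← h1]
  exact dist_le_map φ hc u v

lemma orb_pos (hlf : ∀ v, (G.neighborSet v).Finite) (hc : G.Connected) (u v : V) :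
    0 < (orb G u v).ncard := by
  rw [Set.ncard_pos (orb_finite hlf hc u v)]
  exact ⟨v, 1, rfl, rfl⟩

lemma orb_map (φ : G ≃g G) (u v : V) : orb G (φ u) (φ v) = φ '' orb G u v := by
  ext w
  constructor
  · rintro ⟨ψ, h1, h2⟩
    refine ⟨φ⁻¹ (ψ (φ v)), ⟨φ⁻¹ * ψ * φ, ?_, ?_⟩, ?_⟩
    · rw [RelIso.mul_apply, RelIso.mul_apply, h1, RelIso.inv_apply_self]
    · rw [RelIso.mul_apply, RelIso.mul_apply]
    · rw [RelIso.apply_inv_self, h2]
  · rintro ⟨x, ⟨ψ, h1, h2⟩, rfl⟩
    refine ⟨φ * ψ * φ⁻¹, ?_, ?_⟩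
    · rw [RelIso.mul_apply, RelIso.mul_apply, RelIso.inv_apply_self, h1]
    · rw [RelIso.mul_apply, RelIso.mul_apply, RelIso.inv_apply_self, h2]

lemma ncard_orb_map (φ : G ≃g G) (u v : V) :
    (orb G (φ u) (φ v)).ncard = (orb G u v).ncard := by
  rw [orb_map, Set.ncard_image_of_injective _ φ.injective]

/-- the modular ratio -/
noncomputable def mrat (G : SimpleGraph V) (u v : V) : ℝ :=
  ((orb G u v).ncard : ℝ) / (orb G v u).ncard

lemma mrat_map (φ : G ≃g G) (u v : V) : mrat G (φ u) (φ v) = mrat G u v := by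
  unfold mrat; rw [ncard_orb_map, ncard_orb_map]

lemma mrat_pos (hlf : ∀ v, (G.neighborSet v).Finite) (hc : G.Connected) (u v : V) :
    0 < mrat G u v := by
  have h1 := orb_pos hlf hc u v
  have h2 := orb_pos hlf hc v u
  unfold mrat; positivity

lemma group_ratio {Γ : Type*} [Group Γ] (A B J : Subgroup Γ) (hJA : J ≤ A) (hJB : J ≤ B) :
    ((B.relIndex A : ℝ)) * (J.relIndex B) = (A.relIndex B) * (J.relIndex A) := by
  have hJ : J ≤ A ⊓ B := le_inf hJA hJB
  have h1 := Subgroup.relIndex_mul_relIndex J (A ⊓ B) A hJ inf_le_left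
  have h2 := Subgroup.relIndex_mul_relIndex J (A ⊓ B) B hJ inf_le_right
  rw [Subgroup.inf_relIndex_left] at h1
  rw [Subgroup.inf_relIndex_right] at h2
  rw [← h1, ← h2]
  push_cast
  ring

lemma mrat_mul (hlf : ∀ v, (G.neighborSet v).Finite) (hc : G.Connected) (u v w : V) :
    mrat G u v * mrat G v w = mrat G u w := by
  set A := stb G u
  set B := stb G v
  set C := stb G w
  have hpos : ∀ x y, (stb G x).relIndex (stb G y) ≠ 0 := by
    intro x y
    rw [relIndex_stb]
    exact (orb_pos hlf hc y x).ne'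
  set J := A ⊓ B ⊓ C with hJ
  have hJA : J ≤ A := inf_le_left.trans inf_le_left
  have hJB : J ≤ B := inf_le_left.trans inf_le_right
  have hJC : J ≤ C := inf_le_right
  have hJrA : J.relIndex A ≠ 0 :=
    Subgroup.relIndex_inf_ne_zero (Subgroup.relIndex_inf_ne_zero
      (by rw [Subgroup.relIndex_self]; exact one_ne_zero) (hpos v u)) (hpos w u)
  have hJrB : J.relIndex B ≠ 0 :=
    Subgroup.relIndex_inf_ne_zero (Subgroup.relIndex_inf_ne_zero (hpos u v)
      (by rw [Subgroup.relIndex_self]; exact one_ne_zero)) (hpos w v)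
  have hJrC : J.relIndex C ≠ 0 :=
    Subgroup.relIndex_inf_ne_zero (Subgroup.relIndex_inf_ne_zero (hpos u w) (hpos v w))
      (by rw [Subgroup.relIndex_self]; exact one_ne_zero)
  have e1 := group_ratio A B J hJA hJB
  have e2 := group_ratio B C J hJB hJC
  have e3 := group_ratio A C J hJA hJC
  unfold mrat
  rw [← relIndex_stb u v, ← relIndex_stb v u, ← relIndex_stb v w, ← relIndex_stb w v,
    ← relIndex_stb u w, ← relIndex_stb w u]
  have f1 : (A.relIndex B : ℝ) ≠ 0 := by exact_mod_cast hpos u v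
  have f2 : (B.relIndex C : ℝ) ≠ 0 := by exact_mod_cast hpos v w
  have f3 : (A.relIndex C : ℝ) ≠ 0 := by exact_mod_cast hpos u w
  have g1 : (J.relIndex A : ℝ) ≠ 0 := by exact_mod_cast hJrA
  have g2 : (J.relIndex B : ℝ) ≠ 0 := by exact_mod_cast hJrB
  have g3 : (J.relIndex C : ℝ) ≠ 0 := by exact_mod_cast hJrC
  have k1 : (B.relIndex A : ℝ) / A.relIndex B = J.relIndex A / J.relIndex B := by
    rw [div_eq_div_iff f1 g2, e1]; ring
  have k2 : (C.relIndex B : ℝ) / B.relIndex C = J.relIndex B / J.relIndex C := by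
    rw [div_eq_div_iff f2 g3, e2]; ring
  have k3 : (C.relIndex A : ℝ) / A.relIndex C = J.relIndex A / J.relIndex C := by
    rw [div_eq_div_iff f3 g3, e3]; ring
  rw [show ((stb G v).relIndex (stb G u) : ℝ) / (stb G u).relIndex (stb G v) =
      (B.relIndex A : ℝ) / A.relIndex B from rfl,
    show ((stb G w).relIndex (stb G v) : ℝ) / (stb G v).relIndex (stb G w) =
      (C.relIndex B : ℝ) / B.relIndex C from rfl,
    show ((stb G w).relIndex (stb G u) : ℝ) / (stb G u).relIndex (stb G w) =
      (C.relIndex A : ℝ) / A.relIndex C from rfl, k1, k2, k3]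
  field_simp

lemma mrat_symm (u v : V) : mrat G v u = (mrat G u v)⁻¹ := by
  unfold mrat; rw [inv_div]

/-- a transitive graph which is not unimodular has a height function -/
theorem hasHeight_of_not_unimod (hlf : ∀ v, (G.neighborSet v).Finite) (hc : G.Connected)
    (htr : ∀ u v, ∃ φ : G ≃g G, φ u = v) (hnu : ¬ Unimod G) :
    ∃ h : V → ℝ, HasHeight G h := by
  unfold Unimod at hnu
  push Not at hnu
  obtain ⟨o, y, hoy⟩ := hnu
  refine ⟨fun x => Real.log (mrat G o x), ⟨o, y, ?_⟩, fun u v => ?_⟩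
  · have h1 : mrat G o o = 1 := by
      unfold mrat
      have := orb_pos hlf hc o o
      rw [div_self]
      exact_mod_cast this.ne'
    show Real.log (mrat G o o) ≠ Real.log (mrat G o y)
    rw [h1, Real.log_one]
    intro h2
    have h3 := Real.eq_one_of_pos_of_log_eq_zero (mrat_pos hlf hc o y) h2.symm
    unfold mrat at h3
    have h4 := orb_pos hlf hc y o
    rw [div_eq_one_iff_eq (by exact_mod_cast h4.ne')] at h3
    exact hoy (by exact_mod_cast h3)
  · obtain ⟨φ, hφ⟩ := htr u v
    refine ⟨φ, hφ, fun x z => ?_⟩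
    have key : ∀ a b, Real.log (mrat G o a) - Real.log (mrat G o b) =
        Real.log (mrat G b a) := by
      intro a b
      rw [← mrat_mul hlf hc o b a, Real.log_mul (mrat_pos hlf hc o b).ne'
        (mrat_pos hlf hc b a).ne']
      ring
    simp only
    rw [key, key, mrat_map]

end Pool.Agent.H61.SW
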