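import Mathlib

set_option autoImplicit false

/-! Step lists: a walk from `v` is stored as the list `s` of the vertices after `v`. -/

namespace Pool.Agent.H61.SW

variable {V : Type*}

/-- last vertex of the walk `v :: s` -/
def en : V → List V → V
  | v, [] => v
  | _, a :: s => en a s

/-- consecutive vertices of `v :: s` are adjacent -/
def ch (G : SimpleGraph V) : V → List V → Prop
  | _, [] => True
  | v, a :: s => G.Adj v a ∧ ch G a s

/-- steps of the reversed walk -/
def rv : V → List V → List V
  | _, [] => []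
  | v, a :: s => rv a s ++ [v]

@[simp] lemma en_nil (v : V) : en v [] = v := rfl
@[simp] lemma en_cons (v a : V) (s : List V) : en v (a :: s) = en a s := rfl

lemma en_append (v : V) (s t : List V) : en v (s ++ t) = en (en v s) t := by
  induction s generalizing v with
  | nil => rfl
  | cons a s ih => simpa using ih a

lemma en_mem (v : V) (s : List V) (hs : s ≠ []) : en v s ∈ s := by
  induction s generalizing v with
  | nil => exact absurd rfl hs
  | cons a s ih =>
    by_cases h : s = []
    · subst h; simp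
    · simpa using Or.inr (ih a h)

lemma en_mem_cons (v : V) (s : List V) : en v s ∈ v :: s := by
  by_cases hs : s = []
  · subst hs; simp
  · exact List.mem_cons_of_mem _ (en_mem v s hs)

variable {G : SimpleGraph V}

lemma ch_append (v : V) (s t : List V) : ch G v (s ++ t) ↔ ch G v s ∧ ch G (en v s) t := by
  induction s generalizing v with
  | nil => simp [ch]
  | cons a s ih => simp [ch, ih a, and_assoc]

lemma cons_rv (v : V) (s : List V) : en v s :: rv v s = (v :: s).reverse := by
  induction s generalizing v with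
  | nil => simp [rv]
  | cons a s ih =>
    rw [List.reverse_cons, ← ih a]; simp [rv]

lemma length_rv (v : V) (s : List V) : (rv v s).length = s.length := by
  have := congrArg List.length (cons_rv v s)
  simpa using this

lemma mem_rv {v x : V} {s : List V} : x ∈ en v s :: rv v s ↔ x ∈ v :: s := by
  rw [cons_rv, List.mem_reverse]

lemma en_rv (v : V) (s : List V) : en (en v s) (rv v s) = v := by
  induction s generalizing v with
  | nil => rfl
  | cons a s ih => simp [rv, en_append]

lemma ch_rv (v : V) (s : List V) (h : ch G v s) : ch G (en v s) (rv v s) := by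
  induction s generalizing v with
  | nil => trivial
  | cons a s ih =>
    obtain ⟨h1, h2⟩ := h
    simp only [en_cons, rv, ch_append, en_rv]
    exact ⟨ih a h2, h1.symm, trivial⟩

lemma rv_append (v : V) (s t : List V) : rv v (s ++ t) = rv (en v s) t ++ rv v s := by
  induction s generalizing v with
  | nil => simp [rv]
  | cons a s ih => simp [rv, ih a]

lemma rv_rv (v : V) (s : List V) : rv (en v s) (rv v s) = s := by
  have h1 := cons_rv (en v s) (rv v s)
  rw [cons_rv v s, List.reverse_reverse, en_rv] at h1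
  exact (List.cons.inj h1).2

/-- self-avoiding -/
def sa (G : SimpleGraph V) (v : V) (s : List V) : Prop := ch G v s ∧ (v :: s).Nodup

lemma sa_nil (v : V) : sa G v [] := ⟨trivial, by simp⟩

lemma sa_rv (v : V) (s : List V) (h : sa G v s) : sa G (en v s) (rv v s) := by
  refine ⟨ch_rv v s h.1, ?_⟩
  rw [cons_rv]; exact List.nodup_reverse.2 h.2

lemma mem_cons_of_split {v x : V} {s t : List V} (h : x ∈ en v s :: t) : x ∈ v :: (s ++ t) := by
  rcases List.mem_cons.1 h with rfl | h
  · rcases List.mem_cons.1 (en_mem_cons v s) with h | h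
    · rw [h]; simp
    · exact List.mem_cons_of_mem _ (List.mem_append_left _ h)
  · exact List.mem_cons_of_mem _ (List.mem_append_right _ h)

lemma sa_append_left {v : V} {s t : List V} (h : sa G v (s ++ t)) : sa G v s := by
  refine ⟨((ch_append v s t).1 h.1).1, ?_⟩
  have := h.2
  rw [← List.cons_append] at this
  exact (List.nodup_append.1 this).1

lemma nodup_en_cons {v : V} {s t : List V} (h : (v :: (s ++ t)).Nodup) : (en v s :: t).Nodup := by
  rw [← List.cons_append, List.nodup_append] at h
  rw [List.nodup_cons]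
  exact ⟨fun h2 => h.2.2 _ (en_mem_cons v s) _ h2 rfl, h.2.1⟩

lemma sa_append_right {v : V} {s t : List V} (h : sa G v (s ++ t)) : sa G (en v s) t :=
  ⟨((ch_append v s t).1 h.1).2, nodup_en_cons h.2⟩

/-- number of step lists of length `n` from `v` with property `P` -/
noncomputable def cnt (P : V → List V → Prop) (v : V) (n : ℕ) : ℕ :=
  Set.ncard {s : List V | s.length = n ∧ P v s}

lemma fin_ch (hlf : ∀ v, (G.neighborSet v).Finite) (n : ℕ) (v : V) :
    {s : List V | s.length = n ∧ ch G v s}.Finite := by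
  induction n generalizing v with
  | zero =>
    refine (Set.finite_singleton []).subset ?_
    rintro s ⟨hs, -⟩
    simpa using List.length_eq_zero_iff.1 hs
  | succ n ih =>
    have : {s : List V | s.length = n + 1 ∧ ch G v s} ⊆
        ⋃ a ∈ G.neighborSet v, (fun s => a :: s) '' {s : List V | s.length = n ∧ ch G a s} := by
      rintro s ⟨hs, hc⟩
      cases s with
      | nil => simp at hs
      | cons a s =>
        simp only [Set.mem_iUnion]
        exact ⟨a, hc.1, s, ⟨by simpa using hs, hc.2⟩, rfl⟩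
    exact ((hlf v).biUnion fun a _ => (ih a).image _).subset this

lemma fin_of_imp (hlf : ∀ v, (G.neighborSet v).Finite) {P : V → List V → Prop}
    (hP : ∀ v s, P v s → ch G v s) (n : ℕ) (v : V) :
    {s : List V | s.length = n ∧ P v s}.Finite :=
  (fin_ch hlf n v).subset fun _ hs => ⟨hs.1, hP _ _ hs.2⟩

/-- product upper bound -/
lemma ncard_split_le (P Q : V → List V → Prop) (v : V) (l m : ℕ) (a b : ℝ) (hb : 0 ≤ b)
    (hfP : {s : List V | s.length = l ∧ P v s}.Finite)
    (hPa : (cnt P v l : ℝ) ≤ a)
    (hQb : ∀ x, (cnt Q x m : ℝ) ≤ b) :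
    ((Set.ncard {s : List V | ∃ s1 s2, s = s1 ++ s2 ∧ s1.length = l ∧ P v s1 ∧ s2.length = m ∧
      Q (en v s1) s2} : ℕ) : ℝ) ≤ a * b := by
  classical
  set F := hfP.toFinset with hF
  have hsub : {s : List V | ∃ s1 s2, s = s1 ++ s2 ∧ s1.length = l ∧ P v s1 ∧ s2.length = m ∧
      Q (en v s1) s2} =
      ⋃ s1 ∈ F, (fun s2 => s1 ++ s2) '' {s2 : List V | s2.length = m ∧ Q (en v s1) s2} := by
    ext s
    simp only [Set.mem_ofPred_eq, Set.mem_iUnion, Set.mem_image, hF, Set.Finite.mem_toFinset]
    constructor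
    · rintro ⟨s1, s2, rfl, h1, h2, h3, h4⟩
      exact ⟨s1, ⟨h1, h2⟩, s2, ⟨h3, h4⟩, rfl⟩
    · rintro ⟨s1, ⟨h1, h2⟩, s2, ⟨h3, h4⟩, rfl⟩
      exact ⟨s1, s2, rfl, h1, h2, h3, h4⟩
  rw [hsub]
  have h1 : (Set.ncard (⋃ s1 ∈ F, (fun s2 => s1 ++ s2) ''
      {s2 : List V | s2.length = m ∧ Q (en v s1) s2}) : ℝ) ≤
      ∑ s1 ∈ F, (cnt Q (en v s1) m : ℝ) := by
    have h2 := Finset.set_ncard_biUnion_le F (fun s1 => (fun s2 => s1 ++ s2) ''
      {s2 : List V | s2.length = m ∧ Q (en v s1) s2})
    calc _ ≤ ((∑ s1 ∈ F, ((fun s2 => s1 ++ s2) ''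
      {s2 : List V | s2.length = m ∧ Q (en v s1) s2}).ncard : ℕ) : ℝ) := by exact_mod_cast h2
      _ = ∑ s1 ∈ F, (cnt Q (en v s1) m : ℝ) := by
        push_cast
        refine Finset.sum_congr rfl fun s1 _ => ?_
        rw [Set.ncard_image_of_injective _ (fun x y hxy => List.append_cancel_left hxy)]
        rfl
  refine h1.trans ?_
  calc ∑ s1 ∈ F, (cnt Q (en v s1) m : ℝ) ≤ ∑ s1 ∈ F, b := Finset.sum_le_sum fun s1 _ => hQb _
    _ = (F.card : ℝ) * b := by simp
    _ ≤ a * b := by
      refine mul_le_mul_of_nonneg_right ?_ hb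
      have : F.card = cnt P v l := by
        rw [cnt, Set.ncard_eq_toFinset_card _ hfP]
      rw [this]; exact hPa

/-- product lower bound -/
lemma cnt_mul_le (P Q R : V → List V → Prop) (v : V) (l m : ℕ) (b : ℕ)
    (hfP : {s : List V | s.length = l ∧ P v s}.Finite)
    (hfR : {s : List V | s.length = l + m ∧ R v s}.Finite)
    (hQb : ∀ s, P v s → cnt Q (en v s) m = b)
    (hR : ∀ s t, P v s → Q (en v s) t → R v (s ++ t)) :
    cnt P v l * b ≤ cnt R v (l + m) := by
  classical
  by_cases hb : b = 0
  · subst hb; simp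
  have hfQ : ∀ s, P v s → {t : List V | t.length = m ∧ Q (en v s) t}.Finite := fun s hs =>
    Set.finite_of_ncard_ne_zero (by rw [show Set.ncard _ = b from hQb s hs]; exact hb)
  let F : List V → Finset (List V) := fun s =>
    if h : P v s then (hfQ s h).toFinset else ∅
  have hFm : ∀ s t, t ∈ F s → P v s → t.length = m ∧ Q (en v s) t := by
    intro s t ht hs
    simp only [F, dif_pos hs, Set.Finite.mem_toFinset, Set.mem_ofPred_eq] at ht
    exact ht
  have h1 : cnt P v l * b = (hfP.toFinset.sigma F).card := by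
    rw [Finset.card_sigma]
    have : ∀ s1 ∈ hfP.toFinset, (F s1).card = b := fun s1 hs1 => by
      have hs1' : P v s1 := ((Set.Finite.mem_toFinset hfP).1 hs1).2
      simp only [F, dif_pos hs1']
      rw [← Set.ncard_eq_toFinset_card _ (hfQ s1 hs1')]; exact hQb _ hs1'
    rw [Finset.sum_congr rfl this]
    simp [cnt, Set.ncard_eq_toFinset_card _ hfP]
  rw [h1, cnt, Set.ncard_eq_toFinset_card _ hfR]
  refine Finset.card_le_card_of_injOn (fun p => p.1 ++ p.2) ?_ ?_
  · rintro ⟨s, t⟩ hst
    simp only [Finset.coe_sigma, Set.mem_sigma_iff, Finset.mem_coe, Set.Finite.mem_toFinset,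
      Set.mem_ofPred_eq] at hst
    obtain ⟨⟨h2, h3⟩, h4⟩ := hst
    have h5 := hFm s t h4 h3
    simp only [Finset.mem_coe, Set.Finite.mem_toFinset, Set.mem_ofPred_eq, List.length_append]
    exact ⟨by rw [h2, h5.1], hR s t h3 h5.2⟩
  · rintro ⟨s, t⟩ hst ⟨s', t'⟩ hst' heq
    simp only [Finset.coe_sigma, Set.mem_sigma_iff, Finset.mem_coe, Set.Finite.mem_toFinset,
      Set.mem_ofPred_eq] at hst hst'
    simp only at heq
    obtain ⟨h1, h2⟩ := List.append_inj heq (by rw [hst.1.1, hst'.1.1])
    subst h1; subst h2; rfl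

/-! automorphisms -/

lemma en_map {W : Type*} (f : V → W) (v : V) (s : List V) : en (f v) (s.map f) = f (en v s) := by
  induction s generalizing v with
  | nil => rfl
  | cons a s ih => simpa using ih a

lemma ch_map (φ : G ≃g G) (v : V) (s : List V) : ch G (φ v) (s.map φ) ↔ ch G v s := by
  induction s generalizing v with
  | nil => simp [ch]
  | cons a s ih => simp [ch, ih a, φ.map_adj_iff]

lemma sa_map (φ : G ≃g G) (v : V) (s : List V) : sa G (φ v) (s.map φ) ↔ sa G v s := by
  unfold sa
  rw [ch_map, ← List.map_cons, List.nodup_map_iff φ.injective]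

lemma cnt_map (P : V → List V → Prop) (φ : G ≃g G) (v : V)
    (hP : ∀ s, P (φ v) (s.map φ) ↔ P v s) (n : ℕ) : cnt P (φ v) n = cnt P v n := by
  unfold cnt
  have : {s : List V | s.length = n ∧ P (φ v) s} =
      (List.map φ) '' {s : List V | s.length = n ∧ P v s} := by
    ext s
    simp only [Set.mem_ofPred_eq, Set.mem_image]
    constructor
    · rintro ⟨h1, h2⟩
      refine ⟨s.map φ.symm, ⟨by simpa using h1, ?_⟩, ?_⟩
      · rw [← hP]; simpa [Function.comp_def] using h2
      · simp [Function.comp_def]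
    · rintro ⟨t, ⟨h1, h2⟩, rfl⟩
      exact ⟨by simpa using h1, (hP t).2 h2⟩
  rw [this, Set.ncard_image_of_injective _ (List.map_injective_iff.2 φ.injective)]

end Pool.Agent.H61.SW
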