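import Pool.Agent.H61.SWBase

set_option autoImplicit false

/-! Weak bridges, decomposition of self-avoiding walks into few weak bridges, counting. -/

namespace Pool.Agent.H61.SW

variable {V : Type*} {G : SimpleGraph V}

/-- weak bridge: the start is lowest, the end is highest -/
def wb (G : SimpleGraph V) (h : V → ℝ) (v : V) (s : List V) : Prop :=
  sa G v s ∧ ∀ x ∈ s, h v ≤ h x ∧ h x ≤ h (en v s)

/-- weak bridge for `h` or for `-h` -/
def br (G : SimpleGraph V) (h : V → ℝ) (v : V) (s : List V) : Prop :=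
  wb G h v s ∨ wb G (-h) v s

/-- concatenation of at most `k` weak bridges -/
def dec (G : SimpleGraph V) (h : V → ℝ) : ℕ → V → List V → Prop
  | 0, _, s => s = []
  | k + 1, v, s => ∃ s1 s2, s = s1 ++ s2 ∧ br G h v s1 ∧ dec G h k (en v s1) s2

lemma br_nil (h : V → ℝ) (v : V) : br G h v [] := Or.inl ⟨sa_nil v, by simp⟩

lemma dec_nil (h : V → ℝ) (k : ℕ) (v : V) : dec G h k v [] := by
  induction k generalizing v with
  | zero => rfl
  | succ k ih => exact ⟨[], [], rfl, br_nil h v, ih _⟩

lemma dec_succ {h : V → ℝ} {k : ℕ} {v : V} {s : List V} (hd : dec G h k v s) :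
    dec G h (k + 1) v s := ⟨[], s, rfl, br_nil h v, hd⟩

lemma dec_mono {h : V → ℝ} {k m : ℕ} (hkm : k ≤ m) {v : V} {s : List V} (hd : dec G h k v s) :
    dec G h m v s := by
  induction hkm with
  | refl => exact hd
  | step _ ih => exact dec_succ ih

lemma dec_append {h : V → ℝ} {k m : ℕ} {v : V} {s t : List V} (hs : dec G h k v s)
    (ht : dec G h m (en v s) t) : dec G h (k + m) v (s ++ t) := by
  induction k generalizing v s with
  | zero =>
    have : s = [] := hs
    subst this
    simpa using ht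
  | succ k ih =>
    obtain ⟨s1, s2, rfl, h1, h2⟩ := hs
    rw [en_append] at ht
    rw [show k + 1 + m = (k + m) + 1 by ring, List.append_assoc]
    exact ⟨s1, s2 ++ t, rfl, h1, ih h2 ht⟩

lemma wb_rv {h : V → ℝ} {v : V} {s : List V} (hs : wb G h v s) :
    wb G (-h) (en v s) (rv v s) := by
  refine ⟨sa_rv v s hs.1, fun x hx => ?_⟩
  rw [en_rv]
  have hx' : x ∈ v :: s := mem_rv.1 (List.mem_cons_of_mem _ hx)
  have hve : h v ≤ h (en v s) := by
    rcases List.mem_cons.1 (en_mem_cons v s) with h1 | h1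
    · rw [h1]
    · exact (hs.2 _ h1).1
  simp only [Pi.neg_apply, neg_le_neg_iff]
  rcases List.mem_cons.1 hx' with rfl | h1
  · exact ⟨hve, le_rfl⟩
  · exact ⟨(hs.2 x h1).2, (hs.2 x h1).1⟩

lemma br_rv {h : V → ℝ} {v : V} {s : List V} (hs : br G h v s) :
    br G h (en v s) (rv v s) := by
  rcases hs with h1 | h1
  · exact Or.inr (wb_rv h1)
  · left; simpa using wb_rv h1

lemma dec_rv {h : V → ℝ} {k : ℕ} {v : V} {s : List V} (hs : dec G h k v s) :
    dec G h k (en v s) (rv v s) := by
  induction k generalizing v s with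
  | zero =>
    have : s = [] := hs
    subst this
    rfl
  | succ k ih =>
    obtain ⟨s1, s2, rfl, h1, h2⟩ := hs
    rw [rv_append, en_append]
    refine dec_append (ih h2) ?_
    rw [en_rv]
    exact ⟨rv v s1, [], by simp, br_rv h1, rfl⟩

lemma br_neg {h : V → ℝ} {v : V} {s : List V} : br G (-h) v s ↔ br G h v s := by
  unfold br; rw [neg_neg]; exact or_comm

lemma dec_neg {h : V → ℝ} {k : ℕ} {v : V} {s : List V} : dec G (-h) k v s ↔ dec G h k v s := by
  induction k generalizing v s with
  | zero => exact Iff.rfl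
  | succ k ih => simp only [dec, br_neg, ih]

/-- split at the last maximum -/
lemma last_max (h : V → ℝ) (v : V) (s : List V) (hs : s ≠ []) :
    ∃ s1 s2, s = s1 ++ s2 ∧ s1 ≠ [] ∧ (∀ x ∈ s1, h x ≤ h (en v s1)) ∧
      ∀ x ∈ s2, h x < h (en v s1) := by
  induction s generalizing v with
  | nil => exact absurd rfl hs
  | cons a s ih =>
    by_cases hs' : s = []
    · subst hs'
      exact ⟨[a], [], rfl, by simp, by simp, by simp⟩
    obtain ⟨s1, s2, rfl, h1, h2, h3⟩ := ih a hs'
    by_cases hc : h a ≤ h (en a s1)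
    · refine ⟨a :: s1, s2, rfl, by simp, ?_, ?_⟩
      · intro x hx
        rcases List.mem_cons.1 hx with rfl | hx
        · exact hc
        · exact h2 x hx
      · exact h3
    · push Not at hc
      refine ⟨[a], s1 ++ s2, rfl, by simp, by simp, ?_⟩
      intro x hx
      simp only [en_cons, en_nil]
      rcases List.mem_append.1 hx with hx | hx
      · exact (h2 x hx).trans_lt hc
      · exact (h3 x hx).trans hc

/-- split at a minimum -/
lemma some_min (h : V → ℝ) (v : V) (s : List V) :
    ∃ s1 s2, s = s1 ++ s2 ∧ ∀ x ∈ v :: s, h (en v s1) ≤ h x := by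
  induction s generalizing v with
  | nil => exact ⟨[], [], rfl, by simp⟩
  | cons a s ih =>
    obtain ⟨s1, s2, rfl, h1⟩ := ih a
    by_cases hc : h (en a s1) ≤ h v
    · refine ⟨a :: s1, s2, rfl, fun x hx => ?_⟩
      rcases List.mem_cons.1 hx with rfl | hx
      · exact hc
      · exact h1 x hx
    · push Not at hc
      refine ⟨[], a :: (s1 ++ s2), rfl, fun x hx => ?_⟩
      rcases List.mem_cons.1 hx with rfl | hx
      · exact le_rfl
      · exact hc.le.trans (h1 x hx)

section decomposition

variable {h : V → ℝ} {T : Finset ℝ} {L : ℕ}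

lemma strict_dec (hL : 0 < L)
    (hT : ∀ v s, ch G v s → s.length < L → |h (en v s) - h v| ∈ T) :
    ∀ n : ℕ, ∀ g : V → ℝ, (g = h ∨ g = -h) → ∀ v s, s.length = n → sa G v s → ∀ S : ℝ,
      (∀ x ∈ s, g v < g x ∧ g x - g v < S) →
      dec G h ((T.filter (· < S)).card + n / L) v s := by
  classical
  intro n
  induction n using Nat.strong_induction_on with
  | _ n ih =>
  intro g hg v s hn hs S hS
  by_cases hs0 : s = []
  · subst hs0; exact dec_nil _ _ _
  obtain ⟨s1, s2, rfl, h1, h2, h3⟩ := last_max g v s hs0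
  have hbr : br G h v s1 := by
    have hw : wb G g v s1 := ⟨sa_append_left hs, fun x hx =>
      ⟨(hS x (List.mem_append_left _ hx)).1.le, h2 x hx⟩⟩
    rcases hg with rfl | rfl
    · exact Or.inl hw
    · exact Or.inr hw
  have hx0 : en v s1 ∈ s1 := en_mem v s1 h1
  have hlen : 0 < s1.length := List.length_pos_iff.2 h1
  have hn' : s1.length + s2.length = n := by simpa using hn
  set S1 : ℝ := g (en v s1) - g v with hS1
  have hS1S : S1 < S := (hS _ (List.mem_append_left _ hx0)).2
  have hS1pos : 0 < S1 := sub_pos.2 (hS _ (List.mem_append_left _ hx0)).1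
  have hrest : dec G h ((T.filter (· < S1)).card + s2.length / L) (en v s1) s2 := by
    refine ih s2.length (by omega) (-g) ?_ (en v s1) s2 rfl (sa_append_right hs) S1 ?_
    · rcases hg with rfl | rfl
      · exact Or.inr rfl
      · left; rw [neg_neg]
    · intro x hx
      have hgx := h3 x hx
      have hvx := (hS x (List.mem_append_right _ hx)).1
      simp only [Pi.neg_apply]
      constructor
      · linarith
      · rw [hS1]; linarith
  have hstep : dec G h (1 + ((T.filter (· < S1)).card + s2.length / L)) v (s1 ++ s2) := by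
    rw [add_comm 1]
    exact ⟨s1, s2, rfl, hbr, hrest⟩
  refine dec_mono ?_ hstep
  by_cases hc : s1.length < L
  · have hmem : S1 ∈ T := by
      have := hT v s1 (sa_append_left hs).1 hc
      have habs : |h (en v s1) - h v| = S1 := by
        rcases hg with rfl | rfl
        · rw [abs_of_pos]; exact hS1pos
        · simp only [Pi.neg_apply] at hS1
          have : h (en v s1) - h v = -S1 := by rw [hS1]; ring
          rw [this, abs_neg, abs_of_pos hS1pos]
      rwa [habs] at this
    have hlt : (T.filter (· < S1)).card < (T.filter (· < S)).card := by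
      apply Finset.card_lt_card
      rw [Finset.ssubset_iff_of_subset]
      · exact ⟨S1, by simp [hmem, hS1S], by simp⟩
      · intro x hx
        simp only [Finset.mem_filter] at hx ⊢
        exact ⟨hx.1, hx.2.trans hS1S⟩
    have hdiv : s2.length / L ≤ n / L := Nat.div_le_div_right (by omega)
    omega
  · push Not at hc
    have hle : (T.filter (· < S1)).card ≤ (T.filter (· < S)).card := by
      apply Finset.card_le_card
      intro x hx
      simp only [Finset.mem_filter] at hx ⊢
      exact ⟨hx.1, hx.2.trans hS1S⟩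
    have hdiv : s2.length / L + 1 ≤ n / L := by
      rw [← Nat.add_div_right _ hL]
      exact Nat.div_le_div_right (by omega)
    omega

lemma weak_dec (hL : 0 < L)
    (hT : ∀ v s, ch G v s → s.length < L → |h (en v s) - h v| ∈ T)
    (v : V) (s : List V) (hs : sa G v s) (hmin : ∀ x ∈ s, h v ≤ h x) :
    dec G h (T.card + s.length / L + 1) v s := by
  classical
  by_cases hs0 : s = []
  · subst hs0; exact dec_nil _ _ _
  obtain ⟨s1, s2, rfl, h1, h2, h3⟩ := last_max h v s hs0
  have hw : wb G h v s1 := ⟨sa_append_left hs, fun x hx =>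
      ⟨hmin x (List.mem_append_left _ hx), h2 x hx⟩⟩
  have hrest := strict_dec hL hT s2.length (-h) (Or.inr rfl) (en v s1) s2 rfl
    (sa_append_right hs) (h (en v s1) - h v + 1) (by
      intro x hx
      have hgx := h3 x hx
      have hvx := hmin x (List.mem_append_right _ hx)
      simp only [Pi.neg_apply]
      constructor
      · linarith
      · linarith)
  refine dec_mono ?_ (show dec G h (_ + 1) v (s1 ++ s2) from ⟨s1, s2, rfl, Or.inl hw, hrest⟩)
  have h4 : (T.filter (· < h (en v s1) - h v + 1)).card ≤ T.card := Finset.card_filter_le _ _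
  have h5 : s2.length / L ≤ (s1 ++ s2).length / L := Nat.div_le_div_right (by simp)
  omega

lemma sa_dec (hL : 0 < L)
    (hT : ∀ v s, ch G v s → s.length < L → |h (en v s) - h v| ∈ T)
    (v : V) (s : List V) (hs : sa G v s) :
    dec G h (2 * T.card + 2 + s.length / L) v s := by
  obtain ⟨s1, s2, rfl, hmin⟩ := some_min h v s
  have hb := weak_dec hL hT (en v s1) s2 (sa_append_right hs)
    (fun x hx => hmin x (List.mem_cons_of_mem _ (List.mem_append_right _ hx)))
  have ha := weak_dec hL hT (en v s1) (rv v s1) (sa_rv _ _ (sa_append_left hs))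
    (fun x hx => by
      have : x ∈ v :: s1 := mem_rv.1 (List.mem_cons_of_mem _ hx)
      apply hmin
      rcases List.mem_cons.1 this with rfl | h1
      · simp
      · exact List.mem_cons_of_mem _ (List.mem_append_left _ h1))
  have ha' := dec_rv ha
  rw [rv_rv, en_rv, length_rv] at ha'
  refine dec_mono ?_ (dec_append ha' hb)
  have : s1.length / L + s2.length / L ≤ (s1 ++ s2).length / L := by
    rw [List.length_append]
    exact Nat.div_add_div_le_add_div
  omega

end decomposition

section counting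

variable {h : V → ℝ}

lemma wb_ch {v : V} {s : List V} (hs : wb G h v s) : ch G v s := hs.1.1

lemma dec_ch {k : ℕ} {v : V} {s : List V} (hs : dec G h k v s) : ch G v s := by
  induction k generalizing v s with
  | zero =>
    have : s = [] := hs
    subst this; trivial
  | succ k ih =>
    obtain ⟨s1, s2, rfl, h1, h2⟩ := hs
    rw [ch_append]
    refine ⟨?_, ih h2⟩
    rcases h1 with h1 | h1
    · exact h1.1.1
    · exact h1.1.1

lemma cnt_dec (hlf : ∀ v, (G.neighborSet v).Finite) (c m δ : ℝ) (hc : 0 ≤ c) (hm : 0 ≤ m)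
    (hδ : 0 < δ) (hδ1 : δ < 1)
    (h1 : ∀ v l, (cnt (wb G h) v l : ℝ) ≤ c * m ^ l)
    (h2 : ∀ v l, (cnt (wb G (-h)) v l : ℝ) ≤ c * m ^ l) (k n : ℕ) (v : V) :
    (cnt (dec G h k) v n : ℝ) ≤ (2 * c / δ) ^ k * (m / (1 - δ)) ^ n := by
  classical
  have hq : 0 ≤ m / (1 - δ) := div_nonneg hm (by linarith)
  have hp : 0 ≤ 2 * c / δ := by positivity
  induction k generalizing n v with
  | zero =>
    rcases n with _ | n
    · have : cnt (dec G h 0) v 0 ≤ 1 := by
        unfold cnt
        have hsub : {s : List V | s.length = 0 ∧ dec G h 0 v s} ⊆ {[]} := by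
          rintro s ⟨hs, -⟩
          simpa using List.length_eq_zero_iff.1 hs
        simpa using Set.ncard_le_ncard hsub
      simpa using (by exact_mod_cast this : (cnt (dec G h 0) v 0 : ℝ) ≤ 1)
    · have : cnt (dec G h 0) v (n + 1) = 0 := by
        unfold cnt
        have hsub : {s : List V | s.length = n + 1 ∧ dec G h 0 v s} = ∅ := by
          ext s
          simp only [Set.mem_ofPred_eq, Set.mem_empty_iff_false, iff_false, not_and]
          intro hs hd
          have : s = [] := hd
          subst this; simp at hs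
        rw [hsub]; simp
      rw [this]
      have := pow_nonneg hq (n + 1)
      simpa using this
  | succ k ih =>
    have hsub : {s : List V | s.length = n ∧ dec G h (k + 1) v s} ⊆
        ⋃ l ∈ Finset.range (n + 1),
          ({s : List V | ∃ s1 s2, s = s1 ++ s2 ∧ s1.length = l ∧ wb G h v s1 ∧
              s2.length = n - l ∧ dec G h k (en v s1) s2} ∪
           {s : List V | ∃ s1 s2, s = s1 ++ s2 ∧ s1.length = l ∧ wb G (-h) v s1 ∧
              s2.length = n - l ∧ dec G h k (en v s1) s2}) := by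
      rintro s ⟨hn, s1, s2, rfl, hb, hd⟩
      have hn' : s1.length + s2.length = n := by simpa using hn
      simp only [Set.mem_iUnion, Finset.mem_range]
      refine ⟨s1.length, by omega, ?_⟩
      rcases hb with hb | hb
      · exact Or.inl ⟨s1, s2, rfl, rfl, hb, by omega, hd⟩
      · exact Or.inr ⟨s1, s2, rfl, rfl, hb, by omega, hd⟩
    have hfin : (⋃ l ∈ Finset.range (n + 1),
          ({s : List V | ∃ s1 s2, s = s1 ++ s2 ∧ s1.length = l ∧ wb G h v s1 ∧
              s2.length = n - l ∧ dec G h k (en v s1) s2} ∪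
           {s : List V | ∃ s1 s2, s = s1 ++ s2 ∧ s1.length = l ∧ wb G (-h) v s1 ∧
              s2.length = n - l ∧ dec G h k (en v s1) s2})).Finite := by
      refine (fin_ch hlf n v).subset ?_
      intro s hs
      simp only [Set.mem_iUnion, Finset.mem_range] at hs
      obtain ⟨l, hl, hs⟩ := hs
      rcases hs with ⟨s1, s2, rfl, h3, h4, h5, h6⟩ | ⟨s1, s2, rfl, h3, h4, h5, h6⟩
      · refine ⟨by rw [List.length_append, h3, h5]; omega, (ch_append _ _ _).2 ⟨h4.1.1, dec_ch h6⟩⟩
      · refine ⟨by rw [List.length_append, h3, h5]; omega, (ch_append _ _ _).2 ⟨h4.1.1, dec_ch h6⟩⟩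
    have hle : (cnt (dec G h (k + 1)) v n : ℝ) ≤ ∑ l ∈ Finset.range (n + 1),
        2 * ((c * m ^ l) * ((2 * c / δ) ^ k * (m / (1 - δ)) ^ (n - l))) := by
      have e1 := Set.ncard_le_ncard hsub hfin
      have e2 := e1.trans (Finset.set_ncard_biUnion_le _ _)
      have e3 : (cnt (dec G h (k + 1)) v n : ℝ) ≤ ∑ l ∈ Finset.range (n + 1),
          ((({s : List V | ∃ s1 s2, s = s1 ++ s2 ∧ s1.length = l ∧ wb G h v s1 ∧
              s2.length = n - l ∧ dec G h k (en v s1) s2} ∪
           {s : List V | ∃ s1 s2, s = s1 ++ s2 ∧ s1.length = l ∧ wb G (-h) v s1 ∧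
              s2.length = n - l ∧ dec G h k (en v s1) s2}).ncard : ℕ) : ℝ) := by
        exact_mod_cast e2
      refine e3.trans (Finset.sum_le_sum fun l hl => ?_)
      have hb0 : 0 ≤ (2 * c / δ) ^ k * (m / (1 - δ)) ^ (n - l) := by positivity
      have f1 := ncard_split_le (wb G h) (dec G h k) v l (n - l) (c * m ^ l)
        ((2 * c / δ) ^ k * (m / (1 - δ)) ^ (n - l)) hb0
        (fin_of_imp hlf (fun _ _ => wb_ch) l v) (h1 v l) (fun x => ih (n - l) x)
      have f2 := ncard_split_le (wb G (-h)) (dec G h k) v l (n - l) (c * m ^ l)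
        ((2 * c / δ) ^ k * (m / (1 - δ)) ^ (n - l)) hb0
        (fin_of_imp hlf (fun _ _ => wb_ch) l v) (h2 v l) (fun x => ih (n - l) x)
      have f3 : (((({s : List V | ∃ s1 s2, s = s1 ++ s2 ∧ s1.length = l ∧ wb G h v s1 ∧
              s2.length = n - l ∧ dec G h k (en v s1) s2} ∪
           {s : List V | ∃ s1 s2, s = s1 ++ s2 ∧ s1.length = l ∧ wb G (-h) v s1 ∧
              s2.length = n - l ∧ dec G h k (en v s1) s2}).ncard : ℕ)) : ℝ) ≤
          ((({s : List V | ∃ s1 s2, s = s1 ++ s2 ∧ s1.length = l ∧ wb G h v s1 ∧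
              s2.length = n - l ∧ dec G h k (en v s1) s2}).ncard : ℕ) : ℝ) +
          ((({s : List V | ∃ s1 s2, s = s1 ++ s2 ∧ s1.length = l ∧ wb G (-h) v s1 ∧
              s2.length = n - l ∧ dec G h k (en v s1) s2}).ncard : ℕ) : ℝ) := by
        exact_mod_cast Set.ncard_union_le _ _
      linarith
    refine hle.trans ?_
    have hterm : ∀ l ∈ Finset.range (n + 1),
        2 * ((c * m ^ l) * ((2 * c / δ) ^ k * (m / (1 - δ)) ^ (n - l))) =
        (2 * c * ((2 * c / δ) ^ k * (m / (1 - δ)) ^ n)) * (1 - δ) ^ l := by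
      intro l hl
      have hl' : l ≤ n := by simpa [Nat.lt_succ_iff] using hl
      have h1δ : (1 - δ) ≠ 0 := by linarith
      have : (m / (1 - δ)) ^ n = (m / (1 - δ)) ^ (n - l) * (m / (1 - δ)) ^ l := by
        rw [← pow_add]; congr 1; omega
      rw [this, div_pow m _ l]
      field_simp
    rw [Finset.sum_congr rfl hterm, ← Finset.mul_sum]
    have hgeo : ∑ l ∈ Finset.range (n + 1), (1 - δ) ^ l ≤ 1 / δ := by
      have h1δ : (1 - δ) ≠ 1 := by linarith
      rw [geom_sum_eq h1δ, show (1 - δ - 1 : ℝ) = -δ by ring, div_neg, ← neg_div, neg_sub]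
      apply div_le_div_of_nonneg_right _ hδ.le
      have := pow_nonneg (show (0:ℝ) ≤ 1 - δ by linarith) (n + 1)
      linarith
    have hnn : 0 ≤ 2 * c * ((2 * c / δ) ^ k * (m / (1 - δ)) ^ n) := by positivity
    calc (2 * c * ((2 * c / δ) ^ k * (m / (1 - δ)) ^ n)) * ∑ l ∈ Finset.range (n + 1), (1 - δ) ^ l
        ≤ (2 * c * ((2 * c / δ) ^ k * (m / (1 - δ)) ^ n)) * (1 / δ) :=
          mul_le_mul_of_nonneg_left hgeo hnn
      _ = (2 * c / δ) ^ (k + 1) * (m / (1 - δ)) ^ n := by
          rw [pow_succ]; ring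

/-- main bound: few weak bridges -/
theorem sa_count (hlf : ∀ v, (G.neighborSet v).Finite) (c m δ : ℝ) (hc : 0 ≤ c) (hm : 0 ≤ m)
    (hδ : 0 < δ) (hδ1 : δ < 1)
    (h1 : ∀ v l, (cnt (wb G h) v l : ℝ) ≤ c * m ^ l)
    (h2 : ∀ v l, (cnt (wb G (-h)) v l : ℝ) ≤ c * m ^ l)
    (L : ℕ) (hL : 0 < L) (T : Finset ℝ)
    (hT : ∀ v s, ch G v s → s.length < L → |h (en v s) - h v| ∈ T) (n : ℕ) (v : V) :
    (cnt (sa G) v n : ℝ) ≤ (2 * c / δ) ^ (2 * T.card + 2 + n / L) * (m / (1 - δ)) ^ n := by
  refine le_trans ?_ (cnt_dec hlf c m δ hc hm hδ hδ1 h1 h2 (2 * T.card + 2 + n / L) n v)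
  have : cnt (sa G) v n ≤ cnt (dec G h (2 * T.card + 2 + n / L)) v n := by
    unfold cnt
    refine Set.ncard_le_ncard ?_ (fin_of_imp hlf (fun _ _ => dec_ch) n v)
    rintro s ⟨hs, hsa⟩
    refine ⟨hs, ?_⟩
    have := sa_dec hL hT v s hsa
    rwa [hs] at this
  exact_mod_cast this

end counting

end Pool.Agent.H61.SW
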