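import Pool.Agent.H61.SWCore

set_option autoImplicit false
open Filter Topology

/-! Sub- and supermultiplicativity, bounds by the connective constant. -/

namespace Pool.Agent.H61.SW

variable {V : Type*} {G : SimpleGraph V}

lemma ch_walk (v : V) (s : List V) (h : ch G v s) :
    ∃ p : G.Walk v (en v s), p.length = s.length ∧ p.support = v :: s := by
  induction s generalizing v with
  | nil => exact ⟨SimpleGraph.Walk.nil, rfl, rfl⟩
  | cons a s ih =>
    obtain ⟨p, h1, h2⟩ := ih a h.2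
    exact ⟨SimpleGraph.Walk.cons h.1 p, by simp [h1], by simp [h2]⟩

lemma walk_ch {u v : V} (p : G.Walk u v) :
    ∃ s, p.support = u :: s ∧ ch G u s ∧ en u s = v ∧ s.length = p.length := by
  induction p with
  | nil => exact ⟨[], rfl, trivial, rfl, rfl⟩
  | @cons a b c h p ih =>
    obtain ⟨s, h1, h2, h3, h4⟩ := ih
    exact ⟨b :: s, by simp [h1], ⟨h, h2⟩, h3, by simp [h4]⟩

lemma dist_en_le (v : V) (s : List V) (h : ch G v s) : G.dist v (en v s) ≤ s.length := by
  obtain ⟨p, h1, -⟩ := ch_walk v s h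
  rw [← h1]; exact SimpleGraph.dist_le p

lemma ch_take {v : V} {s : List V} (h : sa G v s) (m : ℕ) :
    sa G v (s.take m) ∧ sa G (en v (s.take m)) (s.drop m) := by
  rw [← List.take_append_drop m s] at h
  exact ⟨sa_append_left h, sa_append_right h⟩

lemma submul (hlf : ∀ v, (G.neighborSet v).Finite) (o : V)
    (heq : ∀ v n, cnt (sa G) v n = cnt (sa G) o n) (m n : ℕ) :
    cnt (sa G) o (m + n) ≤ cnt (sa G) o m * cnt (sa G) o n := by
  have h1 := ncard_split_le (sa G) (sa G) o m n (cnt (sa G) o m) (cnt (sa G) o n)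
    (Nat.cast_nonneg _) (fin_of_imp hlf (fun _ _ h => h.1) m o) le_rfl
    (fun x => by rw [heq])
  have h2 : cnt (sa G) o (m + n) ≤ Set.ncard {s : List V | ∃ s1 s2, s = s1 ++ s2 ∧
      s1.length = m ∧ sa G o s1 ∧ s2.length = n ∧ sa G (en o s1) s2} := by
    refine Set.ncard_le_ncard ?_ ?_
    · rintro s ⟨hs, hsa⟩
      obtain ⟨h3, h4⟩ := ch_take hsa m
      refine ⟨s.take m, s.drop m, (List.take_append_drop m s).symm, ?_, h3, ?_, h4⟩
      · rw [List.length_take, hs]; omega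
      · rw [List.length_drop, hs]; omega
    · refine (fin_ch hlf (m + n) o).subset ?_
      rintro s ⟨s1, s2, rfl, h3, h4, h5, h6⟩
      exact ⟨by rw [List.length_append, h3, h5], (ch_append _ _ _).2 ⟨h4.1, h6.1⟩⟩
  have h3 : ((cnt (sa G) o (m + n) : ℕ) : ℝ) ≤ ((cnt (sa G) o m * cnt (sa G) o n : ℕ) : ℝ) := by
    push_cast
    refine le_trans ?_ h1
    exact_mod_cast h2
  exact_mod_cast h3

lemma sigma_zero (o : V) : cnt (sa G) o 0 = 1 := by
  unfold cnt
  have : {s : List V | s.length = 0 ∧ sa G o s} = {[]} := by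
    ext s
    simp only [Set.mem_ofPred_eq, Set.mem_singleton_iff]
    constructor
    · rintro ⟨h, -⟩; exact List.length_eq_zero_iff.1 h
    · rintro rfl; exact ⟨rfl, sa_nil o⟩
  rw [this]; simp

lemma sigma_pow (hlf : ∀ v, (G.neighborSet v).Finite) (o : V)
    (heq : ∀ v n, cnt (sa G) v n = cnt (sa G) o n) (n k : ℕ) :
    cnt (sa G) o (k * n) ≤ cnt (sa G) o n ^ k := by
  induction k with
  | zero => simp [sigma_zero]
  | succ k ih =>
    rw [Nat.succ_mul, pow_succ]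
    exact (submul hlf o heq _ _).trans (Nat.mul_le_mul_right _ ih)

lemma tendsto_sub {a : ℕ → ℝ} {μ : ℝ} (hμ : Tendsto (fun n : ℕ => a n ^ ((1 : ℝ) / n)) atTop (𝓝 μ))
    (n : ℕ) (hn : 0 < n) :
    Tendsto (fun k : ℕ => (a (k * n) ^ ((1 : ℝ) / n * (1 / k)))) atTop (𝓝 μ) := by
  have h1 : Tendsto (fun k : ℕ => k * n) atTop atTop :=
    tendsto_atTop_mono (fun k => Nat.le_mul_of_pos_right k hn) tendsto_id
  refine (hμ.comp h1).congr fun k => ?_
  simp only [Function.comp]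
  congr 1
  push_cast
  by_cases hk : k = 0
  · subst hk; simp
  have : (k : ℝ) ≠ 0 := by exact_mod_cast hk
  have : (n : ℝ) ≠ 0 := by exact_mod_cast hn.ne'
  field_simp

/-- `μ ^ n ≤ σ_n` -/
lemma mu_pow_le (hlf : ∀ v, (G.neighborSet v).Finite) (o : V)
    (heq : ∀ v n, cnt (sa G) v n = cnt (sa G) o n) {μ : ℝ}
    (hμ : Tendsto (fun n : ℕ => (cnt (sa G) o n : ℝ) ^ ((1 : ℝ) / n)) atTop (𝓝 μ))
    (n : ℕ) (hn : 0 < n) : μ ≤ (cnt (sa G) o n : ℝ) ^ ((1 : ℝ) / n) := by
  refine le_of_tendsto (tendsto_sub hμ n hn) ?_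
  filter_upwards [eventually_gt_atTop 0] with k hk
  have h1 : (cnt (sa G) o (k * n) : ℝ) ≤ (cnt (sa G) o n : ℝ) ^ k := by
    exact_mod_cast sigma_pow hlf o heq n k
  have h2 : (0 : ℝ) ≤ (cnt (sa G) o (k * n) : ℝ) := Nat.cast_nonneg _
  have h3 : (0 : ℝ) ≤ (cnt (sa G) o n : ℝ) := Nat.cast_nonneg _
  calc (cnt (sa G) o (k * n) : ℝ) ^ ((1 : ℝ) / n * (1 / k))
      ≤ ((cnt (sa G) o n : ℝ) ^ k) ^ ((1 : ℝ) / n * (1 / k)) :=
        Real.rpow_le_rpow h2 h1 (by positivity)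
    _ = (cnt (sa G) o n : ℝ) ^ ((1 : ℝ) / n) := by
        rw [← Real.rpow_natCast, ← Real.rpow_mul h3]
        congr 1
        have : (k : ℝ) ≠ 0 := by exact_mod_cast hk.ne'
        field_simp

/-- a supermultiplicative family of self-avoiding walks -/
lemma cnt_le_mu_pow (hlf : ∀ v, (G.neighborSet v).Finite) (o : V)
    (heq : ∀ v n, cnt (sa G) v n = cnt (sa G) o n) {μ : ℝ}
    (hμ : Tendsto (fun n : ℕ => (cnt (sa G) o n : ℝ) ^ ((1 : ℝ) / n)) atTop (𝓝 μ))
    (P : V → List V → Prop) (hP : ∀ v s, P v s → sa G v s)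
    (hcat : ∀ v s t, P v s → P (en v s) t → P v (s ++ t))
    (hcl : ∀ v s, P v s → ∀ n, cnt P (en v s) n = cnt P v n)
    (v : V) (n : ℕ) : (cnt P v n : ℝ) ≤ μ ^ n := by
  have hfin : ∀ n v, {s : List V | s.length = n ∧ P v s}.Finite := fun n v =>
    fin_of_imp hlf (fun v s h => (hP v s h).1) n v
  have hle : ∀ n, cnt P v n ≤ cnt (sa G) o n := fun n => by
    rw [← heq v n]
    exact Set.ncard_le_ncard (fun s hs => ⟨hs.1, hP _ _ hs.2⟩)
      (fin_of_imp hlf (fun _ _ h => h.1) n v)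
  have hpow : ∀ n k : ℕ, 0 < k → cnt P v n ^ k ≤ cnt P v (k * n) := by
    intro n k hk
    induction k with
    | zero => omega
    | succ k ih =>
      rcases Nat.eq_zero_or_pos k with rfl | hk'
      · simp
      · rw [pow_succ, Nat.succ_mul]
        refine (Nat.mul_le_mul_right _ (ih hk')).trans ?_
        exact cnt_mul_le P P P v (k * n) n (cnt P v n) (hfin _ _) (hfin _ _)
          (fun s hs => hcl v s hs n) (fun s t => hcat v s t)
  have hμ0 : 0 ≤ μ := ge_of_tendsto' hμ fun n => Real.rpow_nonneg (Nat.cast_nonneg _) _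
  rcases Nat.eq_zero_or_pos n with rfl | hn
  · have := hle 0
    rw [sigma_zero] at this
    simpa using (by exact_mod_cast this : (cnt P v 0 : ℝ) ≤ 1)
  have key : (cnt P v n : ℝ) ^ ((1 : ℝ) / n) ≤ μ := by
    refine ge_of_tendsto (tendsto_sub hμ n hn) ?_
    filter_upwards [eventually_gt_atTop 0] with k hk
    have h1 : ((cnt P v n : ℝ)) ^ k ≤ (cnt (sa G) o (k * n) : ℝ) := by
      exact_mod_cast (hpow n k hk).trans (hle _)
    have h3 : (0 : ℝ) ≤ (cnt P v n : ℝ) := Nat.cast_nonneg _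
    calc (cnt P v n : ℝ) ^ ((1 : ℝ) / n)
        = ((cnt P v n : ℝ) ^ k) ^ ((1 : ℝ) / n * (1 / k)) := by
          rw [← Real.rpow_natCast, ← Real.rpow_mul h3]
          congr 1
          have : (k : ℝ) ≠ 0 := by exact_mod_cast hk.ne'
          field_simp
      _ ≤ (cnt (sa G) o (k * n) : ℝ) ^ ((1 : ℝ) / n * (1 / k)) :=
          Real.rpow_le_rpow (pow_nonneg h3 k) h1 (by positivity)
  have h4 : ((cnt P v n : ℝ) ^ ((1 : ℝ) / n)) ^ n ≤ μ ^ n :=
    pow_le_pow_left₀ (Real.rpow_nonneg (Nat.cast_nonneg _) _) key n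
  rw [← Real.rpow_natCast ((cnt P v n : ℝ) ^ ((1 : ℝ) / n)) n,
    ← Real.rpow_mul (Nat.cast_nonneg _)] at h4
  have : (1 : ℝ) / n * n = 1 := by
    have : (n : ℝ) ≠ 0 := by exact_mod_cast hn.ne'
    field_simp
  rwa [this, Real.rpow_one] at h4

/-! strict bridges for a transitive height function -/

/-- strict start, weak end -/
def st (G : SimpleGraph V) (h : V → ℝ) (v : V) (s : List V) : Prop :=
  sa G v s ∧ ∀ x ∈ s, h v < h x ∧ h x ≤ h (en v s)

lemma st_cat {h : V → ℝ} (v : V) (s t : List V) (hs : st G h v s) (ht : st G h (en v s) t) :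
    st G h v (s ++ t) := by
  have hve : h v ≤ h (en v s) := by
    rcases List.mem_cons.1 (en_mem_cons v s) with h1 | h1
    · rw [h1]
    · exact (hs.2 _ h1).1.le
  have hle : ∀ x ∈ v :: s, h x ≤ h (en v s) := by
    intro x hx
    rcases List.mem_cons.1 hx with rfl | hx
    · exact hve
    · exact (hs.2 x hx).2
  refine ⟨⟨(ch_append _ _ _).2 ⟨hs.1.1, ht.1.1⟩, ?_⟩, ?_⟩
  · rw [← List.cons_append, List.nodup_append]
    refine ⟨hs.1.2, (List.nodup_cons.1 ht.1.2).2, ?_⟩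
    intro a ha b hb hab
    subst hab
    exact absurd (hle a ha) (not_le.2 (ht.2 a hb).1)
  · intro x hx
    rw [en_append]
    rcases List.mem_append.1 hx with hx | hx
    · refine ⟨(hs.2 x hx).1, (hs.2 x hx).2.trans ?_⟩
      rcases List.mem_cons.1 (en_mem_cons (en v s) t) with h1 | h1
      · rw [h1]
      · exact (ht.2 _ h1).1.le
    · exact ⟨hve.trans_lt (ht.2 x hx).1, (ht.2 x hx).2⟩

/-- a graph with a height function: nonconstant and difference invariant under a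
vertex-transitive set of automorphisms -/
def HasHeight (G : SimpleGraph V) (h : V → ℝ) : Prop :=
  (∃ x y, h x ≠ h y) ∧
    ∀ u v, ∃ φ : G ≃g G, φ u = v ∧ ∀ x y, h (φ x) - h (φ y) = h x - h y

lemma HasHeight.neg {h : V → ℝ} (hh : HasHeight G h) : HasHeight G (-h) := by
  obtain ⟨⟨x, y, hxy⟩, h2⟩ := hh
  refine ⟨⟨x, y, by simpa using hxy⟩, fun u v => ?_⟩
  obtain ⟨φ, h3, h4⟩ := h2 u v
  refine ⟨φ, h3, fun x y => ?_⟩
  simp only [Pi.neg_apply]
  linarith [h4 x y]

lemma exists_adj_lt (hc : G.Connected) {h : V → ℝ} (hh : ∃ x y, h x ≠ h y) :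
    ∃ a b, G.Adj a b ∧ h a < h b := by
  by_contra hcon
  push Not at hcon
  obtain ⟨x, y, hxy⟩ := hh
  apply hxy
  have key : ∀ {x y : V} (p : G.Walk x y), h x = h y := by
    intro x y p
    induction p with
    | nil => rfl
    | cons hadj p ih => rw [← ih]; exact le_antisymm (hcon _ _ hadj.symm) (hcon _ _ hadj)
  obtain ⟨p⟩ := hc.preconnected x y
  exact key p

lemma lower_nbr (hc : G.Connected) {h : V → ℝ} (hh : HasHeight G h) (v : V) :
    ∃ u, G.Adj u v ∧ h u < h v := by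
  obtain ⟨a, b, hab, hlt⟩ := exists_adj_lt hc hh.1
  obtain ⟨φ, h1, h2⟩ := hh.2 b v
  refine ⟨φ a, ?_, ?_⟩
  · rw [← h1]; exact φ.map_adj_iff.2 hab
  · rw [← h1]; linarith [h2 a b]

lemma cnt_st_eq {h : V → ℝ} (hh : HasHeight G h) (u v : V) (n : ℕ) :
    cnt (st G h) u n = cnt (st G h) v n := by
  obtain ⟨φ, h1, h2⟩ := hh.2 v u
  rw [← h1]
  refine cnt_map (st G h) φ v (fun s => ?_) n
  unfold st
  rw [sa_map]
  refine and_congr_right fun _ => ?_
  rw [en_map]
  simp only [List.mem_map, forall_exists_index, and_imp, forall_apply_eq_imp_iff₂]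
  refine forall₂_congr fun x _ => ?_
  have e1 := h2 v x
  have e2 := h2 x (en v s)
  constructor
  · rintro ⟨h3, h4⟩; constructor <;> linarith
  · rintro ⟨h3, h4⟩; constructor <;> linarith

lemma cnt_wb_le (hlf : ∀ v, (G.neighborSet v).Finite) (hc : G.Connected) (o : V)
    (heq : ∀ v n, cnt (sa G) v n = cnt (sa G) o n) {μ : ℝ}
    (hμ : Tendsto (fun n : ℕ => (cnt (sa G) o n : ℝ) ^ ((1 : ℝ) / n)) atTop (𝓝 μ))
    {h : V → ℝ} (hh : HasHeight G h) (v : V) (l : ℕ) :
    (cnt (wb G h) v l : ℝ) ≤ μ * μ ^ l := by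
  obtain ⟨u, hadj, hlt⟩ := lower_nbr hc hh v
  have h1 : (cnt (st G h) u (l + 1) : ℝ) ≤ μ ^ (l + 1) :=
    cnt_le_mu_pow hlf o heq hμ (st G h) (fun _ _ h => h.1) st_cat
      (fun v s _ n => cnt_st_eq hh _ _ n) u (l + 1)
  rw [pow_succ'] at h1
  refine le_trans ?_ h1
  have h2 : cnt (wb G h) v l ≤ cnt (st G h) u (l + 1) := by
    unfold cnt
    refine Set.ncard_le_ncard_of_injOn (fun s => v :: s) ?_ ?_
      (fin_of_imp hlf (fun _ _ h => h.1.1) (l + 1) u)
    · rintro s ⟨hs, hw⟩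
      have hge : ∀ x ∈ v :: s, h v ≤ h x := by
        intro x hx
        rcases List.mem_cons.1 hx with rfl | hx
        · exact le_rfl
        · exact (hw.2 x hx).1
      refine ⟨by simp [hs], ⟨⟨hadj, hw.1.1⟩, ?_⟩, ?_⟩
      · rw [List.nodup_cons]
        exact ⟨fun hmem => absurd (hge u hmem) (not_le.2 hlt), hw.1.2⟩
      · intro x hx
        refine ⟨hlt.trans_le (hge x hx), ?_⟩
        rw [en_cons]
        rcases List.mem_cons.1 hx with rfl | hx
        · exact hge _ (en_mem_cons _ s)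
        · exact (hw.2 x hx).2
    · intro s _ t _ hst
      simpa using hst
  exact_mod_cast h2

end Pool.Agent.H61.SW
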