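import Pool.Agent.H61.SWLocal

set_option autoImplicit false
open Filter Topology

/-! Uniform Hammersley-Welsh bound and the limit argument. -/

namespace Pool.Agent.H61.SW

variable {V : Type*} {G : SimpleGraph V}

/-- uniform bound with a transitive height function -/
theorem height_bound (hlf : ∀ v, (G.neighborSet v).Finite) (hc : G.Connected) (o : V)
    {μ : ℝ} (hμ : Tendsto (fun n : ℕ => (cnt (sa G) o n : ℝ) ^ ((1 : ℝ) / n)) atTop (𝓝 μ))
    {h : V → ℝ} (hh : HasHeight G h) (δ : ℝ) (hδ : 0 < δ) (hδ1 : δ < 1) (L : ℕ) (hL : 0 < L)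
    (n : ℕ) :
    ∃ t : ℕ, t ≤ Set.ncard {v | G.dist o v ≤ L} ∧
    (cnt (sa G) o n : ℝ) ≤ (2 * μ / δ) ^ (2 * t + 2 + n / L) * (μ / (1 - δ)) ^ n := by
  classical
  have heq : ∀ v n, cnt (sa G) v n = cnt (sa G) o n := by
    intro v n
    obtain ⟨φ, h1, -⟩ := hh.2 o v
    rw [← h1]
    exact cnt_map (sa G) φ o (fun s => sa_map φ o s) n
  have hμ0 : 0 ≤ μ := ge_of_tendsto' hμ fun n => Real.rpow_nonneg (Nat.cast_nonneg _) _
  have hfin := ball_finite hlf hc o L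
  set T : Finset ℝ := hfin.toFinset.image (fun z => |h z - h o|) with hT
  refine ⟨T.card, ?_, ?_⟩
  · rw [Set.ncard_eq_toFinset_card _ hfin]
    exact Finset.card_image_le
  · refine sa_count hlf μ μ δ hμ0 hμ0 hδ hδ1
      (fun v l => cnt_wb_le hlf hc o heq hμ hh v l)
      (fun v l => cnt_wb_le hlf hc o heq hμ hh.neg v l) L hL T ?_ n o
    intro v s hs hsL
    obtain ⟨φ, h1, h2⟩ := hh.2 v o
    rw [hT, Finset.mem_image]
    refine ⟨φ (en v s), ?_, ?_⟩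
    · simp only [Set.Finite.mem_toFinset, Set.mem_ofPred_eq]
      rw [← en_map φ v s, h1]
      have := dist_en_le o (s.map φ) (by rw [← h1]; exact (ch_map φ v s).2 hs)
      rw [List.length_map] at this
      omega
    · have := h2 (en v s) v
      rw [h1] at this
      rw [this]

/-- limit argument: uniform bounds give lower semicontinuity -/
lemma liminf_arg (μ : ℝ) (D : ℝ) (hD : 1 ≤ D) (hμ : 0 < μ) (VL : ℕ → ℕ) (a : ℝ) (ha : a < μ) :
    ∃ n : ℕ, 0 < n ∧ ∃ L : ℕ, 0 < L ∧ ∃ δ : ℝ, 0 < δ ∧ δ < 1 ∧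
      ∀ m : ℝ, 0 ≤ m → m ≤ D → ∀ t : ℕ, t ≤ VL L →
        μ ^ n ≤ (2 * m / δ) ^ (2 * t + 2 + n / L) * (m / (1 - δ)) ^ n → a < m := by
  -- choose δ, then L, then n
  have h1 : ∃ δ : ℝ, 0 < δ ∧ δ < 1 ∧ a < μ * (1 - δ) := by
    have hlim : Tendsto (fun δ : ℝ => μ * (1 - δ)) (𝓝[>] 0) (𝓝 (μ * (1 - 0))) :=
      ((continuous_const.mul (continuous_const.sub continuous_id)).tendsto 0).mono_left
        nhdsWithin_le_nhds
    have hev : ∀ᶠ δ : ℝ in 𝓝[>] 0, a < μ * (1 - δ) :=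
      hlim.eventually (lt_mem_nhds (by simpa using ha))
    have hev2 : ∀ᶠ δ : ℝ in 𝓝[>] 0, δ ∈ Set.Ioo (0 : ℝ) 1 :=
      Ioo_mem_nhdsGT one_pos
    obtain ⟨δ, h2, h3⟩ := (hev.and hev2).exists
    exact ⟨δ, h3.1, h3.2, h2⟩
  obtain ⟨δ, hδ, hδ1, haδ⟩ := h1
  set A : ℝ := 2 * D / δ with hA
  have hA1 : 1 < A := by rw [hA, lt_div_iff₀ hδ]; nlinarith
  have hA0 : 0 < A := by linarith
  have hb : 0 < μ * (1 - δ) := mul_pos hμ (by linarith)
  -- choose L
  have h2 : ∃ L : ℕ, 0 < L ∧ a * A ^ ((1 : ℝ) / L) < μ * (1 - δ) := by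
    have hlim : Tendsto (fun L : ℕ => a * A ^ ((1 : ℝ) / L)) atTop (𝓝 (a * A ^ (0 : ℝ))) := by
      refine Tendsto.const_mul a ?_
      exact (Real.continuous_const_rpow hA0.ne').continuousAt.tendsto.comp
        (tendsto_one_div_atTop_nhds_zero_nat)
    have haδ' : a * A ^ (0 : ℝ) < μ * (1 - δ) := by simpa using haδ
    have hev := hlim.eventually (gt_mem_nhds haδ')
    obtain ⟨L, h3, h4⟩ := (hev.and (eventually_gt_atTop 0)).exists
    exact ⟨L, h4, h3⟩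
  obtain ⟨L, hL, haL⟩ := h2
  -- choose n
  set W : ℕ := 2 * VL L + 2 with hW
  have h3 : ∃ n : ℕ, 0 < n ∧ a * A ^ ((W : ℝ) / n + 1 / L) < μ * (1 - δ) := by
    have hlim : Tendsto (fun n : ℕ => a * A ^ ((W : ℝ) / n + 1 / L)) atTop
        (𝓝 (a * A ^ ((0 : ℝ) + 1 / L))) := by
      refine Tendsto.const_mul a ?_
      refine (Real.continuous_const_rpow hA0.ne').continuousAt.tendsto.comp ?_
      exact (tendsto_const_div_atTop_nhds_zero_nat (W : ℝ)).add_const _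
    have haL' : a * A ^ ((0 : ℝ) + 1 / L) < μ * (1 - δ) := by simpa using haL
    have hev := hlim.eventually (gt_mem_nhds haL')
    obtain ⟨n, h3, h4⟩ := (hev.and (eventually_gt_atTop 0)).exists
    exact ⟨n, h4, h3⟩
  obtain ⟨n, hn, han⟩ := h3
  refine ⟨n, hn, L, hL, δ, hδ, hδ1, ?_⟩
  intro m hm hmD t ht hineq
  by_contra hcon
  push Not at hcon
  have hn' : (0 : ℝ) < n := by exact_mod_cast hn
  have hL' : (0 : ℝ) < L := by exact_mod_cast hL
  have h4 : (2 * m / δ) ^ (2 * t + 2 + n / L) ≤ A ^ (W + n / L) := by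
    calc (2 * m / δ) ^ (2 * t + 2 + n / L) ≤ A ^ (2 * t + 2 + n / L) := by
          apply pow_le_pow_left₀ (by positivity)
          rw [hA]; gcongr
      _ ≤ A ^ (W + n / L) := pow_le_pow_right₀ hA1.le (by omega)
  have h5 : A ^ (W + n / L) ≤ A ^ (((W : ℝ) / n + 1 / L) * n) := by
    rw [← Real.rpow_natCast]
    apply Real.rpow_le_rpow_of_exponent_le hA1.le
    push_cast
    have h6 : ((n / L : ℕ) : ℝ) ≤ (n : ℝ) / L := Nat.cast_div_le
    have h7 : ((W : ℝ) / n + 1 / L) * n = W + n / L := by field_simp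
    rw [h7]; linarith
  have h8 : (m / (1 - δ)) ^ n ≤ (a / (1 - δ)) ^ n := by
    apply pow_le_pow_left₀ (div_nonneg hm (by linarith))
    apply div_le_div_of_nonneg_right hcon (by linarith)
  have ha0 : 0 ≤ a := hm.trans hcon
  have h9 : μ ^ n ≤ A ^ (((W : ℝ) / n + 1 / L) * n) * (a / (1 - δ)) ^ n :=
    hineq.trans (mul_le_mul (h4.trans h5) h8 (pow_nonneg (div_nonneg hm (by linarith)) _)
      (Real.rpow_nonneg hA0.le _))
  rw [Real.rpow_mul hA0.le, Real.rpow_natCast, ← mul_pow] at h9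
  have h10 : μ ≤ A ^ ((W : ℝ) / n + 1 / L) * (a / (1 - δ)) := by
    refine le_of_pow_le_pow_left₀ hn.ne' ?_ h9
    exact mul_nonneg (Real.rpow_nonneg hA0.le _) (div_nonneg ha0 (by linarith))
  have h11 : μ * (1 - δ) ≤ a * A ^ ((W : ℝ) / n + 1 / L) := by
    have h12 : (0 : ℝ) < 1 - δ := by linarith
    calc μ * (1 - δ) ≤ (A ^ ((W : ℝ) / n + 1 / L) * (a / (1 - δ))) * (1 - δ) :=
          mul_le_mul_of_nonneg_right h10 h12.le
      _ = a * A ^ ((W : ℝ) / n + 1 / L) := by field_simp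
  linarith

end Pool.Agent.H61.SW
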