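import Pool.Agent.H61.SWGrowth

set_option autoImplicit false
open Filter Topology

/-! Transfer of counts through isomorphic balls; counting by walks. -/

namespace Pool.Agent.H61.SW

variable {V : Type*} {G : SimpleGraph V}

/-- vertices of a step list stay in the ball of radius its length -/
lemma dist_le_of_mem (v : V) (s : List V) (h : ch G v s) :
    ∀ x ∈ v :: s, ∃ t : List V, t.length ≤ s.length ∧ ch G v t ∧ en v t = x := by
  induction s generalizing v with
  | nil =>
    intro x hx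
    have : x = v := by simpa using hx
    subst this
    exact ⟨[], by simp, trivial, rfl⟩
  | cons a s ih =>
    intro x hx
    rcases List.mem_cons.1 hx with rfl | hx
    · exact ⟨[], by simp, trivial, rfl⟩
    · obtain ⟨t, h1, h2, h3⟩ := ih a h.2 x hx
      exact ⟨a :: t, by simpa using h1, ⟨h.1, h2⟩, h3⟩

lemma mem_ball (v : V) (s : List V) (h : ch G v s) (r : ℕ) (hr : s.length ≤ r) :
    ∀ x ∈ v :: s, G.dist v x ≤ r := by
  intro x hx
  obtain ⟨t, h1, h2, h3⟩ := dist_le_of_mem v s h x hx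
  rw [← h3]
  exact (dist_en_le v t h2).trans (h1.trans hr)

/-- an adjacency-preserving injection on a ball maps self-avoiding walks to such -/
lemma cnt_sa_le_of_ball {W : Type*} {G' : SimpleGraph W} (o : V) (o' : W) (n : ℕ)
    (hlf' : ∀ v, (G'.neighborSet v).Finite) (f : V → W) (ho : f o = o')
    (hadj : ∀ x y, G.dist o x ≤ n → G.dist o y ≤ n → G.Adj x y → G'.Adj (f x) (f y))
    (hinj : ∀ x y, G.dist o x ≤ n → G.dist o y ≤ n → f x = f y → x = y) :
    cnt (sa G) o n ≤ cnt (sa G') o' n := by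
  unfold cnt
  refine Set.ncard_le_ncard_of_injOn (fun s => s.map f) ?_ ?_
    (fin_of_imp hlf' (fun _ _ h => h.1) n o')
  · rintro s ⟨hs, hsa⟩
    refine ⟨by simpa using hs, ?_, ?_⟩
    · have hb := mem_ball o s hsa.1 n hs.le
      have key : ∀ (v : V) (s : List V), (∀ x ∈ v :: s, G.dist o x ≤ n) → ch G v s →
          ch G' (f v) (s.map f) := by
        intro v s
        induction s generalizing v with
        | nil => intros; trivial
        | cons a s ih =>
          intro h1 h2
          exact ⟨hadj _ _ (h1 v (by simp)) (h1 a (by simp)) h2.1,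
            ih a (fun x hx => h1 x (List.mem_cons_of_mem _ hx)) h2.2⟩
      rw [← ho]
      exact key o s hb hsa.1
    · have hb := mem_ball o s hsa.1 n hs.le
      rw [← ho]
      show (List.map f (o :: s)).Nodup
      exact List.Nodup.map_on (fun x hx y hy hxy => hinj x y (hb x hx) (hb y hy) hxy) hsa.2
  · rintro s ⟨hs, hsa⟩ t ⟨ht, hta⟩ hst
    have hbs := mem_ball o s hsa.1 n hs.le
    have hbt := mem_ball o t hta.1 n ht.le
    simp only at hst
    have key : ∀ s t : List V, (∀ x ∈ s, G.dist o x ≤ n) → (∀ x ∈ t, G.dist o x ≤ n) →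
        s.map f = t.map f → s = t := by
      intro s
      induction s with
      | nil => intro t _ _ h; simpa [eq_comm] using h
      | cons a s ih =>
        intro t h1 h2 h
        cases t with
        | nil => simp at h
        | cons b t =>
          simp only [List.map_cons, List.cons.injEq] at h
          rw [hinj a b (h1 a (by simp)) (h2 b (by simp)) h.1,
            ih t (fun x hx => h1 x (by simp [hx])) (fun x hx => h2 x (by simp [hx])) h.2]
    exact key s t (fun x hx => hbs x (List.mem_cons_of_mem _ hx))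
      (fun x hx => hbt x (List.mem_cons_of_mem _ hx)) hst

/-- isomorphic rooted balls have the same number of self-avoiding walks -/
lemma cnt_sa_le_of_iso {W : Type*} {G' : SimpleGraph W} (o : V) (o' : W) (n : ℕ)
    (hlf' : ∀ v, (G'.neighborSet v).Finite)
    (φ : G.induce {v | G.dist o v ≤ n} ≃g G'.induce {v | G'.dist o' v ≤ n})
    (hφ : ∀ x : {v | G.dist o v ≤ n}, (x : V) = o → ((φ x : {v | G'.dist o' v ≤ n}) : W) = o') :
    cnt (sa G) o n ≤ cnt (sa G') o' n := by
  classical
  let f : V → W := fun x => if h : G.dist o x ≤ n then (φ ⟨x, h⟩ : W) else o'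
  have hf : ∀ x (h : G.dist o x ≤ n), f x = (φ ⟨x, h⟩ : W) := fun x h => by simp [f, h]
  refine cnt_sa_le_of_ball o o' n hlf' f ?_ ?_ ?_
  · rw [hf o (by simp)]
    exact hφ ⟨o, by simp⟩ rfl
  · intro x y hx hy hxy
    rw [hf x hx, hf y hy]
    have : (G.induce {v | G.dist o v ≤ n}).Adj ⟨x, hx⟩ ⟨y, hy⟩ := hxy
    exact φ.map_adj_iff.2 this
  · intro x y hx hy hxy
    rw [hf x hx, hf y hy] at hxy
    have := φ.injective (Subtype.ext hxy)
    exact congrArg Subtype.val this

lemma iso_symm_root {W : Type*} {G' : SimpleGraph W} (o : V) (o' : W) (n : ℕ)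
    (φ : G.induce {v | G.dist o v ≤ n} ≃g G'.induce {v | G'.dist o' v ≤ n})
    (hφ : ∀ x : {v | G.dist o v ≤ n}, (x : V) = o → ((φ x : {v | G'.dist o' v ≤ n}) : W) = o') :
    ∀ x : {v | G'.dist o' v ≤ n}, (x : W) = o' →
      ((φ.symm x : {v | G.dist o v ≤ n}) : V) = o := by
  intro x hx
  have h1 := hφ ⟨o, by simp⟩ rfl
  have h2 : φ ⟨o, by simp⟩ = x := Subtype.ext (h1.trans hx.symm)
  rw [← h2, φ.symm_apply_apply]

lemma cnt_sa_eq_of_iso {W : Type*} {G' : SimpleGraph W} (o : V) (o' : W) (n : ℕ)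
    (hlf : ∀ v, (G.neighborSet v).Finite) (hlf' : ∀ v, (G'.neighborSet v).Finite)
    (φ : G.induce {v | G.dist o v ≤ n} ≃g G'.induce {v | G'.dist o' v ≤ n})
    (hφ : ∀ x : {v | G.dist o v ≤ n}, (x : V) = o → ((φ x : {v | G'.dist o' v ≤ n}) : W) = o') :
    cnt (sa G) o n = cnt (sa G') o' n :=
  le_antisymm (cnt_sa_le_of_iso o o' n hlf' φ hφ)
    (cnt_sa_le_of_iso o' o n hlf φ.symm (iso_symm_root o o' n φ hφ))

/-- balls are finite -/
lemma ball_finite (hlf : ∀ v, (G.neighborSet v).Finite) (hc : G.Connected) (o : V) (r : ℕ) :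
    {v | G.dist o v ≤ r}.Finite := by
  have h : {v | G.dist o v ≤ r} ⊆ ⋃ n ∈ Finset.range (r + 1),
      (fun s => en o s) '' {s : List V | s.length = n ∧ ch G o s} := by
    intro v hv
    obtain ⟨p, hp⟩ := hc.exists_walk_length_eq_dist o v
    obtain ⟨s, -, h2, h3, h4⟩ := walk_ch p
    simp only [Set.mem_iUnion, Finset.mem_range]
    refine ⟨s.length, ?_, s, ⟨rfl, h2⟩, h3⟩
    have : G.dist o v ≤ r := hv
    omega
  refine Set.Finite.subset ?_ h
  exact Set.Finite.biUnion (Finset.finite_toSet _) fun n _ => (fin_ch hlf n o).image _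

/-- the count through Mathlib walks -/
lemma ncard_walks (o : V) (n : ℕ) :
    Set.ncard {p : Σ v : V, G.Walk o v | p.2.IsPath ∧ p.2.length = n} = cnt (sa G) o n := by
  unfold cnt
  refine Set.ncard_congr (fun p _ => p.2.support.tail) ?_ ?_ ?_
  · rintro ⟨v, p⟩ ⟨h1, h2⟩
    obtain ⟨s, h3, h4, h5, h6⟩ := walk_ch p
    simp only [Set.mem_ofPred_eq] at h1 h2 ⊢
    rw [h3]
    refine ⟨by simpa using h6.trans h2, h4, ?_⟩
    have := p.isPath_def.1 h1
    rwa [h3] at this
  · rintro ⟨v, p⟩ ⟨w, q⟩ ⟨h1, h2⟩ ⟨h3, h4⟩ heq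
    obtain ⟨s, a1, a2, a3, a4⟩ := walk_ch p
    obtain ⟨t, b1, b2, b3, b4⟩ := walk_ch q
    simp only at heq
    have hs : p.support = q.support := by
      rw [a1, b1] at heq ⊢
      simpa using heq
    have hst : s = t := by rw [a1, b1] at hs; simpa using hs
    have hvw : v = w := by rw [← a3, ← b3, hst]
    subst hvw
    have : p = q := SimpleGraph.Walk.ext_support hs
    rw [this]
  · rintro s ⟨h1, h2⟩
    obtain ⟨p, h3, h4⟩ := ch_walk o s h2.1
    refine ⟨⟨en o s, p⟩, ⟨?_, h3.trans h1⟩, by simp [h4]⟩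
    rw [SimpleGraph.Walk.isPath_def, h4]
    exact h2.2

end Pool.Agent.H61.SW
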