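import Pool.Agent.H61.SWModular

set_option autoImplicit false

/-! Mass transport for unimodular transitive graphs, in the form: an invariant relation has equal
out- and in-degrees. -/

namespace Pool.Agent.H61.SW

variable {V : Type*} {G : SimpleGraph V}

lemma orb_self_mem (u v : V) : v ∈ orb G u v := ⟨1, rfl, rfl⟩

lemma orb_eq {u v w : V} (h : w ∈ orb G u v) : orb G u w = orb G u v := by
  obtain ⟨φ, h1, rfl⟩ := h
  have := orb_map φ u v
  rw [h1] at this
  rw [this]
  ext w
  constructor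
  · rintro ⟨x, ⟨ψ, h2, h3⟩, rfl⟩
    exact ⟨φ * ψ, by rw [RelIso.mul_apply, h2, h1], by rw [RelIso.mul_apply, h3]⟩
  · rintro ⟨ψ, h2, rfl⟩
    refine ⟨φ⁻¹ (ψ v), ⟨φ⁻¹ * ψ, ?_, ?_⟩, ?_⟩
    · rw [RelIso.mul_apply, h2]
      nth_rewrite 1 [← h1]
      exact RelIso.inv_apply_self φ u
    · rw [RelIso.mul_apply]
    · exact RelIso.apply_inv_self φ _

/-- `(y, o)` and `(o, x)` are in the same orbit of pairs -/
def swp (G : SimpleGraph V) (o x y : V) : Prop := ∃ φ : G ≃g G, φ y = o ∧ φ o = x

lemma swp_left (o y x₀ : V) (h0 : swp G o x₀ y) : {x | swp G o x y} = orb G o x₀ := by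
  obtain ⟨φ, h1, h2⟩ := h0
  ext x
  constructor
  · rintro ⟨ψ, h3, h4⟩
    refine ⟨ψ * φ⁻¹, ?_, ?_⟩
    · rw [RelIso.mul_apply]
      have : φ⁻¹ o = y := by rw [← h1]; exact RelIso.inv_apply_self φ y
      rw [this, h3]
    · rw [RelIso.mul_apply]
      have : φ⁻¹ x₀ = o := by rw [← h2]; exact RelIso.inv_apply_self φ o
      rw [this, h4]
  · rintro ⟨ψ, h3, rfl⟩
    exact ⟨ψ * φ, by rw [RelIso.mul_apply, h1, h3], by rw [RelIso.mul_apply, h2]⟩

lemma swp_right (o x : V) (htr : ∀ u v, ∃ φ : G ≃g G, φ u = v) :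
    {y | swp G o x y}.ncard = (orb G x o).ncard := by
  obtain ⟨ψ, hψ⟩ := htr x o
  have h1 : {y | swp G o x y} = ψ '' orb G x o := by
    ext y
    constructor
    · rintro ⟨φ, h1, h2⟩
      refine ⟨ψ⁻¹ y, ⟨ψ⁻¹ * φ⁻¹, ?_, ?_⟩, RelIso.apply_inv_self ψ y⟩
      · rw [RelIso.mul_apply]
        have : φ⁻¹ x = o := by rw [← h2]; exact RelIso.inv_apply_self φ o
        rw [this, ← hψ]; exact RelIso.inv_apply_self ψ x
      · rw [RelIso.mul_apply]
        have : φ⁻¹ o = y := by rw [← h1]; exact RelIso.inv_apply_self φ y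
        rw [this]
    · rintro ⟨z, ⟨χ, h1, h2⟩, rfl⟩
      refine ⟨χ⁻¹ * ψ⁻¹, ?_, ?_⟩
      · rw [RelIso.mul_apply, RelIso.inv_apply_self, ← h2]
        exact RelIso.inv_apply_self χ o
      · rw [RelIso.mul_apply]
        have e1 : ψ⁻¹ o = x := by rw [← hψ]; exact RelIso.inv_apply_self ψ x
        rw [e1]
        nth_rewrite 1 [← h1]
        exact RelIso.inv_apply_self χ x
  rw [h1, Set.ncard_image_of_injective _ ψ.injective]

/-- an invariant relation on a unimodular transitive graph has equal out- and in-degree -/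
theorem mass_transport (hlf : ∀ v, (G.neighborSet v).Finite) (hc : G.Connected)
    (htr : ∀ u v, ∃ φ : G ≃g G, φ u = v) (hU : Unimod G) (R : V → V → Prop)
    (hR : ∀ (φ : G ≃g G) u v, R (φ u) (φ v) ↔ R u v) (o : V)
    (hA : {x | R o x}.Finite) (hB : {x | R x o}.Finite) :
    {x | R o x}.ncard = {x | R x o}.ncard := by
  classical
  have hRs : ∀ x y, swp G o x y → (R o x ↔ R y o) := by
    rintro x y ⟨φ, h1, h2⟩
    rw [← hR φ y o, h1, h2]
  have key : ((hA.toFinset.card : ℕ) : ℝ) = hB.toFinset.card := by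
    have h1 : ∀ x ∈ hA.toFinset, ∑ y ∈ hB.toFinset,
        (if swp G o x y then (1 : ℝ) / (orb G o x).ncard else 0) = 1 := by
      intro x hx
      rw [← Finset.sum_filter, Finset.sum_const, nsmul_eq_mul]
      have hcard : (hB.toFinset.filter (fun y => swp G o x y)).card = (orb G o x).ncard := by
        rw [hU o x, ← swp_right o x htr, ← Set.ncard_coe_finset]
        congr 1
        ext y
        simp only [Finset.coe_filter, Set.Finite.mem_toFinset, Set.mem_ofPred_eq]
        have hx' : R o x := by simpa using hx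
        exact ⟨fun h => h.2, fun h => ⟨(hRs x y h).1 hx', h⟩⟩
      rw [hcard]
      have := orb_pos hlf hc o x
      field_simp
    have h2 : ∀ y ∈ hB.toFinset, ∑ x ∈ hA.toFinset,
        (if swp G o x y then (1 : ℝ) / (orb G o x).ncard else 0) = 1 := by
      intro y hy
      obtain ⟨φ, hφ⟩ := htr y o
      have h0 : swp G o (φ o) y := ⟨φ, hφ, rfl⟩
      rw [← Finset.sum_filter]
      have hc1 : ∀ x ∈ hA.toFinset.filter (fun x => swp G o x y),
          (1 : ℝ) / (orb G o x).ncard = 1 / (orb G o (φ o)).ncard := by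
        intro x hx
        rw [Finset.mem_filter] at hx
        have : x ∈ orb G o (φ o) := by rw [← swp_left o y (φ o) h0]; exact hx.2
        rw [orb_eq this]
      rw [Finset.sum_congr rfl hc1, Finset.sum_const, nsmul_eq_mul]
      have hcard : (hA.toFinset.filter (fun x => swp G o x y)).card =
          (orb G o (φ o)).ncard := by
        rw [← swp_left o y (φ o) h0, ← Set.ncard_coe_finset]
        congr 1
        ext x
        simp only [Finset.coe_filter, Set.Finite.mem_toFinset, Set.mem_ofPred_eq]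
        have hy' : R y o := by simpa using hy
        exact ⟨fun h => h.2, fun h => ⟨(hRs x y h).2 hy', h⟩⟩
      rw [hcard]
      have := orb_pos hlf hc o (φ o)
      field_simp
    have e1 : ∑ x ∈ hA.toFinset, ∑ y ∈ hB.toFinset,
        (if swp G o x y then (1 : ℝ) / (orb G o x).ncard else 0) = hA.toFinset.card := by
      rw [Finset.sum_congr rfl h1]; simp
    have e2 : ∑ y ∈ hB.toFinset, ∑ x ∈ hA.toFinset,
        (if swp G o x y then (1 : ℝ) / (orb G o x).ncard else 0) = hB.toFinset.card := by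
      rw [Finset.sum_congr rfl h2]; simp
    rw [← e1, ← e2, Finset.sum_comm]
  rw [Set.ncard_eq_toFinset_card _ hA, Set.ncard_eq_toFinset_card _ hB]
  exact_mod_cast key

end Pool.Agent.H61.SW
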