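import Pool.Agent.H61.SWLocal

set_option autoImplicit false
open Filter Topology

/-! Descending 1-Lipschitz functions, opposite pairs, rays. -/

namespace Pool.Agent.H61.SW

variable {V : Type*} {G : SimpleGraph V}

/-- 1-Lipschitz and with a descending neighbour everywhere -/
def Hf (G : SimpleGraph V) (b : V → ℤ) : Prop :=
  (∀ x y, G.Adj x y → b x - b y ≤ 1) ∧ ∀ x, ∃ y, G.Adj x y ∧ b y = b x - 1

lemma Hf.lip {b : V → ℤ} (hb : Hf G b) (hc : G.Connected) (x y : V) :
    b x - b y ≤ G.dist x y := by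
  obtain ⟨p, hp⟩ := hc.exists_walk_length_eq_dist x y
  rw [← hp]
  clear hp
  induction p with
  | nil => simp
  | @cons a c d h p ih =>
    have := hb.1 a c h
    simp only [SimpleGraph.Walk.length_cons]
    push_cast
    linarith

lemma Hf.lip' {b : V → ℤ} (hb : Hf G b) (hc : G.Connected) (x y : V) :
    |b x - b y| ≤ G.dist x y := by
  rw [abs_le]
  constructor
  · have := hb.lip hc y x
    rw [SimpleGraph.dist_comm] at this
    linarith
  · exact hb.lip hc x y

/-- a ray for the set of vertices `W` from `z` -/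
def IsRay (G : SimpleGraph V) (W : List V) (z : V) (e : ℕ → V) : Prop :=
  e 0 = z ∧ (∀ t, G.Adj (e t) (e (t + 1))) ∧ ∀ t, ∀ x ∈ W, t ≤ G.dist (e t) x

/-- the descending ray of `b` -/
noncomputable def dray (G : SimpleGraph V) {b : V → ℤ} (hb : Hf G b) (z : V) : ℕ → V
  | 0 => z
  | t + 1 => Classical.choose (hb.2 (dray G hb z t))

lemma dray_adj {b : V → ℤ} (hb : Hf G b) (z : V) (t : ℕ) :
    G.Adj (dray G hb z t) (dray G hb z (t + 1)) :=
  (Classical.choose_spec (hb.2 (dray G hb z t))).1

lemma dray_val {b : V → ℤ} (hb : Hf G b) (z : V) (t : ℕ) : b (dray G hb z t) = b z - t := by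
  induction t with
  | zero => simp [dray]
  | succ t ih =>
    have := (Classical.choose_spec (hb.2 (dray G hb z t))).2
    rw [show dray G hb z (t + 1) = Classical.choose (hb.2 (dray G hb z t)) from rfl, this, ih]
    push_cast; ring

lemma dray_isRay (hc : G.Connected) {b : V → ℤ} (hb : Hf G b) (W : List V) (z : V)
    (hz : ∀ x ∈ W, b z ≤ b x) : IsRay G W z (dray G hb z) := by
  refine ⟨rfl, dray_adj hb z, fun t x hx => ?_⟩
  have h1 := hb.lip hc x (dray G hb z t)
  rw [dray_val hb z t, SimpleGraph.dist_comm] at h1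
  have := hz x hx
  have : (t : ℤ) ≤ G.dist (dray G hb z t) x := by linarith
  exact_mod_cast this

/-- distances are unbounded -/
lemma exists_dist_ge [Infinite V] (hlf : ∀ v, (G.neighborSet v).Finite) (hc : G.Connected)
    (o : V) (n : ℕ) : ∃ x, n ≤ G.dist o x := by
  by_contra h
  push Not at h
  have hfin := ball_finite hlf hc o n
  have : (Set.univ : Set V) ⊆ {v | G.dist o v ≤ n} := fun x _ => (h x).le
  exact Set.infinite_univ (hfin.subset this)

/-- a point at distance exactly `m` from `x` on the way to `y` -/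
lemma exists_between (hc : G.Connected) (x y : V) (m : ℕ) (hm : m ≤ G.dist x y) :
    ∃ z, G.dist x z = m ∧ G.dist z y = G.dist x y - m := by
  obtain ⟨p, hp⟩ := hc.exists_walk_length_eq_dist x y
  refine ⟨p.getVert m, ?_, ?_⟩
  · have h1 : G.dist x (p.getVert m) ≤ m := by
      have := SimpleGraph.dist_le (p.take m)
      rw [SimpleGraph.Walk.take_length] at this
      omega
    have h2 : G.dist (p.getVert m) y ≤ p.length - m := by
      have := SimpleGraph.dist_le (p.drop m)
      rw [SimpleGraph.Walk.drop_length] at this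
      omega
    have h3 := hc.dist_triangle (u := x) (v := p.getVert m) (w := y)
    omega
  · have h1 : G.dist x (p.getVert m) ≤ m := by
      have := SimpleGraph.dist_le (p.take m)
      rw [SimpleGraph.Walk.take_length] at this
      omega
    have h2 : G.dist (p.getVert m) y ≤ p.length - m := by
      have := SimpleGraph.dist_le (p.drop m)
      rw [SimpleGraph.Walk.drop_length] at this
      omega
    have h3 := hc.dist_triangle (u := x) (v := p.getVert m) (w := y)
    omega

lemma dist_map (φ : G ≃g G) (x y : V) (hc : G.Connected) : G.dist (φ x) (φ y) = G.dist x y := by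
  have key : ∀ (ψ : G ≃g G) (a b : V), G.dist (ψ a) (ψ b) ≤ G.dist a b := by
    intro ψ a b
    obtain ⟨p, hp⟩ := hc.exists_walk_length_eq_dist a b
    rw [← hp]
    have := SimpleGraph.dist_le (p.map ψ.toHom)
    simpa using this
  refine le_antisymm (key φ x y) ?_
  have := key φ.symm (φ x) (φ y)
  simpa using this

/-- opposite far points around every vertex -/
lemma exists_opposite [Infinite V] (hlf : ∀ v, (G.neighborSet v).Finite) (hc : G.Connected)
    (htr : ∀ u v, ∃ φ : G ≃g G, φ u = v) (v : V) (T : ℕ) :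
    ∃ y y', G.dist v y = T ∧ G.dist v y' = T ∧ G.dist y y' = 2 * T := by
  obtain ⟨u, hu⟩ := exists_dist_ge hlf hc v (2 * T)
  obtain ⟨u', h1, -⟩ := exists_between hc v u (2 * T) hu
  obtain ⟨m, h2, h3⟩ := exists_between hc v u' T (by omega)
  obtain ⟨φ, hφ⟩ := htr m v
  refine ⟨φ v, φ u', ?_, ?_, ?_⟩
  · rw [← hφ, hφ]
    nth_rewrite 1 [← hφ]
    rw [dist_map φ m v hc, SimpleGraph.dist_comm, h2]
  · nth_rewrite 1 [← hφ]
    rw [dist_map φ m u' hc, h3, h1]; omega
  · rw [dist_map φ v u' hc, h1]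

lemma ultra_finite {ι : Type*} (U : Ultrafilter ι) (f : ι → ℤ) (s : Finset ℤ)
    (h : ∀ᶠ i in (U : Filter ι), f i ∈ s) : ∃ z ∈ s, ∀ᶠ i in (U : Filter ι), f i = z := by
  by_contra hcon
  push Not at hcon
  have h1 : ∀ z ∈ s, ∀ᶠ i in (U : Filter ι), f i ≠ z := fun z hz => hcon z hz
  have h2 : ∀ᶠ i in (U : Filter ι), ∀ z ∈ s, f i ≠ z := by
    rw [Filter.eventually_all_finset]; exact h1
  obtain ⟨i, h3, h4⟩ := (h.and h2).exists
  exact h4 _ h3 rfl

/-- opposite descending functions at every vertex -/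
theorem exists_opp [Infinite V] (hlf : ∀ v, (G.neighborSet v).Finite) (hc : G.Connected)
    (htr : ∀ u v, ∃ φ : G ≃g G, φ u = v) (v : V) :
    ∃ b b' : V → ℤ, Hf G b ∧ Hf G b' ∧ b v = 0 ∧ b' v = 0 ∧ ∀ x, 0 ≤ b x + b' x := by
  classical
  choose y y' h1 h2 h3 using exists_opposite hlf hc htr v
  let U : Ultrafilter ℕ := hyperfilter ℕ
  -- general limit
  have lim : ∀ y : ℕ → V, (∀ T, G.dist v (y T) = T) →
      ∃ b : V → ℤ, Hf G b ∧ b v = 0 ∧
        ∀ x, ∀ᶠ T in (U : Filter ℕ), (G.dist x (y T) : ℤ) - T = b x := by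
    intro y hy
    have hex : ∀ x, ∃ z : ℤ, ∀ᶠ T in (U : Filter ℕ), (G.dist x (y T) : ℤ) - T = z := by
      intro x
      obtain ⟨z, -, hz⟩ := ultra_finite U (fun T => (G.dist x (y T) : ℤ) - T)
        (Finset.Icc (-(G.dist x v : ℤ)) (G.dist x v)) (Eventually.of_forall fun T => by
          rw [Finset.mem_Icc]
          have e1 := hc.dist_triangle (u := x) (v := v) (w := y T)
          have e2 := hc.dist_triangle (u := v) (v := x) (w := y T)
          rw [hy] at e1 e2
          rw [SimpleGraph.dist_comm (u := v) (v := x)] at e2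
          have e1' : (G.dist x (y T) : ℤ) ≤ G.dist x v + T := by exact_mod_cast e1
          have e2' : (T : ℤ) ≤ G.dist x v + G.dist x (y T) := by exact_mod_cast e2
          constructor <;> linarith)
      exact ⟨z, hz⟩
    choose b hb using hex
    refine ⟨b, ⟨?_, ?_⟩, ?_, hb⟩
    · intro x z hxz
      obtain ⟨T, e1, e2⟩ := ((hb x).and (hb z)).exists
      rw [← e1, ← e2]
      have e3 := hc.dist_triangle (u := x) (v := z) (w := y T)
      rw [SimpleGraph.dist_eq_one_iff_adj.2 hxz] at e3
      have : (G.dist x (y T) : ℤ) ≤ 1 + G.dist z (y T) := by exact_mod_cast e3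
      linarith
    · intro x
      -- neighbours are finitely many
      have hne : ∀ᶠ T in (U : Filter ℕ), G.dist x v < T := by
        have : ∀ᶠ T in (atTop : Filter ℕ), G.dist x v < T := eventually_gt_atTop _
        exact (Nat.hyperfilter_le_atTop) this
      have hstep : ∀ᶠ T in (U : Filter ℕ), ∃ z ∈ (hlf x).toFinset,
          (G.dist z (y T) : ℤ) - T = (G.dist x (y T) : ℤ) - T - 1 := by
        filter_upwards [hne] with T hT
        have hpos : 1 ≤ G.dist x (y T) := by
          have e2 := hc.dist_triangle (u := v) (v := x) (w := y T)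
          rw [hy, SimpleGraph.dist_comm (u := v) (v := x)] at e2
          omega
        obtain ⟨z, hz1, hz2⟩ := exists_between hc x (y T) 1 hpos
        refine ⟨z, ?_, ?_⟩
        · rw [Set.Finite.mem_toFinset]
          exact SimpleGraph.dist_eq_one_iff_adj.1 hz1
        · rw [hz2]; push_cast [Nat.cast_sub hpos]; ring
      have hfin : ∃ z ∈ (hlf x).toFinset, ∀ᶠ T in (U : Filter ℕ),
          (G.dist z (y T) : ℤ) - T = (G.dist x (y T) : ℤ) - T - 1 := by
        by_contra hcon
        push Not at hcon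
        have h1 : ∀ z ∈ (hlf x).toFinset, ∀ᶠ T in (U : Filter ℕ),
            ¬ ((G.dist z (y T) : ℤ) - T = (G.dist x (y T) : ℤ) - T - 1) := fun z hz => hcon z hz
        have h2 := (Filter.eventually_all_finset (hlf x).toFinset).2 h1
        obtain ⟨T, ⟨z, hz, h3⟩, h4⟩ := (hstep.and h2).exists
        exact h4 z hz h3
      obtain ⟨z, hz, hzT⟩ := hfin
      refine ⟨z, (Set.Finite.mem_toFinset _).1 hz, ?_⟩
      obtain ⟨T, e1, e2, e3⟩ := ((hb x).and ((hb z).and hzT)).exists
      rw [← e1, ← e2, e3]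
    · obtain ⟨T, e1⟩ := (hb v).exists
      rw [← e1, hy]; ring
  obtain ⟨b, hb1, hb2, hb3⟩ := lim y h1
  obtain ⟨b', hb1', hb2', hb3'⟩ := lim y' h2
  refine ⟨b, b', hb1, hb1', hb2, hb2', fun x => ?_⟩
  obtain ⟨T, e1, e2⟩ := ((hb3 x).and (hb3' x)).exists
  rw [← e1, ← e2]
  have e3 := hc.dist_triangle (u := y T) (v := x) (w := y' T)
  rw [h3, SimpleGraph.dist_comm (u := y T)] at e3
  have : (2 * T : ℤ) ≤ G.dist x (y T) + G.dist x (y' T) := by exact_mod_cast e3
  linarith

end Pool.Agent.H61.SW
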