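import Mathlib

/-!
# The combinatorial core: two consecutive steps of different type cannot exist in dimension three

`x o a j c` : value (fractional part) at layer `j`, coordinate `c`, of the point attached to the
set `o` and the position `a`; `δ j c` : change of the cell in coordinate `c` at step `j`.
-/

set_option autoImplicit false

namespace Pool.Agent.H61

/-- comparison of two positions, according to a sign -/
def cmp2 (s : Bool) (a b : ℕ) : Prop := if s then a < b else b < a

/-- comparison of two sets, according to a sign -/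
def cmpF (t : Bool) (o o' : ℕ → ℕ) : Prop := if t then (∀ n, o n < o' n) else (∀ n, o' n < o n)

structure Core (r : ℕ) (A : ℕ → Prop) (x : (ℕ → ℕ) → ℕ → ℕ → Fin 3 → ℝ) (δ : ℕ → Fin 3 → ℝ)
    (al : Bool → Bool → ℕ → Fin 3 → Prop) : Prop where
  /-- the layer `0` depends only on the element -/
  h0 : ∀ o o' a, (∀ n, o n ≤ 3) → (∀ n, o' n ≤ 3) → A a → o a = o' a → x o a 0 = x o' a 0
  /-- the layer `r` depends only on the set -/
  hr : ∀ o a a', (∀ n, o n ≤ 3) → A a → A a' → x o a r = x o a' r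
  /-- consecutive points of a walk are close -/
  c1 : ∀ o a j c, (∀ n, o n ≤ 3) → A a → j < r → δ j c * x o a (j + 1) c ≤ δ j c * x o a j c
  /-- no false walk -/
  c2 : ∀ o o' a a' j t, (∀ n, o n ≤ 3) → (∀ n, o' n ≤ 3) → A a → A a' → a ≠ a' → cmpF t o o' → j < r →
    ∃ c, δ j c * x o a j c < δ j c * x o' a' (j + 1) c
  /-- homogeneity -/
  hom : ∀ o o' a a' j c s t, (∀ n, o n ≤ 3) → (∀ n, o' n ≤ 3) → A a → A a' → cmp2 s a a' →
    cmpF t o o' → j < r → (δ j c * x o a j c < δ j c * x o' a' (j + 1) c ↔ al s t j c)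

variable {r : ℕ} {A : ℕ → Prop} {x : (ℕ → ℕ) → ℕ → ℕ → Fin 3 → ℝ} {δ : ℕ → Fin 3 → ℝ}
  {al : Bool → Bool → ℕ → Fin 3 → Prop}

namespace Core

/-- the separated intervals -/
theorem p3 (H : Core r A x δ al) {o o' : ℕ → ℕ} {a a' j : ℕ} {c : Fin 3} {s t : Bool}
    (ho : ∀ n, o n ≤ 3) (ho' : ∀ n, o' n ≤ 3) (ha : A a) (ha' : A a') (hs : cmp2 s a a')
    (ht : cmpF t o o') (hj : j < r) (h : al s t j c) :
    δ j c * x o a j c < δ j c * x o' a' j c ∧ δ j c * x o a (j + 1) c < δ j c * x o' a' (j + 1) c ∧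
    δ j c * x o a j c < δ j c * x o' a' (j + 1) c := by
  have h1 := (H.hom o o' a a' j c s t ho ho' ha ha' hs ht hj).2 h
  have h2 := H.c1 o a j c ho ha hj
  have h3 := H.c1 o' a' j c ho' ha' hj
  exact ⟨lt_of_lt_of_le h1 h3, lt_of_le_of_lt h2 h1, h1⟩

/-- four increasing positions in `A` -/
structure Pos (A : ℕ → Prop) (q : ℕ → ℕ) : Prop where
  mem : ∀ i < 4, A (q i)
  lt : ∀ i j, i < j → j < 4 → q i < q j

theorem cmpF_const {t : Bool} {b b' : ℕ} (h : cmp2 t b b') : cmpF t (fun _ => b) (fun _ => b') := by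
  cases t
  · exact fun _ => h
  · exact fun _ => h

/-- not both directions -/
theorem p1 (H : Core r A x δ al) {q : ℕ → ℕ} (hq : Pos A q) {j : ℕ} {c : Fin 3} (hj : j < r) (s t : Bool) :
    ¬ (al s t j c ∧ al (!s) (!t) j c) := by
  rintro ⟨h1, h2⟩
  have key : ∀ (o o' : ℕ → ℕ) (a a' : ℕ), (∀ n, o n ≤ 3) → (∀ n, o' n ≤ 3) → A a → A a' →
      cmp2 s a a' → cmp2 (!s) a' a → cmpF t o o' → cmpF (!t) o' o → False := by
    intro o o' a a' ho ho' ha ha' hs hs' ht ht'
    have e1 := H.p3 ho ho' ha ha' hs ht hj h1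
    have e2 := H.p3 ho' ho ha' ha hs' ht' hj h2
    exact lt_asymm e1.1 e2.1
  have h01 : q 0 < q 1 := hq.lt 0 1 (by norm_num) (by norm_num)
  cases s <;> cases t
  · exact key (fun _ => 1) (fun _ => 0) (q 1) (q 0) (by simp) (by simp) (hq.mem 1 (by norm_num))
      (hq.mem 0 (by norm_num)) (by simpa [cmp2] using h01) (by simpa [cmp2] using h01)
      (by simp [cmpF]) (by simp [cmpF])
  · exact key (fun _ => 0) (fun _ => 1) (q 1) (q 0) (by simp) (by simp) (hq.mem 1 (by norm_num))
      (hq.mem 0 (by norm_num)) (by simpa [cmp2] using h01) (by simpa [cmp2] using h01)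
      (by simp [cmpF]) (by simp [cmpF])
  · exact key (fun _ => 1) (fun _ => 0) (q 0) (q 1) (by simp) (by simp) (hq.mem 0 (by norm_num))
      (hq.mem 1 (by norm_num)) (by simpa [cmp2] using h01) (by simpa [cmp2] using h01)
      (by simp [cmpF]) (by simp [cmpF])
  · exact key (fun _ => 0) (fun _ => 1) (q 0) (q 1) (by simp) (by simp) (hq.mem 0 (by norm_num))
      (hq.mem 1 (by norm_num)) (by simpa [cmp2] using h01) (by simpa [cmp2] using h01)
      (by simp [cmpF]) (by simp [cmpF])

/-- interval orders have no `2+2` -/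
theorem p2 (H : Core r A x δ al) {q : ℕ → ℕ} (hq : Pos A q) {j : ℕ} {c : Fin 3} (hj : j < r) (s t : Bool)
    (h : al s t j c) : al s (!t) j c ∨ al (!s) t j c := by
  have key : ∀ (b1 b2 b3 b4 : ℕ) (i1 i2 i3 i4 : ℕ), b1 ≤ 3 → b2 ≤ 3 → b3 ≤ 3 → b4 ≤ 3 →
      i1 < 4 → i2 < 4 → i3 < 4 → i4 < 4 →
      cmp2 s (q i1) (q i2) → cmp2 t b1 b2 → cmp2 s (q i3) (q i4) → cmp2 t b3 b4 →
      cmp2 (!s) (q i1) (q i4) → cmp2 t b1 b4 → cmp2 s (q i3) (q i2) → cmp2 (!t) b3 b2 →
      al s (!t) j c ∨ al (!s) t j c := by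
    intro b1 b2 b3 b4 i1 i2 i3 i4 hb1 hb2 hb3 hb4 hi1 hi2 hi3 hi4 h12 h12' h34 h34' h14 h14' h32 h32'
    have e1 := (H.hom (fun _ => b1) (fun _ => b2) (q i1) (q i2) j c s t (fun _ => hb1) (fun _ => hb2)
      (hq.mem _ hi1) (hq.mem _ hi2) h12 (cmpF_const h12') hj).2 h
    have e2 := (H.hom (fun _ => b3) (fun _ => b4) (q i3) (q i4) j c s t (fun _ => hb3) (fun _ => hb4)
      (hq.mem _ hi3) (hq.mem _ hi4) h34 (cmpF_const h34') hj).2 h
    rcases le_total (δ j c * x (fun _ => b1) (q i1) j c) (δ j c * x (fun _ => b3) (q i3) j c) with hle | hle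
    · right
      exact (H.hom (fun _ => b1) (fun _ => b4) (q i1) (q i4) j c (!s) t (fun _ => hb1) (fun _ => hb4)
        (hq.mem _ hi1) (hq.mem _ hi4) h14 (cmpF_const h14') hj).1 (lt_of_le_of_lt hle e2)
    · left
      exact (H.hom (fun _ => b3) (fun _ => b2) (q i3) (q i2) j c s (!t) (fun _ => hb3) (fun _ => hb2)
        (hq.mem _ hi3) (hq.mem _ hi2) h32 (cmpF_const h32') hj).1 (lt_of_le_of_lt hle e1)
  have hlt := hq.lt
  have h01 := hlt 0 1 (by norm_num) (by norm_num)
  have h12 := hlt 1 2 (by norm_num) (by norm_num)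
  have h23 := hlt 2 3 (by norm_num) (by norm_num)
  cases s <;> cases t
  · exact key 3 2 1 0 1 0 3 2 (by norm_num) (by norm_num) (by norm_num) (by norm_num) (by norm_num)
      (by norm_num) (by norm_num) (by norm_num) (by simp [cmp2]; omega) (by simp [cmp2])
      (by simp [cmp2]; omega) (by simp [cmp2]) (by simp [cmp2]; omega) (by simp [cmp2])
      (by simp [cmp2]; omega) (by simp [cmp2])
  · exact key 0 1 2 3 1 0 3 2 (by norm_num) (by norm_num) (by norm_num) (by norm_num) (by norm_num)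
      (by norm_num) (by norm_num) (by norm_num) (by simp [cmp2]; omega) (by simp [cmp2])
      (by simp [cmp2]; omega) (by simp [cmp2]) (by simp [cmp2]; omega) (by simp [cmp2])
      (by simp [cmp2]; omega) (by simp [cmp2])
  · exact key 3 2 1 0 2 3 0 1 (by norm_num) (by norm_num) (by norm_num) (by norm_num) (by norm_num)
      (by norm_num) (by norm_num) (by norm_num) (by simp [cmp2]; omega) (by simp [cmp2])
      (by simp [cmp2]; omega) (by simp [cmp2]) (by simp [cmp2]; omega) (by simp [cmp2])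
      (by simp [cmp2]; omega) (by simp [cmp2])
  · exact key 0 1 2 3 2 3 0 1 (by norm_num) (by norm_num) (by norm_num) (by norm_num) (by norm_num)
      (by norm_num) (by norm_num) (by norm_num) (by simp [cmp2]; omega) (by simp [cmp2])
      (by simp [cmp2]; omega) (by simp [cmp2]) (by simp [cmp2]; omega) (by simp [cmp2])
      (by simp [cmp2]; omega) (by simp [cmp2])

/-- coverage -/
theorem cover (H : Core r A x δ al) {q : ℕ → ℕ} (hq : Pos A q) {j : ℕ} (hj : j < r) (s t : Bool) :
    ∃ c, al s t j c := by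
  have key : ∀ (b b' i i' : ℕ), b ≤ 3 → b' ≤ 3 → i < 4 → i' < 4 → cmp2 s (q i) (q i') → cmp2 t b b' →
      ∃ c, al s t j c := by
    intro b b' i i' hb hb' hi hi' hs ht
    have hne : q i ≠ q i' := by
      intro h
      rw [h] at hs
      cases s <;> simp [cmp2] at hs
    obtain ⟨c, hc⟩ := H.c2 (fun _ => b) (fun _ => b') (q i) (q i') j t (fun _ => hb) (fun _ => hb')
      (hq.mem _ hi) (hq.mem _ hi') hne (cmpF_const ht) hj
    exact ⟨c, (H.hom (fun _ => b) (fun _ => b') (q i) (q i') j c s t (fun _ => hb) (fun _ => hb')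
      (hq.mem _ hi) (hq.mem _ hi') hs (cmpF_const ht) hj).1 hc⟩
  have h01 := hq.lt 0 1 (by norm_num) (by norm_num)
  cases s <;> cases t
  · exact key 1 0 1 0 (by norm_num) (by norm_num) (by norm_num) (by norm_num) (by simpa [cmp2] using h01)
      (by simp [cmp2])
  · exact key 0 1 1 0 (by norm_num) (by norm_num) (by norm_num) (by norm_num) (by simpa [cmp2] using h01)
      (by simp [cmp2])
  · exact key 1 0 0 1 (by norm_num) (by norm_num) (by norm_num) (by norm_num) (by simpa [cmp2] using h01)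
      (by simp [cmp2])
  · exact key 0 1 0 1 (by norm_num) (by norm_num) (by norm_num) (by norm_num) (by simpa [cmp2] using h01)
      (by simp [cmp2])

/-- coordinate `c` of step `j` sorts by elements -/
def IType (al : Bool → Bool → ℕ → Fin 3 → Prop) (s : Bool) (j : ℕ) (c : Fin 3) : Prop :=
  al s true j c ∧ al s false j c

/-- coordinate `c` of step `j` sorts by sets -/
def TType (al : Bool → Bool → ℕ → Fin 3 → Prop) (t : Bool) (j : ℕ) (c : Fin 3) : Prop :=
  al true t j c ∧ al false t j c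

theorem dich (H : Core r A x δ al) {q : ℕ → ℕ} (hq : Pos A q) {j : ℕ} {c : Fin 3} (hj : j < r) (s t : Bool)
    (h : al s t j c) : IType al s j c ∨ TType al t j c := by
  rcases H.p2 hq hj s t h with h' | h'
  · left
    cases t
    · exact ⟨h', h⟩
    · exact ⟨h, h'⟩
  · right
    cases s
    · exact ⟨h', h⟩
    · exact ⟨h, h'⟩

def Left (al : Bool → Bool → ℕ → Fin 3 → Prop) (j : ℕ) : Prop :=
  ∃ c c', IType al true j c ∧ IType al false j c'

def Right (al : Bool → Bool → ℕ → Fin 3 → Prop) (j : ℕ) : Prop :=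
  ∃ c c', TType al true j c ∧ TType al false j c'

theorem left_or_right (H : Core r A x δ al) {q : ℕ → ℕ} (hq : Pos A q) {j : ℕ} (hj : j < r) :
    Left al j ∨ Right al j := by
  obtain ⟨c1, h1⟩ := H.cover hq hj true true
  obtain ⟨c2, h2⟩ := H.cover hq hj false true
  obtain ⟨c3, h3⟩ := H.cover hq hj false false
  obtain ⟨c4, h4⟩ := H.cover hq hj true false
  rcases H.dich hq hj _ _ h1 with k1 | k1
  · rcases H.dich hq hj _ _ h2 with k2 | k2
    · exact Or.inl ⟨c1, c2, k1, k2⟩
    · rcases H.dich hq hj _ _ h3 with k3 | k3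
      · exact Or.inl ⟨c1, c3, k1, k3⟩
      · exact Or.inr ⟨c2, c3, k2, k3⟩
  · rcases H.dich hq hj _ _ h4 with k4 | k4
    · rcases H.dich hq hj _ _ h3 with k3 | k3
      · exact Or.inl ⟨c4, c3, k4, k3⟩
      · exact Or.inr ⟨c1, c3, k1, k3⟩
    · exact Or.inr ⟨c1, c4, k1, k4⟩

theorem ne_of_left (H : Core r A x δ al) {q : ℕ → ℕ} (hq : Pos A q) {j : ℕ} (hj : j < r) {c c' : Fin 3}
    (h : IType al true j c) (h' : IType al false j c') : c ≠ c' := by
  rintro rfl
  exact H.p1 hq hj true true ⟨h.1, h'.2⟩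

theorem ne_of_right (H : Core r A x δ al) {q : ℕ → ℕ} (hq : Pos A q) {j : ℕ} (hj : j < r) {c c' : Fin 3}
    (h : TType al true j c) (h' : TType al false j c') : c ≠ c' := by
  rintro rfl
  exact H.p1 hq hj true true ⟨h.1, h'.2⟩

theorem itype_al {s : Bool} {j : ℕ} {c : Fin 3} (h : IType al s j c) (t : Bool) : al s t j c := by
  cases t
  · exact h.2
  · exact h.1

theorem ttype_al {t : Bool} {j : ℕ} {c : Fin 3} (h : TType al t j c) (s : Bool) : al s t j c := by
  cases s
  · exact h.2
  · exact h.1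

/-- the first step does not sort by sets -/
theorem first (H : Core r A x δ al) {q : ℕ → ℕ} (hq : Pos A q) (hj : 0 < r) (t : Bool) (c : Fin 3) :
    ¬ TType al t 0 c := by
  intro h
  have h01 := hq.lt 0 1 (by norm_num) (by norm_num)
  have hne : q 0 ≠ q 1 := h01.ne
  -- the four sets
  set oT : ℕ → ℕ := fun _ => 1 with hoT
  set oT' : ℕ → ℕ := fun _ => 2 with hoT'
  set oS : ℕ → ℕ := Function.update (fun _ => 1) (q 1) 3 with hoS
  set oS' : ℕ → ℕ := Function.update (fun _ => 0) (q 1) 2 with hoS'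
  have b1 : ∀ n, oT n ≤ 3 := fun _ => by norm_num [hoT]
  have b2 : ∀ n, oT' n ≤ 3 := fun _ => by norm_num [hoT']
  have b3 : ∀ n, oS n ≤ 3 := fun n => by
    by_cases hn : n = q 1
    · subst hn; simp [hoS]
    · simp [hoS, Function.update_of_ne hn]
  have b4 : ∀ n, oS' n ≤ 3 := fun n => by
    by_cases hn : n = q 1
    · subst hn; simp [hoS']
    · simp [hoS', Function.update_of_ne hn]
  have l1 : ∀ n, oT n < oT' n := fun _ => by norm_num [hoT, hoT']
  have l2 : ∀ n, oS' n < oS n := fun n => by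
    by_cases hn : n = q 1
    · subst hn; simp [hoS, hoS']
    · simp [hoS, hoS', Function.update_of_ne hn]
  have m0 := hq.mem 0 (by norm_num)
  have m1 := hq.mem 1 (by norm_num)
  have e1 : x oT (q 0) 0 = x oS (q 0) 0 :=
    H.h0 _ _ _ b1 b3 m0 (by simp [hoT, hoS, Function.update_of_ne hne])
  have e2 : x oT' (q 1) 0 = x oS' (q 1) 0 := H.h0 _ _ _ b2 b4 m1 (by simp [hoT', hoS'])
  cases t
  · have k1 := (H.p3 (s := false) (t := false) b2 b1 m1 m0 (by simpa [cmp2] using h01)
      (by simpa [cmpF] using l1) hj (ttype_al h false)).1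
    have k2 := (H.p3 (s := true) (t := false) b3 b4 m0 m1 (by simpa [cmp2] using h01)
      (by simpa [cmpF] using l2) hj (ttype_al h true)).1
    rw [e1, e2] at k1
    exact lt_asymm k1 k2
  · have k1 := (H.p3 (s := true) (t := true) b1 b2 m0 m1 (by simpa [cmp2] using h01)
      (by simpa [cmpF] using l1) hj (ttype_al h true)).1
    have k2 := (H.p3 (s := false) (t := true) b4 b3 m1 m0 (by simpa [cmp2] using h01)
      (by simpa [cmpF] using l2) hj (ttype_al h false)).1
    rw [e1, e2] at k1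
    exact lt_asymm k1 k2

/-- the last step does not sort by elements -/
theorem last (H : Core r A x δ al) {q : ℕ → ℕ} (hq : Pos A q) {j : ℕ} (hj : j + 1 = r) (s : Bool) (c : Fin 3) :
    ¬ IType al s j c := by
  intro h
  have hjr : j < r := by omega
  have h01 := hq.lt 0 1 (by norm_num) (by norm_num)
  set oT : ℕ → ℕ := fun _ => 0 with hoT
  set oT' : ℕ → ℕ := fun _ => 1 with hoT'
  have b1 : ∀ n, oT n ≤ 3 := fun _ => by norm_num [hoT]
  have b2 : ∀ n, oT' n ≤ 3 := fun _ => by norm_num [hoT']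
  have l1 : ∀ n, oT n < oT' n := fun _ => by norm_num [hoT, hoT']
  have m0 := hq.mem 0 (by norm_num)
  have m1 := hq.mem 1 (by norm_num)
  have e1 : x oT (q 0) (j + 1) = x oT (q 1) (j + 1) := by rw [hj]; exact H.hr _ _ _ b1 m0 m1
  have e2 : x oT' (q 0) (j + 1) = x oT' (q 1) (j + 1) := by rw [hj]; exact H.hr _ _ _ b2 m0 m1
  cases s
  · have k1 := (H.p3 (s := false) (t := false) b2 b1 m1 m0 (by simpa [cmp2] using h01)
      (by simpa [cmpF] using l1) hjr (itype_al h false)).2.1
    have k2 := (H.p3 (s := false) (t := true) b1 b2 m1 m0 (by simpa [cmp2] using h01)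
      (by simpa [cmpF] using l1) hjr (itype_al h true)).2.1
    rw [e1] at k1
    rw [e2] at k2
    exact lt_asymm k1 k2
  · have k1 := (H.p3 (s := true) (t := true) b1 b2 m0 m1 (by simpa [cmp2] using h01)
      (by simpa [cmpF] using l1) hjr (itype_al h true)).2.1
    have k2 := (H.p3 (s := true) (t := false) b2 b1 m0 m1 (by simpa [cmp2] using h01)
      (by simpa [cmpF] using l1) hjr (itype_al h false)).2.1
    rw [e1] at k1
    rw [e2] at k2
    exact lt_asymm k1 k2

/-- a coordinate cannot change its type -/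
theorem change (H : Core r A x δ al) {q : ℕ → ℕ} (hq : Pos A q) {j : ℕ} (hj : j + 1 < r) {s t : Bool}
    {c : Fin 3} (h : IType al s j c) (h' : TType al t (j + 1) c) : False := by
  have hj' : j < r := by omega
  have h01 := hq.lt 0 1 (by norm_num) (by norm_num)
  -- for a pair of type `(s, t)` and a pair of type `(s, !t)`
  have key : ∀ (o o' : ℕ → ℕ) (a a' : ℕ), (∀ n, o n ≤ 3) → (∀ n, o' n ≤ 3) → A a → A a' →
      cmp2 s a a' → cmp2 (!s) a' a → cmpF t o o' → cmpF (!t) o' o → False := by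
    intro o o' a a' ho ho' ha ha' hs hs' ht ht'
    -- type (s, t): (o, a), (o', a')
    have k1 := (H.p3 ho ho' ha ha' hs ht hj' (itype_al h t)).2.1
    have k2 := (H.p3 ho ho' ha ha' hs ht hj (ttype_al h' s)).1
    -- type (s, !t): (o', a), (o, a')
    have k3 := (H.p3 ho' ho ha ha' hs ht' hj' (itype_al h (!t))).2.1
    have k4 := (H.p3 ho ho' ha' ha hs' ht hj (ttype_al h' (!s))).1
    set u := x o a (j + 1) c
    set v := x o' a' (j + 1) c
    set u' := x o' a (j + 1) c
    set v' := x o a' (j + 1) c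
    have m1 : 0 < (δ j c * (v - u)) * (δ (j + 1) c * (v - u)) := by
      apply mul_pos <;> nlinarith
    have m2 : 0 < (δ j c * (v' - u')) * (δ (j + 1) c * (u' - v')) := by
      apply mul_pos <;> nlinarith
    have n1 : 0 < δ j c * δ (j + 1) c * (v - u) ^ 2 := by nlinarith
    have n2 : δ j c * δ (j + 1) c * (v' - u') ^ 2 < 0 := by nlinarith
    have n3 : 0 < δ j c * δ (j + 1) c := by
      by_contra hcon
      push Not at hcon
      have := mul_nonneg (neg_nonneg.2 hcon) (sq_nonneg (v - u))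
      nlinarith
    have := mul_nonneg n3.le (sq_nonneg (v' - u'))
    linarith
  have m0 := hq.mem 0 (by norm_num)
  have m1 := hq.mem 1 (by norm_num)
  cases s <;> cases t
  · exact key (fun _ => 1) (fun _ => 0) (q 1) (q 0) (by simp) (by simp) m1 m0
      (by simpa [cmp2] using h01) (by simpa [cmp2] using h01) (by simp [cmpF]) (by simp [cmpF])
  · exact key (fun _ => 0) (fun _ => 1) (q 1) (q 0) (by simp) (by simp) m1 m0
      (by simpa [cmp2] using h01) (by simpa [cmp2] using h01) (by simp [cmpF]) (by simp [cmpF])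
  · exact key (fun _ => 1) (fun _ => 0) (q 0) (q 1) (by simp) (by simp) m0 m1
      (by simpa [cmp2] using h01) (by simpa [cmp2] using h01) (by simp [cmpF]) (by simp [cmpF])
  · exact key (fun _ => 0) (fun _ => 1) (q 0) (q 1) (by simp) (by simp) m0 m1
      (by simpa [cmp2] using h01) (by simpa [cmp2] using h01) (by simp [cmpF]) (by simp [cmpF])

theorem pigeon {c1 c1' c2 c2' : Fin 3} (h1 : c1 ≠ c1') (h2 : c2 ≠ c2') :
    c1 = c2 ∨ c1 = c2' ∨ c1' = c2 ∨ c1' = c2' := by
  revert c1 c1' c2 c2'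
  decide

/-- The contradiction. -/
theorem false (H : Core r A x δ al) {q : ℕ → ℕ} (hq : Pos A q) (hr : 0 < r) : False := by
  have hL0 : Left al 0 := by
    rcases H.left_or_right hq hr with h | ⟨c, c', h, _⟩
    · exact h
    · exact absurd h (H.first hq hr true c)
  have hind : ∀ j, j < r → Left al j := by
    intro j
    induction j with
    | zero => exact fun _ => hL0
    | succ j ih =>
      intro hj
      obtain ⟨c1, c1', k1, k1'⟩ := ih (by omega)
      rcases H.left_or_right hq hj with h | ⟨c2, c2', k2, k2'⟩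
      · exact h
      · exfalso
        have hne1 := H.ne_of_left hq (by omega) k1 k1'
        have hne2 := H.ne_of_right hq hj k2 k2'
        rcases pigeon hne1 hne2 with h | h | h | h
        · subst h; exact H.change hq hj k1 k2
        · subst h; exact H.change hq hj k1 k2'
        · subst h; exact H.change hq hj k1' k2
        · subst h; exact H.change hq hj k1' k2'
  obtain ⟨c, c', h, _⟩ := hind (r - 1) (by omega)
  exact H.last hq (by omega) true c h

end Core

end Pool.Agent.H61
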