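import Pool.Agent.H61.Ramsey
import Pool.Agent.H61.VCCore

/-!
# Bounded VC-dimension of balls of fixed radius in unit cube graphs: extraction of the homogeneous
structure by two applications of Ramsey's theorem
-/

set_option autoImplicit false

namespace Pool.Agent.H61

open Finset

def near (x y : Fin 3 → ℝ) : Prop := ∀ c, |x c - y c| ≤ 1

theorem floor_diff {x y : ℝ} (h : |x - y| ≤ 1) : |⌊y⌋ - ⌊x⌋| ≤ 1 := by
  rw [abs_le] at h
  have h1 := Int.floor_add_fract x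
  have h2 := Int.floor_add_fract y
  have h3 := Int.fract_nonneg x
  have h4 := Int.fract_lt_one x
  have h5 := Int.fract_nonneg y
  have h6 := Int.fract_lt_one y
  have h7 : ((⌊y⌋ - ⌊x⌋ : ℤ) : ℝ) < 2 := by push_cast; linarith
  have h8 : (-2 : ℝ) < ((⌊y⌋ - ⌊x⌋ : ℤ) : ℝ) := by push_cast; linarith
  have h9 : ⌊y⌋ - ⌊x⌋ < 2 := by exact_mod_cast h7
  have h10 : -2 < ⌊y⌋ - ⌊x⌋ := by exact_mod_cast h8
  rw [abs_le]
  omega

theorem far_iff {x y : ℝ} (hd : |⌊y⌋ - ⌊x⌋| ≤ 1) :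
    1 < |x - y| ↔ ((⌊y⌋ : ℝ) - ⌊x⌋) * Int.fract x < ((⌊y⌋ : ℝ) - ⌊x⌋) * Int.fract y := by
  have h1 := Int.floor_add_fract x
  have h2 := Int.floor_add_fract y
  have h3 := Int.fract_nonneg x
  have h4 := Int.fract_lt_one x
  have h5 := Int.fract_nonneg y
  have h6 := Int.fract_lt_one y
  have hc : ⌊y⌋ - ⌊x⌋ = -1 ∨ ⌊y⌋ - ⌊x⌋ = 0 ∨ ⌊y⌋ - ⌊x⌋ = 1 := by
    rw [abs_le] at hd
    omega
  rcases hc with hc | hc | hc
  · have hc' : (⌊y⌋ : ℝ) - ⌊x⌋ = -1 := by exact_mod_cast hc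
    rw [hc', lt_abs]
    constructor
    · rintro (h | h) <;> linarith
    · intro h
      left
      linarith
  · have hc' : (⌊y⌋ : ℝ) - ⌊x⌋ = 0 := by exact_mod_cast hc
    rw [hc', lt_abs]
    constructor
    · rintro (h | h) <;> linarith
    · intro h
      simp at h
  · have hc' : (⌊y⌋ : ℝ) - ⌊x⌋ = 1 := by exact_mod_cast hc
    rw [hc', lt_abs]
    constructor
    · rintro (h | h) <;> linarith
    · intro h
      right
      linarith

theorem near_le {x y : ℝ} (h : |x - y| ≤ 1) :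
    ((⌊y⌋ : ℝ) - ⌊x⌋) * Int.fract y ≤ ((⌊y⌋ : ℝ) - ⌊x⌋) * Int.fract x := by
  have := (far_iff (floor_diff h)).not.1 (not_lt.2 h)
  exact not_lt.1 this

structure Sys {V : Type*} (a : V → Fin 3 → ℝ) (r k : ℕ) (u : ℕ → V) (v : Finset ℕ → V)
    (w : Finset ℕ → ℕ → ℕ → V) : Prop where
  w0 : ∀ T ⊆ range k, ∀ i ∈ T, w T i 0 = u i
  wr : ∀ T ⊆ range k, ∀ i ∈ T, w T i r = v T
  wn : ∀ T ⊆ range k, ∀ i ∈ T, ∀ j < r, near (a (w T i j)) (a (w T i (j + 1)))
  nw : ∀ T ⊆ range k, ∀ i < k, i ∉ T → ∀ w' : ℕ → V, w' 0 = u i → w' r = v T →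
    ¬ ∀ j < r, near (a (w' j)) (a (w' (j + 1)))

namespace Sys

variable {V : Type*} {a : V → Fin 3 → ℝ} {r k : ℕ} {u : ℕ → V} {v : Finset ℕ → V}
  {w : Finset ℕ → ℕ → ℕ → V}

theorem no_false (S : Sys a r k u v w) {T T' : Finset ℕ} (hT : T ⊆ range k) (hT' : T' ⊆ range k)
    {i i' : ℕ} (hi : i ∈ T) (hi' : i' ∈ T') (h : i ∉ T') {j : ℕ} (hj : j < r) :
    ∃ c, 1 < |a (w T i j) c - a (w T' i' (j + 1)) c| := by
  by_contra hcon
  push Not at hcon
  refine S.nw T' hT' i (mem_range.1 (hT hi)) h (fun n => if n ≤ j then w T i n else w T' i' n) ?_ ?_ ?_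
  · simp [S.w0 T hT i hi]
  · have : ¬ r ≤ j := by omega
    simp [this, S.wr T' hT' i' hi']
  · intro n hn
    rcases lt_trichotomy n j with h1 | h1 | h1
    · have h2 : n + 1 ≤ j := h1
      have h3 : n ≤ j := h1.le
      simp only [h2, h3, if_true]
      exact S.wn T hT i hi n hn
    · subst h1
      have h2 : ¬ n + 1 ≤ n := by omega
      simp only [h2, le_refl, if_true, if_false]
      exact hcon
    · have h2 : ¬ n + 1 ≤ j := by omega
      have h3 : ¬ n ≤ j := by omega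
      simp only [h2, h3, if_false]
      exact S.wn T' hT' i' hi' n hn

theorem dist_step (S : Sys a r k u v w) {T : Finset ℕ} (hT : T ⊆ range k) {i : ℕ} (hi : i ∈ T) (c : Fin 3) :
    ∀ j ≤ r, |a (w T i j) c - a (u i) c| ≤ j := by
  intro j
  induction j with
  | zero =>
    intro _
    rw [S.w0 T hT i hi]
    simp
  | succ j ih =>
    intro hj
    have h1 := ih (by omega)
    have h2 := S.wn T hT i hi j (by omega) c
    have h3 := abs_sub_le (a (w T i (j + 1)) c) (a (w T i j) c) (a (u i) c)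
    rw [abs_sub_comm] at h2
    push_cast
    linarith

theorem bounded (S : Sys a r k u v w) {T : Finset ℕ} (hT : T ⊆ range k) {i : ℕ} (hi : i ∈ T) (c : Fin 3)
    {j : ℕ} (hj : j ≤ r) : |a (w T i j) c - a (v (range k)) c| ≤ 2 * r := by
  have hi' : i ∈ range k := hT hi
  have h1 := S.dist_step hT hi c j hj
  have h2 := S.dist_step (Subset.refl _) hi' c r le_rfl
  rw [S.wr _ (Subset.refl _) i hi', abs_sub_comm] at h2
  have h3 := abs_sub_le (a (w T i j) c) (a (u i) c) (a (v (range k)) c)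
  have h4 : (j : ℝ) ≤ r := by exact_mod_cast hj
  linarith

/-- code of the cell (floor), relative to a base point -/
noncomputable def code (r : ℕ) (z y : ℝ) : Fin (4 * r + 3) :=
  ⟨min (Int.toNat (⌊y⌋ - ⌊z⌋ + (2 * r + 1))) (4 * r + 2), by
    have := min_le_right (Int.toNat (⌊y⌋ - ⌊z⌋ + (2 * r + 1))) (4 * r + 2)
    omega⟩

theorem code_spec {r : ℕ} {z y : ℝ} (h : |y - z| ≤ 2 * r) :
    ⌊y⌋ = ⌊z⌋ - (2 * r + 1) + ((code r z y : Fin (4 * r + 3)) : ℕ) := by
  have h1 := Int.floor_add_fract z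
  have h2 := Int.floor_add_fract y
  have h3 := Int.fract_nonneg z
  have h4 := Int.fract_lt_one z
  have h5 := Int.fract_nonneg y
  have h6 := Int.fract_lt_one y
  rw [abs_le] at h
  have h7 : ((⌊y⌋ - ⌊z⌋ : ℤ) : ℝ) < ((2 * r + 1 : ℤ) : ℝ) := by push_cast; linarith
  have h8 : ((-(2 * r + 1) : ℤ) : ℝ) < ((⌊y⌋ - ⌊z⌋ : ℤ) : ℝ) := by push_cast; linarith
  have h9 : ⌊y⌋ - ⌊z⌋ < 2 * r + 1 := by exact_mod_cast h7
  have h10 : -(2 * (r : ℤ) + 1) < ⌊y⌋ - ⌊z⌋ := by exact_mod_cast h8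
  simp only [code]
  rw [min_eq_left (by omega)]
  omega

/-- the colours of the first application of Ramsey's theorem -/
abbrev Col1 (r m : ℕ) : Type :=
  (Fin m → Fin m → Fin r → Fin 3 → Prop × Prop) × (Fin m → Fin (r + 1) → Fin 3 → Fin (4 * r + 3))

abbrev Col2 (r : ℕ) : Type :=
  (Fin r → Fin 3 → Prop × Prop) × (Fin r → Fin 3 → Prop × Prop) × (Fin (r + 1) → Fin 3 → Fin (4 * r + 3))

/-- the set of an increasing sequence -/
def setOf' (m : ℕ) (t : ℕ → ℕ) : Finset ℕ := (range m).image t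

theorem setOf'_congr {m : ℕ} {t t' : ℕ → ℕ} (h : ∀ b < m, t b = t' b) : setOf' m t = setOf' m t' := by
  unfold setOf'
  exact Finset.image_congr (fun b hb => h b (mem_range.1 hb))

def Q (a : V → Fin 3 → ℝ) (w : Finset ℕ → ℕ → ℕ → V) (m : ℕ) (t : ℕ → ℕ) (b j : ℕ) (c : Fin 3) : ℝ :=
  a (w (setOf' m t) (t b) j) c

theorem Q_congr {m : ℕ} {t t' : ℕ → ℕ} (h : ∀ b < m, t b = t' b) {b : ℕ} (hb : b < m) (j : ℕ) (c : Fin 3) :
    Q a w m t b j c = Q a w m t' b j c := by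
  unfold Q
  rw [setOf'_congr h, h b hb]

noncomputable def even' {m : ℕ} (s : Fin (2 * m) → ℕ) (b : ℕ) : ℕ := if h : 2 * b < 2 * m then s ⟨2 * b, h⟩ else 0

noncomputable def odd' {m : ℕ} (s : Fin (2 * m) → ℕ) (b : ℕ) : ℕ :=
  if h : 2 * b + 1 < 2 * m then s ⟨2 * b + 1, h⟩ else 0

/-- the first colouring -/
noncomputable def col1 (a : V → Fin 3 → ℝ) (w : Finset ℕ → ℕ → ℕ → V) (z : Fin 3 → ℝ) (r m : ℕ)
    (s : Fin (2 * m) → ℕ) : Col1 r m :=
  (fun b b' j c => (1 < |Q a w m (even' s) b j c - Q a w m (odd' s) b' (j + 1) c|,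
      1 < |Q a w m (odd' s) b j c - Q a w m (even' s) b' (j + 1) c|),
    fun b j c => code r (z c) (Q a w m (even' s) b j c))

def ev (o o' : ℕ → ℕ) (n : ℕ) : ℕ := if n % 2 = 0 then 5 * (n / 2) + o (n / 2) else 5 * (n / 2) + o' (n / 2)

theorem ev_mono {o o' : ℕ → ℕ} (h : ∀ n, o n < o' n) (h' : ∀ n, o' n ≤ 4) : StrictMono (ev o o') := by
  refine strictMono_nat_of_lt_succ (fun n => ?_)
  rcases Nat.even_or_odd' n with ⟨b, rfl | rfl⟩
  · have h1 : (2 * b) % 2 = 0 := by omega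
    have h2 : ¬ (2 * b + 1) % 2 = 0 := by omega
    have h3 : (2 * b) / 2 = b := by omega
    have h4 : (2 * b + 1) / 2 = b := by omega
    simp only [ev, h1, h2, h3, h4, if_true, if_false]
    have := h b
    omega
  · have h1 : ¬ (2 * b + 1) % 2 = 0 := by omega
    have h2 : (2 * b + 1 + 1) % 2 = 0 := by omega
    have h3 : (2 * b + 1) / 2 = b := by omega
    have h4 : (2 * b + 1 + 1) / 2 = b + 1 := by omega
    simp only [ev, h1, h2, h3, h4, if_true, if_false]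
    have := h' b
    omega

theorem ev_lt {o o' : ℕ → ℕ} (h : ∀ n, o n < o' n) (h' : ∀ n, o' n ≤ 4) {m n : ℕ} (hn : n < 2 * m) :
    ev o o' n < 5 * m := by
  have h1 := h (n / 2)
  have h2 := h' (n / 2)
  have h3 : n / 2 < m := by omega
  unfold ev
  split_ifs <;> omega

theorem ev_even (o o' : ℕ → ℕ) (b : ℕ) : ev o o' (2 * b) = 5 * b + o b := by
  have h1 : (2 * b) % 2 = 0 := by omega
  have h3 : (2 * b) / 2 = b := by omega
  simp only [ev, h1, h3, if_true]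

theorem ev_odd (o o' : ℕ → ℕ) (b : ℕ) : ev o o' (2 * b + 1) = 5 * b + o' b := by
  have h1 : ¬ (2 * b + 1) % 2 = 0 := by omega
  have h3 : (2 * b + 1) / 2 = b := by omega
  simp only [ev, h1, h3, if_false]

/-- the sequence with offsets `o` -/
def ts (y o : ℕ → ℕ) (b : ℕ) : ℕ := y (5 * b + o b)

theorem even'_eq {m : ℕ} (y o o' : ℕ → ℕ) {b : ℕ} (hb : b < m) :
    even' (fun n : Fin (2 * m) => y (ev o o' n)) b = ts y o b := by
  unfold even'
  rw [dif_pos (by omega)]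
  simp only [ev_even]
  rfl

theorem odd'_eq {m : ℕ} (y o o' : ℕ → ℕ) {b : ℕ} (hb : b < m) :
    odd' (fun n : Fin (2 * m) => y (ev o o' n)) b = ts y o' b := by
  unfold odd'
  rw [dif_pos (by omega)]
  simp only [ev_odd]
  rfl

/-- the second colouring -/
noncomputable def col2 {r m : ℕ} (d : Col2 r) (C : Col1 r m) (s : Fin 2 → ℕ) : Col2 r :=
  if h : s 0 < m ∧ s 1 < m then
    (C.1 ⟨s 0, h.1⟩ ⟨s 1, h.2⟩, C.1 ⟨s 1, h.2⟩ ⟨s 0, h.1⟩, C.2 ⟨s 0, h.1⟩)
  else d

def al2 {r : ℕ} (D : Col2 r) (s t : Bool) (j : ℕ) (c : Fin 3) : Prop :=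
  if h : j < r then
    if t then (if s then (D.1 ⟨j, h⟩ c).1 else (D.2.1 ⟨j, h⟩ c).1)
    else (if s then (D.1 ⟨j, h⟩ c).2 else (D.2.1 ⟨j, h⟩ c).2)
  else False

def cd {r : ℕ} (D : Col2 r) (j : ℕ) (c : Fin 3) : ℕ := if h : j < r + 1 then (D.2.2 ⟨j, h⟩ c : ℕ) else 0

theorem main (r : ℕ) (hr : 0 < r) : ∃ k : ℕ, ∀ (V : Type*) (a : V → Fin 3 → ℝ) (u : ℕ → V)
    (v : Finset ℕ → V) (w : Finset ℕ → ℕ → ℕ → V), ¬ Sys a r k u v w := by
  obtain ⟨m, hm⟩ := ramsey_tuple (Col2 r) 2 5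
  obtain ⟨k, hk⟩ := ramsey_tuple (Col1 r m) (2 * m) (5 * m)
  refine ⟨k, fun V a u v w S => ?_⟩
  set z : Fin 3 → ℝ := a (v (range k)) with hz
  obtain ⟨y, hy1, hy2, C, hC⟩ := hk (col1 a w z r m)
  obtain ⟨y', hy'1, hy'2, D, hD⟩ := hm (col2 (fun _ _ => (True, True), fun _ _ => (True, True), fun _ _ => 0) C)
  -- sets
  have hsub : ∀ o : ℕ → ℕ, (∀ n, o n ≤ 4) → setOf' m (ts y o) ⊆ range k := by
    intro o ho i hi
    obtain ⟨b, hb, rfl⟩ := Finset.mem_image.1 hi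
    rw [mem_range] at hb ⊢
    have := ho b
    exact hy2 _ (by omega)
  have hmem : ∀ (o : ℕ → ℕ) (b : ℕ), b < m → ts y o b ∈ setOf' m (ts y o) := by
    intro o b hb
    exact Finset.mem_image_of_mem _ (mem_range.2 hb)
  have yinj : ∀ i j, i < 5 * m → j < 5 * m → y i = y j → i = j := by
    intro i j hi hj hij
    rcases lt_trichotomy i j with h | h | h
    · exact absurd hij (hy1 _ _ h hj).ne
    · exact h
    · exact absurd hij (hy1 _ _ h hi).ne'
  have hnot : ∀ (o o' : ℕ → ℕ) (b : ℕ), (∀ n, o n ≤ 4) → (∀ n, o' n ≤ 4) → (∀ n, o n ≠ o' n) → b < m →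
      ts y o b ∉ setOf' m (ts y o') := by
    intro o o' b ho ho' hne hb hcon
    obtain ⟨b', hb', he⟩ := Finset.mem_image.1 hcon
    rw [mem_range] at hb'
    unfold ts at he
    have h1 := ho b
    have h2 := ho' b'
    have h3 := yinj _ _ (by omega) (by omega) he
    have h4 : b' = b := by omega
    subst h4
    exact hne b' (by omega)
  -- homogeneity of the first colouring
  have hC1 : ∀ (o o' : ℕ → ℕ), (∀ n, o n < o' n) → (∀ n, o' n ≤ 4) → ∀ (b b' : ℕ) (hb : b < m) (hb' : b' < m)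
      (j : ℕ) (hj : j < r) (c : Fin 3),
      ((1 < |Q a w m (ts y o) b j c - Q a w m (ts y o') b' (j + 1) c|) ↔ (C.1 ⟨b, hb⟩ ⟨b', hb'⟩ ⟨j, hj⟩ c).1) ∧
      ((1 < |Q a w m (ts y o') b j c - Q a w m (ts y o) b' (j + 1) c|) ↔ (C.1 ⟨b, hb⟩ ⟨b', hb'⟩ ⟨j, hj⟩ c).2) := by
    intro o o' h h' b b' hb hb' j hj c
    have h1 := hC (ev o o') (fun i j hij _ => ev_mono h h' hij) (fun i hi => ev_lt h h' hi)
    rw [← h1]
    have e1 : ∀ b < m, even' (fun n : Fin (2 * m) => y (ev o o' n)) b = ts y o b := fun b hb => even'_eq y o o' hb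
    have e2 : ∀ b < m, odd' (fun n : Fin (2 * m) => y (ev o o' n)) b = ts y o' b := fun b hb => odd'_eq y o o' hb
    simp only [col1]
    rw [Q_congr e1 hb, Q_congr e2 hb', Q_congr e2 hb, Q_congr e1 hb']
    exact ⟨Iff.rfl, Iff.rfl⟩
  have hC2 : ∀ (o : ℕ → ℕ), (∀ n, o n ≤ 3) → ∀ (b : ℕ) (hb : b < m) (j : ℕ) (hj : j < r + 1) (c : Fin 3),
      code r (z c) (Q a w m (ts y o) b j c) = C.2 ⟨b, hb⟩ ⟨j, hj⟩ c := by
    intro o ho b hb j hj c
    have h1 := hC (ev o (fun n => o n + 1)) (fun i j hij _ => ev_mono (fun n => Nat.lt_succ_self _)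
      (fun n => by have := ho n; omega) hij) (fun i hi => ev_lt (fun n => Nat.lt_succ_self _)
      (fun n => by have := ho n; omega) hi)
    rw [← h1]
    have e1 : ∀ b < m, even' (fun n : Fin (2 * m) => y (ev o (fun n => o n + 1) n)) b = ts y o b :=
      fun b hb => even'_eq y o _ hb
    simp only [col1]
    rw [Q_congr e1 hb]
  -- positions
  have hlt : ∀ i < 4, y' i < m := fun i hi => hy'2 i (by omega)
  have hD' : ∀ i i', i < i' → i' < 5 → (∀ (h : y' i < m) (h' : y' i' < m),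
      C.1 ⟨y' i, h⟩ ⟨y' i', h'⟩ = D.1 ∧ C.1 ⟨y' i', h'⟩ ⟨y' i, h⟩ = D.2.1 ∧ C.2 ⟨y' i, h⟩ = D.2.2) := by
    intro i i' hii hi' h h'
    have h1 := hD (fun n => if n = 0 then i else i') (by
      intro n n' hn hn'
      have : n = 0 := by omega
      have : n' ≠ 0 := by omega
      simp [*]) (by
      intro n hn
      by_cases h0 : n = 0
      · simp [h0]; omega
      · simp [h0]; omega)
    unfold col2 at h1
    simp only [Fin.val_zero, Fin.val_one, if_true, one_ne_zero, if_false] at h1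
    rw [dif_pos ⟨h, h'⟩] at h1
    rw [← h1]
    exact ⟨rfl, rfl, rfl⟩
  have hcode : ∀ i < 4, ∀ o : ℕ → ℕ, (∀ n, o n ≤ 3) → ∀ (j : ℕ), j < r + 1 → ∀ c : Fin 3,
      ⌊Q a w m (ts y o) (y' i) j c⌋ = ⌊z c⌋ - (2 * r + 1) + (cd D j c : ℕ) := by
    intro i hi o ho j hj c
    have ho4 : ∀ n, o n ≤ 4 := fun n => (ho n).trans (by norm_num)
    have h1 := code_spec (z := z c) (S.bounded (hsub o ho4) (hmem o (y' i) (hlt i hi)) c (by omega : j ≤ r))
    have h2 := hC2 o ho (y' i) (hlt i hi) j hj c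
    have h3 := (hD' i (i + 1) (by omega) (by omega) (hlt i hi) (hy'2 _ (by omega))).2.2
    unfold Q at h2 ⊢
    rw [h1, h2, h3]
    simp only [cd, dif_pos hj]
  -- the core structure
  have core : Core r (fun b => ∃ i < 4, b = y' i) (fun o b j c => Int.fract (Q a w m (ts y o) b j c))
      (fun j c => (cd D (j + 1) c : ℝ) - cd D j c) (al2 D) := by
    have hdel : ∀ (o o' : ℕ → ℕ) (i i' : ℕ), i < 4 → i' < 4 → (∀ n, o n ≤ 3) → (∀ n, o' n ≤ 3) →
        ∀ j < r, ∀ c, ((cd D (j + 1) c : ℝ) - cd D j c) =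
          (⌊Q a w m (ts y o') (y' i') (j + 1) c⌋ : ℝ) - ⌊Q a w m (ts y o) (y' i) j c⌋ := by
      intro o o' i i' hi hi' ho ho' j hj c
      rw [hcode i hi o ho j (by omega) c, hcode i' hi' o' ho' (j + 1) (by omega) c]
      push_cast
      ring
    have hnear : ∀ (o : ℕ → ℕ) (i : ℕ), i < 4 → (∀ n, o n ≤ 3) → ∀ j < r, ∀ c,
        |Q a w m (ts y o) (y' i) j c - Q a w m (ts y o) (y' i) (j + 1) c| ≤ 1 := by
      intro o i hi ho j hj c
      exact S.wn _ (hsub o fun n => (ho n).trans (by norm_num)) _ (hmem o _ (hlt i hi)) j hj c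
    have hfd : ∀ (o o' : ℕ → ℕ) (i i' : ℕ), i < 4 → i' < 4 → (∀ n, o n ≤ 3) → (∀ n, o' n ≤ 3) →
        ∀ j < r, ∀ c, |⌊Q a w m (ts y o') (y' i') (j + 1) c⌋ - ⌊Q a w m (ts y o) (y' i) j c⌋| ≤ 1 := by
      intro o o' i i' hi hi' ho ho' j hj c
      have h1 := floor_diff (hnear o i hi ho j hj c)
      rw [hcode i hi o ho j (by omega) c, hcode i hi o ho (j + 1) (by omega) c] at h1
      rw [hcode i hi o ho j (by omega) c, hcode i' hi' o' ho' (j + 1) (by omega) c]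
      exact h1
    have hfar : ∀ (o o' : ℕ → ℕ) (i i' : ℕ), i < 4 → i' < 4 → (∀ n, o n ≤ 3) → (∀ n, o' n ≤ 3) →
        ∀ j < r, ∀ c, (1 < |Q a w m (ts y o) (y' i) j c - Q a w m (ts y o') (y' i') (j + 1) c| ↔
          ((cd D (j + 1) c : ℝ) - cd D j c) * Int.fract (Q a w m (ts y o) (y' i) j c) <
          ((cd D (j + 1) c : ℝ) - cd D j c) * Int.fract (Q a w m (ts y o') (y' i') (j + 1) c)) := by
      intro o o' i i' hi hi' ho ho' j hj c
      rw [hdel o o' i i' hi hi' ho ho' j hj c]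
      exact far_iff (hfd o o' i i' hi hi' ho ho' j hj c)
    constructor
    · rintro o o' b ho ho' ⟨i, hi, rfl⟩ he
      have e1 : ts y o (y' i) = ts y o' (y' i) := by unfold ts; rw [he]
      funext c
      simp only [Q]
      rw [S.w0 _ (hsub o fun n => (ho n).trans (by norm_num)) _ (hmem o _ (hlt i hi)),
        S.w0 _ (hsub o' fun n => (ho' n).trans (by norm_num)) _ (hmem o' _ (hlt i hi)), e1]
    · rintro o b b' ho ⟨i, hi, rfl⟩ ⟨i', hi', rfl⟩
      funext c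
      simp only [Q]
      rw [S.wr _ (hsub o fun n => (ho n).trans (by norm_num)) _ (hmem o _ (hlt i hi)),
        S.wr _ (hsub o fun n => (ho n).trans (by norm_num)) _ (hmem o _ (hlt i' hi'))]
    · rintro o b j c ho ⟨i, hi, rfl⟩ hj
      rw [hdel o o i i hi hi ho ho j hj c]
      exact near_le (hnear o i hi ho j hj c)
    · rintro o o' b b' j t ho ho' ⟨i, hi, rfl⟩ ⟨i', hi', rfl⟩ _ hcmp hj
      have ho4 : ∀ n, o n ≤ 4 := fun n => (ho n).trans (by norm_num)
      have ho4' : ∀ n, o' n ≤ 4 := fun n => (ho' n).trans (by norm_num)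
      have hne : ∀ n, o n ≠ o' n := by
        intro n
        cases t
        · simp only [cmpF, Bool.false_eq_true, if_false] at hcmp
          exact (hcmp n).ne'
        · simp only [cmpF, if_true] at hcmp
          exact (hcmp n).ne
      obtain ⟨c, hc⟩ := S.no_false (hsub o ho4) (hsub o' ho4') (hmem o _ (hlt i hi)) (hmem o' _ (hlt i' hi'))
        (hnot o o' _ ho4 ho4' hne (hlt i hi)) hj
      exact ⟨c, (hfar o o' i i' hi hi' ho ho' j hj c).1 hc⟩
    · rintro o o' b b' j c s t ho ho' ⟨i, hi, rfl⟩ ⟨i', hi', rfl⟩ hs ht hj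
      have ho4 : ∀ n, o n ≤ 4 := fun n => (ho n).trans (by norm_num)
      have ho4' : ∀ n, o' n ≤ 4 := fun n => (ho' n).trans (by norm_num)
      have hmono : ∀ i i', i < 4 → i' < 4 → y' i < y' i' → i < i' := by
        intro i i' hi hi' h
        rcases lt_trichotomy i i' with h1 | h1 | h1
        · exact h1
        · rw [h1] at h; exact absurd h (lt_irrefl _)
        · exact absurd (hy'1 _ _ h1 (by omega)) (lt_asymm h)
      rw [← hfar o o' i i' hi hi' ho ho' j hj c]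
      have hb := hlt i hi
      have hb' := hlt i' hi'
      cases t
      · simp only [cmpF, Bool.false_eq_true, if_false] at ht
        rw [(hC1 o' o ht ho4 (y' i) (y' i') hb hb' j hj c).2]
        cases s
        · simp only [cmp2, Bool.false_eq_true, if_false] at hs
          rw [(hD' i' i (hmono _ _ hi' hi hs) (by omega) hb' hb).2.1]
          simp [al2, hj]
        · simp only [cmp2, if_true] at hs
          rw [(hD' i i' (hmono _ _ hi hi' hs) (by omega) hb hb').1]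
          simp [al2, hj]
      · simp only [cmpF, if_true] at ht
        rw [(hC1 o o' ht ho4' (y' i) (y' i') hb hb' j hj c).1]
        cases s
        · simp only [cmp2, Bool.false_eq_true, if_false] at hs
          rw [(hD' i' i (hmono _ _ hi' hi hs) (by omega) hb' hb).2.1]
          simp [al2, hj]
        · simp only [cmp2, if_true] at hs
          rw [(hD' i i' (hmono _ _ hi hi' hs) (by omega) hb hb').1]
          simp [al2, hj]
  exact core.false (q := y') ⟨fun i hi => ⟨i, hi, rfl⟩, fun i j hij hj => hy'1 i j hij (by omega)⟩ hr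

end Sys

end Pool.Agent.H61
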